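import Pool.Agent.Q166.EB.C

/-!
# Windows above the powers of all real bases: covers and hits for a set of real numbers
-/

set_option autoImplicit false

namespace Pool.Agent.Q166.GC

open Finset MeasureTheory Filter Topology Pool.Agent.Q166.Ex Pool.Agent.Q166.EB
open scoped ENNReal NNReal

/-- the logarithms of the bases whose powers have the property `Q` infinitely often -/
def YQ (Q : ℝ → Prop) : Set ℝ := {y | 0 < y ∧ ∃ᶠ n : ℕ in atTop, Q (Real.exp (n * y))}

open Classical in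
/-- the integers with the property `B` near the powers -/
noncomputable def stq (B : ℕ → Prop) (U V : ℝ) (n : ℕ) : Finset ℕ :=
  (Icc 1 (⌊Real.exp (n * V)⌋₊ + 1)).filter (fun m => Real.exp (n * U) ≤ (m : ℝ) + 1 ∧ B m)

theorem mem_stq {B : ℕ → Prop} {U V y : ℝ} {n m : ℕ} (hy : U ≤ y) (hyV : y ≤ V) (hB : B m) (h1 : 1 ≤ m)
    (h : |(m : ℝ) - Real.exp (n * y)| ≤ 1) : m ∈ stq B U V n := by
  classical
  have hn0 : (0 : ℝ) ≤ n := Nat.cast_nonneg n
  rw [abs_le] at h
  have e1 : Real.exp (n * U) ≤ Real.exp (n * y) := Real.exp_le_exp.2 (mul_le_mul_of_nonneg_left hy hn0)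
  have e2 : Real.exp (n * y) ≤ Real.exp (n * V) := Real.exp_le_exp.2 (mul_le_mul_of_nonneg_left hyV hn0)
  unfold stq
  rw [mem_filter, mem_Icc]
  refine ⟨⟨h1, ?_⟩, by linarith, hB⟩
  have e3 : m - 1 ≤ ⌊Real.exp (n * V)⌋₊ := by
    apply Nat.le_floor
    rw [Nat.cast_sub h1]
    push_cast
    linarith
  omega

/-- **The covers.** -/
theorem dimH_YQ_le {Q : ℝ → Prop} {B : ℕ → Prop} {U V t s : ℝ} (hU : 0 < U) (hs : 0 ≤ s) (hts : t < U * s)
    (hQ : ∀ᶠ x : ℝ in atTop, Q x → ∃ m : ℕ, B m ∧ |(m : ℝ) - x| ≤ 1)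
    (h : ∀ᶠ n : ℕ in atTop, ((stq B U V n).card : ℝ) < Real.exp (n * t)) :
    dimH (YQ Q ∩ Set.Icc U V) ≤ ENNReal.ofReal s := by
  classical
  have hexpt : Tendsto (fun n : ℕ => Real.exp (n * U)) atTop atTop :=
    Real.tendsto_exp_atTop.comp (tn.atTop_mul_const hU)
  obtain ⟨X, hX⟩ := eventually_atTop.1 hQ
  obtain ⟨n0, hn0⟩ := eventually_atTop.1 (h.and ((hexpt.eventually_ge_atTop (max X 4)).and
    (eventually_ge_atTop 1)))
  have hdt : Tendsto (fun n : ℕ => 4 * Real.exp (-(n * U))) atTop (𝓝 0) := by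
    have := (Real.tendsto_exp_neg_atTop_nhds_zero.comp (tn.atTop_mul_const hU)).const_mul 4
    simpa using this
  apply dimH_limsup_le hs (fun n => if n < n0 then ∅ else stq B U V n)
    (fun n m => Set.Icc (Real.log ((m : ℝ) - 1) / n) (Real.log ((m : ℝ) - 1) / n + 4 * Real.exp (-(n * U))))
    (fun n => 4 * Real.exp (-(n * U)))
  · intro i
    positivity
  · exact hdt
  · intro i p _
    rw [Real.ediam_Icc]
    exact le_of_eq (by congr 1; ring)
  · rintro y ⟨⟨hy1, hy2⟩, hy3, hy4⟩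
    refine (hy2.and_eventually (eventually_ge_atTop n0)).mono ?_
    rintro n ⟨hf, hn⟩
    obtain ⟨-, e2, e3⟩ := hn0 n hn
    rw [max_le_iff] at e2
    have hn1 : (1 : ℝ) ≤ n := by exact_mod_cast e3
    obtain ⟨x, hx⟩ : ∃ x : ℝ, x = Real.exp (n * y) := ⟨_, rfl⟩
    have hxU : Real.exp (n * U) ≤ x := by
      rw [hx]
      exact Real.exp_le_exp.2 (mul_le_mul_of_nonneg_left hy3 (by linarith))
    rw [← hx] at hf
    obtain ⟨m, hB, hm⟩ := hX x (by linarith) hf
    have hm' := abs_le.1 hm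
    have hm1 : 1 ≤ m := by
      have : (1 : ℝ) ≤ m := by linarith
      exact_mod_cast this
    refine ⟨m, ?_, ?_⟩
    · simp only [show ¬ n < n0 by omega, if_false]
      exact mem_stq hy3 hy4 hB hm1 (by rw [← hx]; exact hm)
    · have hlx : Real.log x = n * y := by rw [hx, Real.log_exp]
      obtain ⟨k, hk⟩ : ∃ k : ℝ, k = (m : ℝ) - 1 := ⟨_, rfl⟩
      rw [← hk]
      have hk0 : Real.exp (n * U) / 2 ≤ k := by linarith
      have hkpos : 0 < k := by
        have := Real.exp_pos (n * U)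
        linarith
      simp only [Set.mem_Icc]
      constructor
      · rw [div_le_iff₀ (by linarith)]
        calc Real.log k ≤ Real.log x := Real.log_le_log hkpos (by linarith)
          _ = y * n := by rw [hlx]; ring
      · have e4 : Real.log x ≤ Real.log k + 2 / k := by
          have e5 : Real.log x ≤ Real.log (k * (1 + 2 / k)) := by
            apply Real.log_le_log (by linarith)
            have : k * (1 + 2 / k) = k + 2 := by field_simp
            rw [this]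
            linarith
          rw [Real.log_mul hkpos.ne' (by positivity)] at e5
          have e6 := Real.log_le_sub_one_of_pos (show 0 < 1 + 2 / k by positivity)
          linarith
        have e7 : 2 / k ≤ 4 * Real.exp (-(n * U)) := by
          rw [Real.exp_neg, ← div_eq_mul_inv, div_le_div_iff₀ hkpos (Real.exp_pos _)]
          linarith
        have e8 : y ≤ (Real.log k + 4 * Real.exp (-(n * U))) / n := by
          rw [le_div_iff₀ (by linarith)]
          linarith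
        refine e8.trans ?_
        rw [add_div]
        have e9 : 4 * Real.exp (-(n * U)) / n ≤ 4 * Real.exp (-(n * U)) :=
          div_le_self (by positivity) hn1
        linarith
  · have hsum : Summable fun n : ℕ => 4 ^ s * Real.exp (-(n * (U * s - t))) :=
      (summable_exp_neg (show 0 < U * s - t by linarith)).mul_left (4 ^ s)
    refine Summable.of_nonneg_of_le (fun i => by positivity) (fun i => ?_) hsum
    by_cases hi : i < n0
    · simp only [hi, if_true, card_empty, Nat.cast_zero, zero_mul]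
      positivity
    · simp only [hi, if_false]
      have e1 := (hn0 i (by omega)).1
      rw [Real.mul_rpow (by norm_num) (Real.exp_pos _).le, ← Real.exp_mul]
      calc ((stq B U V i).card : ℝ) * (4 ^ s * Real.exp (-(i * U) * s)) ≤
            Real.exp (i * t) * (4 ^ s * Real.exp (-(i * U) * s)) :=
              mul_le_mul_of_nonneg_right e1.le (by positivity)
        _ = 4 ^ s * (Real.exp (i * t) * Real.exp (-(i * U) * s)) := by ring
        _ = _ := by
          rw [← Real.exp_add]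
          congr 2
          ring

/-- **The upper bound for the dimension.** -/
theorem dimH_YQ_le_of {Q : ℝ → Prop} {B : ℕ → Prop} {r : ℝ}
    (hQ : ∀ᶠ x : ℝ in atTop, Q x → ∃ m : ℕ, B m ∧ |(m : ℝ) - x| ≤ 1)
    (h : ∀ U V δ : ℚ, (0 : ℝ) < U → (U : ℝ) < V → (0 : ℝ) < δ → ∀ᶠ n : ℕ in atTop,
      ((stq B U V n).card : ℝ) < Real.exp (n * ((V : ℝ) - U * r + δ))) :
    dimH (YQ Q) ≤ ENNReal.ofReal (1 - r) := by
  refine le_of_forall_gt_imp_ge_of_dense fun b hb => ?_
  by_cases hbtop : b = ⊤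
  · rw [hbtop]; exact le_top
  obtain ⟨s, hs⟩ : ∃ s : ℝ, s = b.toReal := ⟨_, rfl⟩
  have hbs : b = ENNReal.ofReal s := by rw [hs, ENNReal.ofReal_toReal hbtop]
  have hs0 : 0 ≤ s := by rw [hs]; exact ENNReal.toReal_nonneg
  have hDs : 1 - r < s := by
    rw [hbs] at hb
    exact (ENNReal.ofReal_lt_ofReal_iff'.1 hb).1
  rw [hbs]
  have hsub : YQ Q ⊆ ⋃ p : {p : ℚ × ℚ × ℚ // (0 : ℝ) < p.1 ∧ (p.1 : ℝ) < p.2.1 ∧ (0 : ℝ) < p.2.2 ∧
      (p.2.1 : ℝ) - p.1 * r + p.2.2 < p.1 * s}, (YQ Q ∩ Set.Icc (p.1.1 : ℝ) p.1.2.1) := by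
    intro y hy
    have hy0 : 0 < y := hy.1
    obtain ⟨D, hD⟩ : ∃ D : ℝ, D = s - (1 - r) := ⟨_, rfl⟩
    have hD0 : 0 < D := by rw [hD]; linarith
    obtain ⟨e, he⟩ : ∃ e : ℝ, e = min (y / 2) (y * D / 6) := ⟨_, rfl⟩
    have he0 : 0 < e := by
      rw [he]
      exact lt_min (by linarith) (by positivity)
    have he1 : e ≤ y / 2 := by rw [he]; exact min_le_left _ _
    have he2 : e ≤ y * D / 6 := by rw [he]; exact min_le_right _ _
    obtain ⟨U, hU1, hU2⟩ := exists_rat_btwn (show y - e < y by linarith)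
    obtain ⟨V, hV1, hV2⟩ := exists_rat_btwn (show y < y + e by linarith)
    obtain ⟨δ, hδ1, hδ2⟩ := exists_rat_btwn he0
    have hUy : y / 2 < U := by linarith
    have hUD : y / 2 * D < U * D := mul_lt_mul_of_pos_right hUy hD0
    have hUD' : (U : ℝ) * D = U * s - U + U * r := by rw [hD]; ring
    rw [Set.mem_iUnion]
    exact ⟨⟨(U, V, δ), by simp only; linarith, by simp only; linarith, hδ1, by simp only; linarith⟩,
      hy, hU2.le, hV1.le⟩
  refine (dimH_mono hsub).trans ?_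
  rw [dimH_iUnion]
  refine iSup_le ?_
  rintro ⟨⟨U, V, δ⟩, h1, h2, h3, h4⟩
  exact dimH_YQ_le (t := (V : ℝ) - U * r + δ) h1 hs0 h4 hQ (h U V δ h1 h2 h3)

/-- There are whole unit intervals with the property `Q` in the intervals `[a, a + 2 a ^ ρ]`. -/
def Hits (Q : ℝ → Prop) (ρ : ℝ) : Prop :=
  ∀ᶠ a : ℕ in atTop, ∃ m : ℕ, a ≤ m ∧ (m : ℝ) ≤ a + 2 * (a : ℝ) ^ ρ ∧ ∀ x : ℝ, (m : ℝ) ≤ x → x ≤ m + 1 → Q x

theorem hit_stepQ {Q : ℝ → Prop} {ρ U V ε : ℝ} (hρ : 0 < ρ) (hρ1 : ρ < 1) (hU : 0 < U) (hε : 0 < ε)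
    (h : Hits Q ρ) :
    ∀ᶠ n : ℕ in atTop, ∀ w, U ≤ w → w + 3 * Real.exp (-(n * (U * (1 - ρ) - ε))) ≤ V → ∃ w', w ≤ w' ∧
      w' + Real.exp (-(n * (V + ε))) ≤ w + 3 * Real.exp (-(n * (U * (1 - ρ) - ε))) ∧
      Set.Icc w' (w' + Real.exp (-(n * (V + ε)))) ⊆ {y | Q (Real.exp (n * y))} := by
  obtain ⟨a0, ha0⟩ := eventually_atTop.1 h
  filter_upwards [ev_exp hU a0, ev_sq hε 8, tn.eventually_ge_atTop 1] with n h0 h1 h3 w hw1 hw2
  have hn0 : (0 : ℝ) < n := by linarith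
  have hn2 : (n : ℝ) ≤ (n : ℝ) ^ 2 := by nlinarith
  obtain ⟨β, hβ⟩ : ∃ β : ℝ, β = U * (1 - ρ) - ε := ⟨_, rfl⟩
  rw [← hβ] at hw2 ⊢
  have hβ0 : 0 < Real.exp (-(n * β)) := Real.exp_pos _
  have hUV : U ≤ V := by linarith
  have hUρ : U * (1 - ρ) ≤ U := by nlinarith
  have hpβ : Real.exp (-(n * (V + ε))) ≤ Real.exp (-(n * β)) := by
    apply Real.exp_le_exp.2
    apply neg_le_neg
    apply mul_le_mul_of_nonneg_left _ hn0.le
    rw [hβ]
    linarith
  obtain ⟨x, hx⟩ : ∃ x : ℝ, x = Real.exp (n * w) := ⟨_, rfl⟩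
  have hx0 : 0 < x := by rw [hx]; exact Real.exp_pos _
  have hw0 : 0 < w := by linarith
  have hx1 : 1 ≤ x := by rw [hx]; exact Real.one_le_exp (by positivity)
  have hUx : Real.exp (n * U) ≤ x := by
    rw [hx]
    exact Real.exp_le_exp.2 (mul_le_mul_of_nonneg_left hw1 hn0.le)
  have hxV : x ≤ Real.exp (n * V) := by
    rw [hx]
    exact Real.exp_le_exp.2 (mul_le_mul_of_nonneg_left (by linarith) hn0.le)
  have hfl := Nat.floor_le hx0.le
  have hfl2 := Nat.lt_floor_add_one x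
  obtain ⟨a, ha⟩ : ∃ a : ℕ, a = ⌊x⌋₊ + 1 := ⟨_, rfl⟩
  have har : (a : ℝ) = (⌊x⌋₊ : ℝ) + 1 := by rw [ha]; push_cast; ring
  have ha1 : a0 ≤ a := by
    have : (a0 : ℝ) ≤ a := by linarith
    exact_mod_cast this
  obtain ⟨m, hm1, hm2, hm3⟩ := ha0 a ha1
  have hm1' : (a : ℝ) ≤ m := by exact_mod_cast hm1
  have hxm : x ≤ m := by linarith
  have hm0 : (0 : ℝ) < m := by linarith
  obtain ⟨η, hη⟩ : ∃ η : ℝ, η = Real.exp (-(n * (U * (1 - ρ)))) := ⟨_, rfl⟩
  have hη0 : 0 < η := by rw [hη]; exact Real.exp_pos _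
  have hη1 : η ≤ 1 := by
    rw [hη, Real.exp_le_one_iff]
    have : 0 ≤ n * (U * (1 - ρ)) := mul_nonneg hn0.le (mul_nonneg hU.le (by linarith))
    linarith
  have hxρ : x ^ ρ ≤ x * η := by
    have e1 : x ^ ρ = x * Real.exp (-(n * (w * (1 - ρ)))) := by
      rw [hx, ← Real.exp_mul, ← Real.exp_add]
      congr 1
      ring
    rw [e1]
    apply mul_le_mul_of_nonneg_left _ hx0.le
    rw [hη]
    apply Real.exp_le_exp.2
    apply neg_le_neg
    exact mul_le_mul_of_nonneg_left (mul_le_mul_of_nonneg_right hw1 (by linarith)) hn0.le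
  have haρ : (a : ℝ) ^ ρ ≤ 2 * x ^ ρ := by
    calc (a : ℝ) ^ ρ ≤ (2 * x) ^ ρ := Real.rpow_le_rpow (by positivity) (by linarith) hρ.le
      _ = 2 ^ ρ * x ^ ρ := Real.mul_rpow (by norm_num) hx0.le
      _ ≤ 2 * x ^ ρ := by
          apply mul_le_mul_of_nonneg_right _ (by positivity)
          calc (2 : ℝ) ^ ρ ≤ 2 ^ (1 : ℝ) := Real.rpow_le_rpow_of_exponent_le (by norm_num) hρ1.le
            _ = 2 := Real.rpow_one _
  have hxρ1 : 1 ≤ x ^ ρ := Real.one_le_rpow hx1 hρ.le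
  have hmx : (m : ℝ) ≤ x * (1 + 5 * η) := by
    have : (m : ℝ) ≤ x + 5 * x ^ ρ := by linarith
    linarith
  have hηβ : 8 * η ≤ Real.exp (-(n * β)) := by
    have e1 : Real.exp (-(n * β)) = η * Real.exp (n * ε) := by
      rw [hη, ← Real.exp_add]
      congr 1
      rw [hβ]
      ring
    rw [e1]
    have e2 : (8 : ℝ) ≤ Real.exp (n * ε) := by nlinarith
    nlinarith
  obtain ⟨y0, hy0⟩ : ∃ y0 : ℝ, y0 = Real.log m / n := ⟨_, rfl⟩
  have hyl : n * y0 = Real.log m := by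
    rw [hy0]
    field_simp
  have hlx : Real.log x = n * w := by rw [hx, Real.log_exp]
  have hwy : w ≤ y0 := by
    rw [hy0, le_div_iff₀ hn0]
    have e2 := Real.log_le_log hx0 hxm
    linarith
  have hyw : y0 ≤ w + Real.exp (-(n * β)) := by
    have e6 := Real.log_le_log hm0 hmx
    rw [Real.log_mul hx0.ne' (by positivity)] at e6
    have e7 := Real.log_le_sub_one_of_pos (show 0 < 1 + 5 * η by positivity)
    have e8 : Real.exp (-(n * β)) ≤ n * Real.exp (-(n * β)) := le_mul_of_one_le_left hβ0.le h3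
    have e9 : n * y0 ≤ n * (w + Real.exp (-(n * β))) := by
      rw [hyl]
      linarith
    exact le_of_mul_le_mul_left e9 hn0
  refine ⟨y0, hwy, by linarith, ?_⟩
  rintro y ⟨hy1, hy2⟩
  show Q (Real.exp (n * y))
  apply hm3
  · rw [← Real.log_le_iff_le_exp hm0, ← hyl]
    exact mul_le_mul_of_nonneg_left hy1 hn0.le
  · rw [← Real.le_log_iff_exp_le (by positivity)]
    have e4 : n * y ≤ Real.log m + n * Real.exp (-(n * (V + ε))) := by
      have := mul_le_mul_of_nonneg_left hy2 hn0.le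
      rw [mul_add, hyl] at this
      exact this
    have e0 : ((m : ℝ) + 1) * (n * Real.exp (-(n * (V + ε)))) ≤ 1 := by
      have e11 : (m : ℝ) + 1 ≤ 7 * Real.exp (n * V) := by nlinarith
      calc ((m : ℝ) + 1) * (n * Real.exp (-(n * (V + ε)))) ≤
            (7 * Real.exp (n * V)) * (n * Real.exp (-(n * (V + ε)))) :=
              mul_le_mul_of_nonneg_right e11 (by positivity)
        _ = 7 * n * Real.exp (-(n * ε)) := by
            have : Real.exp (-(n * (V + ε))) = Real.exp (-(n * V)) * Real.exp (-(n * ε)) := by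
              rw [← Real.exp_add]
              congr 1
              ring
            rw [this, Real.exp_neg (n * V)]
            field_simp
        _ ≤ 1 := by
            rw [Real.exp_neg, ← div_eq_mul_inv, div_le_one (Real.exp_pos _)]
            nlinarith
    have e5 : n * Real.exp (-(n * (V + ε))) ≤ 1 / ((m : ℝ) + 1) := by
      rw [le_div_iff₀ (by positivity)]
      linarith
    have e6 := Real.one_sub_inv_le_log_of_pos (show 0 < ((m : ℝ) + 1) / m by positivity)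
    rw [Real.log_div (by positivity) hm0.ne', inv_div] at e6
    have e7 : 1 - (m : ℝ) / (m + 1) = 1 / (m + 1) := by
      field_simp
      ring
    linarith

/-- **The lower bound for the dimension.** -/
theorem le_dimH_YQ {Q : ℝ → Prop} {ρ u v : ℝ} (hρ : 0 < ρ) (hρ1 : ρ < 1) (hv : 0 < v) (huv : u < v)
    (h : Hits Q ρ) : ENNReal.ofReal (1 - ρ) ≤ dimH (YQ Q ∩ Set.Ioo u v) := by
  refine le_of_forall_lt fun b hb => ?_
  obtain ⟨s', hs1, hs2⟩ := exists_between hb
  have hs'top : s' ≠ ⊤ := ne_top_of_lt hs2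
  obtain ⟨s, hs⟩ : ∃ s : ℝ, s = s'.toReal := ⟨_, rfl⟩
  have hss : s' = ENNReal.ofReal s := by
    rw [hs, ENNReal.ofReal_toReal hs'top]
  have hs0 : 0 ≤ s := by rw [hs]; exact ENNReal.toReal_nonneg
  have hsD : s < 1 - ρ := by
    rw [hss] at hs2
    exact (ENNReal.ofReal_lt_ofReal_iff_of_nonneg hs0).1 hs2
  refine lt_of_lt_of_le hs1 ?_
  rw [hss]
  -- the parameters
  obtain ⟨D, hD⟩ : ∃ D : ℝ, D = 1 - ρ - s := ⟨_, rfl⟩
  have hD0 : 0 < D := by rw [hD]; linarith
  obtain ⟨e, he⟩ : ∃ e : ℝ, e = min (v * D / 8) ((v - max u 0) / 2) := ⟨_, rfl⟩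
  have hmax : max u 0 < v := max_lt huv hv
  have he0 : 0 < e := by
    rw [he]
    exact lt_min (by positivity) (by linarith)
  have he1 : e ≤ v * D / 8 := by rw [he]; exact min_le_left _ _
  have he2 : e ≤ (v - max u 0) / 2 := by rw [he]; exact min_le_right _ _
  have hmu : u ≤ max u 0 := le_max_left _ _
  have hm0 : 0 ≤ max u 0 := le_max_right _ _
  obtain ⟨u0, hu0⟩ : ∃ u0 : ℝ, u0 = v - e := ⟨_, rfl⟩
  obtain ⟨v0, hv0⟩ : ∃ v0 : ℝ, v0 = v - e / 2 := ⟨_, rfl⟩
  have hu00 : 0 < u0 := by rw [hu0]; linarith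
  have huv0 : u0 < v0 := by rw [hu0, hv0]; linarith
  have hhit := hit_stepQ (V := v0) hρ hρ1 hu00 he0 h
  obtain ⟨i0, hi0⟩ := eventually_atTop.1 hhit
  obtain ⟨β, hβ⟩ : ∃ β : ℝ, β = u0 * (1 - ρ) - e := ⟨_, rfl⟩
  rw [← hβ] at hi0
  have hρD : D ≤ 1 - ρ := by rw [hD]; linarith
  have hvD : v * D ≤ v * (1 - ρ) := mul_le_mul_of_nonneg_left hρD hv.le
  have heρ : e * (1 - ρ) ≤ e := by nlinarith
  have hβe : β - e = v * (1 - ρ) - e * (1 - ρ) - 2 * e := by
    rw [hβ, hu0]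
    ring
  have hp : 0 < v0 + e := by linarith
  have hpos : e < β := by linarith
  obtain ⟨φ, hφ1, hφ2, hφ3, hφ4⟩ := exists_scales_exp (p := v0 + e) he0 (show (0 : ℝ) < v0 - u0 by linarith) i0
  have hyt : Tendsto (fun k => Real.exp (φ k : ℝ)) atTop atTop :=
    Real.tendsto_exp_atTop.comp (tn.comp hφ1.tendsto_atTop)
  have hpow : ∀ (k : ℕ) (q : ℝ), (Real.exp (φ k : ℝ)) ^ (-q) = Real.exp (-(φ k * q)) := by
    intro k q
    rw [← Real.exp_mul]
    congr 1
    ring
  have hs1 : s ≤ 1 := by linarith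
  have hsv : s * (v0 + e) ≤ β - e := by
    rw [hβe, hv0]
    have e1 : s * (v - e / 2 + e) = s * v + s * (e / 2) := by ring
    have e2 : s * (e / 2) ≤ e / 2 := by nlinarith
    have e3 : v * D = v * (1 - ρ) - s * v := by rw [hD]; ring
    rw [e1]
    linarith
  have hβp : β - e ≤ v0 + e := by
    have : v * (1 - ρ) ≤ v := by nlinarith
    rw [hβe, hv0]
    nlinarith
  have hres := le_dimH_of_scales (a := u0) (b := v0) (p := v0 + e) (β := β) (ε := e) huv0 hp
    hpos hβp (fun k => Real.exp (φ k : ℝ))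
    (fun k => Real.one_le_exp (Nat.cast_nonneg _)) hφ3 hφ4 hyt (fun k => {y | Q (Real.exp (φ k * y))})
    (fun k w hw1 hw2 => by
      rw [hpow] at hw2
      rw [hpow, hpow]
      exact hi0 (φ k) (hφ2 k) w hw1 hw2)
  have hsβ : s ≤ (β - e) / (v0 + e) := by
    rw [le_div_iff₀ hp]
    exact hsv
  refine (ENNReal.ofReal_le_ofReal hsβ).trans (hres.trans (dimH_mono ?_))
  rintro θ ⟨h4, h5, h6⟩
  refine ⟨⟨by linarith, ?_⟩, by linarith, by linarith⟩
  rw [frequently_atTop]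
  intro a
  exact ⟨φ a, hφ1.id_le a, h6 a⟩

/-- short open intervals contain intervals with the property `Q` -/
theorem open_hitQ {Q : ℝ → Prop} {ρ a b : ℝ} (hρ : 0 < ρ) (hρ1 : ρ < 1) (ha : 0 ≤ a) (hab : a < b)
    (h : Hits Q ρ) (N : ℕ) :
    ∃ n, N ≤ n ∧ ∃ w w' : ℝ, a < w ∧ w < w' ∧ w' < b ∧ ∀ y, w ≤ y → y ≤ w' → Q (Real.exp (n * y)) := by
  obtain ⟨U, hU1, hU2⟩ := exists_between hab
  obtain ⟨V, hV1, hV2⟩ := exists_between hU2
  have hU0 : 0 < U := by linarith
  obtain ⟨ε, hε⟩ : ∃ ε : ℝ, ε = U * (1 - ρ) / 2 := ⟨_, rfl⟩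
  have hU1ρ : 0 < U * (1 - ρ) := mul_pos hU0 (by linarith)
  have hε0 : 0 < ε := by rw [hε]; linarith
  have hβ : 0 < U * (1 - ρ) - ε := by rw [hε]; linarith
  have hUV : 0 < V - U := by linarith
  obtain ⟨n, ⟨hn1, hn2⟩, hn3⟩ := (((hit_stepQ (V := V) hρ hρ1 hU0 hε0 h).and
    (ev_exp hβ (3 / (V - U)))).and (eventually_ge_atTop N)).exists
  have h5 : U + 3 * Real.exp (-(n * (U * (1 - ρ) - ε))) ≤ V := by
    rw [div_le_iff₀ hUV] at hn2
    rw [Real.exp_neg, ← div_eq_mul_inv]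
    have : 3 / Real.exp (n * (U * (1 - ρ) - ε)) ≤ V - U := by
      rw [div_le_iff₀ (Real.exp_pos _)]
      linarith
    linarith
  obtain ⟨w', h6, h7, h8⟩ := hn1 U le_rfl h5
  have h9 := Real.exp_pos (-(n * (V + ε)))
  exact ⟨n, hn3, w', w' + Real.exp (-(n * (V + ε))), by linarith, by linarith, by linarith,
    fun y hy1 hy2 => h8 ⟨hy1, hy2⟩⟩

/-- **Generic bases.** -/
theorem generic_YQ {Q : ℝ → Prop} {ρ : ℝ} (hρ : 0 < ρ) (hρ1 : ρ < 1) (h : Hits Q ρ) :
    ∀ᶠ b : ℝ in residual ℝ, 1 < b → ∃ᶠ n : ℕ in atTop, Q (b ^ n) := by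
  have h1 : ∀ N : ℕ, ∀ᶠ b : ℝ in residual ℝ, 1 < b → ∃ n, N ≤ n ∧ Q (b ^ n) := by
    intro N
    obtain ⟨G, hG⟩ : ∃ G : Set ℝ, G = Set.Iio (1 : ℝ) ∪
        ⋃ (n : ℕ) (_ : N ≤ n) (p : ℝ × ℝ) (_ : ∀ y, p.1 ≤ y → y ≤ p.2 → Q (Real.exp (n * y))),
          {b : ℝ | 1 < b ∧ Real.exp p.1 < b ∧ b < Real.exp p.2} := ⟨_, rfl⟩
    have hGo : IsOpen G := by
      rw [hG]
      refine isOpen_Iio.union ?_
      refine isOpen_iUnion fun n => isOpen_iUnion fun _ => isOpen_iUnion fun a => isOpen_iUnion fun _ => ?_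
      exact (isOpen_lt continuous_const continuous_id).inter
        ((isOpen_lt continuous_const continuous_id).inter (isOpen_lt continuous_id continuous_const))
    have hGd : Dense G := by
      rw [Metric.dense_iff]
      intro b r hr
      by_cases hb : b < 1
      · refine ⟨b, Metric.mem_ball_self hr, ?_⟩
        rw [hG]
        exact Or.inl hb
      · push Not at hb
        have hl1 : 0 < Real.log (b + r / 4) := Real.log_pos (by linarith)
        have hl2 : Real.log (b + r / 4) < Real.log (b + r / 2) := Real.log_lt_log (by linarith) (by linarith)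
        obtain ⟨n, hn, w, w', e1, e2, e3, e4⟩ := open_hitQ hρ hρ1 hl1.le hl2 h N
        obtain ⟨c, hc1, hc2⟩ := exists_between (Real.exp_lt_exp.2 e2)
        have e5 : b + r / 4 < Real.exp w := by
          rw [← Real.log_lt_iff_lt_exp (by linarith)]
          exact e1
        have e6 : Real.exp w' < b + r / 2 := by
          rw [← Real.lt_log_iff_exp_lt (by linarith)]
          exact e3
        refine ⟨c, ?_, ?_⟩
        · rw [Metric.mem_ball, Real.dist_eq, abs_lt]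
          constructor <;> linarith
        · rw [hG]
          right
          simp only [Set.mem_iUnion]
          exact ⟨n, hn, (w, w'), e4, by linarith, hc1, hc2⟩
    filter_upwards [residual_of_dense_open hGo hGd] with b hb hb1
    rw [hG] at hb
    rcases hb with hb | hb
    · exact absurd hb (not_lt.2 hb1.le)
    · simp only [Set.mem_iUnion] at hb
      obtain ⟨n, hn, p, hp, -, h3, h4⟩ := hb
      have hb0 : 0 < b := by linarith
      refine ⟨n, hn, ?_⟩
      have h5 := hp (Real.log b) (by rw [Real.le_log_iff_exp_le hb0]; exact h3.le)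
        (by rw [Real.log_le_iff_le_exp hb0]; exact h4.le)
      rw [Real.exp_nat_mul, Real.exp_log hb0] at h5
      exact h5
  have h2 : ∀ᶠ b : ℝ in residual ℝ, ∀ N : ℕ, 1 < b → ∃ n, N ≤ n ∧ Q (b ^ n) := by
    rw [eventually_countable_forall]
    exact h1
  filter_upwards [h2] with b hb hb1
  rw [frequently_atTop]
  intro N
  obtain ⟨n, hn, hf⟩ := hb N hb1
  exact ⟨n, hn, hf⟩

end Pool.Agent.Q166.GC
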