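import Pool.Agent.Q166.GC.A
import Pool.Agent.Q120.EX.Main

/-!
# Numbers of elements of windows at real points and at integers
-/

set_option autoImplicit false

namespace Pool.Agent.Q166.GC

open Finset MeasureTheory Filter Topology Pool.Agent.Q166.Ex Pool.Agent.Q166.EB
open scoped ENNReal NNReal

/-- The number of elements of `S` in `(x, x + h]`. -/
noncomputable def Cnt (S : Set ℕ) (x h : ℝ) : ℕ := {m : ℕ | m ∈ S ∧ x < (m : ℝ) ∧ (m : ℝ) ≤ x + h}.ncard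

theorem Cnt_mono {S : Set ℕ} {x h x' h' : ℝ} (h1 : x' ≤ x) (h2 : x + h ≤ x' + h') : Cnt S x h ≤ Cnt S x' h' := by
  unfold Cnt
  apply Set.ncard_le_ncard
  · rintro m ⟨hm, h3, h4⟩
    exact ⟨hm, by linarith, by linarith⟩
  · exact (Set.finite_Iic ⌊x' + h'⌋₊).subset fun m hm => Nat.le_floor hm.2.2

/-- many elements -/
def QM (S : Set ℕ) (k c x : ℝ) : Prop := c * Real.log x ≤ (Cnt S x (k * Real.log x ^ 2) : ℝ)

/-- more elements -/
def SM (S : Set ℕ) (k c x : ℝ) : Prop := c * Real.log x < (Cnt S x (k * Real.log x ^ 2) : ℝ)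

/-- few elements -/
def QF (S : Set ℕ) (k c x : ℝ) : Prop := (Cnt S x (k * Real.log x ^ 2) : ℝ) ≤ c * Real.log x

/-- neighbouring points -/
theorem exists_sq {k k' : ℝ} (hk : 0 < k) (h : k < k') : ∃ X : ℝ, 2 ≤ X ∧ ∀ x x' : ℝ, X ≤ x → X ≤ x' → x ≤ x' + 1 →
    1 + k * Real.log x ^ 2 ≤ k' * Real.log x' ^ 2 := by
  obtain ⟨Λ, hΛ⟩ : ∃ Λ : ℝ, Λ = max 1 ((3 * k + 1) / (k' - k)) := ⟨_, rfl⟩
  have hΛ1 : 1 ≤ Λ := by rw [hΛ]; exact le_max_left _ _
  have hΛ2 : (3 * k + 1) / (k' - k) ≤ Λ := by rw [hΛ]; exact le_max_right _ _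
  have hX2 : 2 ≤ Real.exp Λ := by
    have := Real.add_one_le_exp Λ
    linarith
  refine ⟨Real.exp Λ, hX2, ?_⟩
  intro x x' hx hx' hxx
  have hx0 : 0 < x := by linarith
  have hx'0 : 0 < x' := by linarith
  obtain ⟨L, hL⟩ : ∃ L : ℝ, L = Real.log x' := ⟨_, rfl⟩
  have hL1 : Λ ≤ L := by
    rw [hL, Real.le_log_iff_exp_le hx'0]
    exact hx'
  have h1 : Real.log x ≤ L + 1 := by
    have e1 : Real.log x ≤ Real.log (2 * x') := Real.log_le_log hx0 (by linarith)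
    rw [Real.log_mul (by norm_num) hx'0.ne'] at e1
    have := Real.log_two_lt_d9
    linarith
  have h0 : 0 ≤ Real.log x := Real.log_nonneg (by linarith)
  rw [← hL]
  have h2 : Real.log x ^ 2 ≤ (L + 1) ^ 2 := pow_le_pow_left₀ h0 h1 2
  have h3 : k * Real.log x ^ 2 ≤ k * (L + 1) ^ 2 := mul_le_mul_of_nonneg_left h2 hk.le
  have hkk : 0 < k' - k := by linarith
  have h4 : 3 * k + 1 ≤ (k' - k) * L := by
    have := (div_le_iff₀ hkk).1 (hΛ2.trans hL1)
    linarith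
  have hL1' : 1 ≤ L := by linarith
  have h5 : (3 * k + 1) * L ≤ (k' - k) * L * L := mul_le_mul_of_nonneg_right h4 (by linarith)
  nlinarith

variable {S : Set ℕ}

/-- many elements after a real number: more than `c' log m` elements after the integer part -/
theorem upM {k k' c c' : ℝ} (hk : 0 < k) (hkk : k < k') (hc' : c' < c) :
    ∀ᶠ x : ℝ in atTop, QM S k c x → ∃ m : ℕ, SM S k' c' m ∧ |(m : ℝ) - x| ≤ 1 := by
  obtain ⟨X, hX2, hX⟩ := exists_sq hk hkk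
  have ht : Tendsto (fun x : ℝ => c' * (Real.log (x - 1) - Real.log x)) atTop (𝓝 0) := by
    have h1 : Tendsto (fun x : ℝ => Real.log (1 - 1 / x)) atTop (𝓝 (Real.log (1 - 0))) := by
      have h2 : Tendsto (fun x : ℝ => 1 - 1 / x) atTop (𝓝 (1 - 0)) :=
        tendsto_const_nhds.sub (tendsto_id.const_div_atTop 1)
      exact h2.log (by norm_num)
    rw [sub_zero, Real.log_one] at h1
    have h3 := h1.const_mul c'
    rw [mul_zero] at h3
    refine h3.congr' ?_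
    filter_upwards [eventually_gt_atTop 1] with x hx
    have hx0 : 0 < x := by linarith
    have e1 : x - 1 = x * (1 - 1 / x) := by field_simp
    have e2 : 0 < 1 - 1 / x := by
      rw [sub_pos, div_lt_one hx0]
      exact hx
    rw [e1, Real.log_mul hx0.ne' e2.ne']
    ring
  have ht2 : ∀ᶠ x : ℝ in atTop, 2 ≤ (c - c') * Real.log x :=
    (Real.tendsto_log_atTop.const_mul_atTop (by linarith)).eventually_ge_atTop 2
  filter_upwards [eventually_ge_atTop (X + 1), ht.eventually_lt_const (show (0 : ℝ) < 1 by norm_num),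
    ht.eventually_const_lt (show (-1 : ℝ) < 0 by norm_num), ht2] with x hx h1 h1' h2 h3
  have hx0 : 0 ≤ x := by linarith
  have e1 := Nat.floor_le hx0
  have e2 := Nat.lt_floor_add_one x
  refine ⟨⌊x⌋₊, ?_, ?_⟩
  · unfold QM at h3
    unfold SM
    have e3 : X ≤ (⌊x⌋₊ : ℝ) := by linarith
    have e4 := hX x ⌊x⌋₊ (by linarith) e3 e2.le
    have e5 : Cnt S x (k * Real.log x ^ 2) ≤ Cnt S ⌊x⌋₊ (k' * Real.log (⌊x⌋₊ : ℝ) ^ 2) :=
      Cnt_mono e1 (by linarith)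
    have e6 : (Cnt S x (k * Real.log x ^ 2) : ℝ) ≤ Cnt S ⌊x⌋₊ (k' * Real.log (⌊x⌋₊ : ℝ) ^ 2) := by exact_mod_cast e5
    have e7 : Real.log (⌊x⌋₊ : ℝ) ≤ Real.log x := Real.log_le_log (by linarith) e1
    have e8 : Real.log (x - 1) ≤ Real.log (⌊x⌋₊ : ℝ) := Real.log_le_log (by linarith) (by linarith)
    have e9 : c' * Real.log (⌊x⌋₊ : ℝ) ≤ c' * Real.log x + 1 := by
      rcases le_or_gt 0 c' with h | h
      · have := mul_le_mul_of_nonneg_left e7 h
        linarith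
      · have := mul_le_mul_of_nonpos_left e8 h.le
        linarith
    linarith
  · rw [abs_le]
    constructor <;> linarith

/-- few elements after a real number -/
theorem upF {k k' c c' : ℝ} (hk' : 0 < k') (hkk : k' < k) (hc : 0 ≤ c) (hcc : c ≤ c') :
    ∀ᶠ x : ℝ in atTop, QF S k c x → ∃ m : ℕ, QF S k' c' m ∧ |(m : ℝ) - x| ≤ 1 := by
  obtain ⟨X, hX2, hX⟩ := exists_sq hk' hkk
  filter_upwards [eventually_ge_atTop (X + 1)] with x hx h3
  have hx0 : 0 ≤ x := by linarith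
  have e1 := Nat.floor_le hx0
  have e2 := Nat.lt_floor_add_one x
  obtain ⟨m, hm⟩ : ∃ m : ℕ, m = ⌊x⌋₊ + 1 := ⟨_, rfl⟩
  have hmr : (m : ℝ) = ⌊x⌋₊ + 1 := by rw [hm]; push_cast; ring
  refine ⟨m, ?_, ?_⟩
  · unfold QF at h3 ⊢
    have e4 := hX m x (by linarith) (by linarith) (by linarith)
    have e5 : Cnt S m (k' * Real.log (m : ℝ) ^ 2) ≤ Cnt S x (k * Real.log x ^ 2) :=
      Cnt_mono (by linarith) (by linarith)
    have e6 : (Cnt S m (k' * Real.log (m : ℝ) ^ 2) : ℝ) ≤ Cnt S x (k * Real.log x ^ 2) := by exact_mod_cast e5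
    have e7 : Real.log x ≤ Real.log (m : ℝ) := Real.log_le_log (by linarith) (by linarith)
    have e8 : 0 ≤ Real.log x := Real.log_nonneg (by linarith)
    have e9 : c * Real.log x ≤ c' * Real.log (m : ℝ) := mul_le_mul hcc e7 e8 (by linarith)
    linarith
  · rw [abs_le]
    constructor <;> linarith

/-- many elements after the integer `m + 1`: many elements after all real numbers in `[m, m + 1]` -/
theorem loM {k k' c c' : ℝ} (hk' : 0 < k') (hkk : k' < k) (hc : 0 ≤ c) (hcc : c ≤ c') :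
    ∀ᶠ m : ℕ in atTop, QM S k' c' ((m : ℝ) + 1) → ∀ x : ℝ, (m : ℝ) ≤ x → x ≤ m + 1 → QM S k c x := by
  obtain ⟨X, hX2, hX⟩ := exists_sq hk' hkk
  filter_upwards [tn.eventually_ge_atTop X] with m hm h3 x h4 h5
  unfold QM at h3 ⊢
  have e4 := hX (m + 1) x (by linarith) (by linarith) (by linarith)
  have e5 : Cnt S (m + 1) (k' * Real.log ((m : ℝ) + 1) ^ 2) ≤ Cnt S x (k * Real.log x ^ 2) :=
    Cnt_mono (by linarith) (by linarith)
  have e6 : (Cnt S (m + 1) (k' * Real.log ((m : ℝ) + 1) ^ 2) : ℝ) ≤ Cnt S x (k * Real.log x ^ 2) := by exact_mod_cast e5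
  have e7 : Real.log x ≤ Real.log ((m : ℝ) + 1) := Real.log_le_log (by linarith) (by linarith)
  have e8 : 0 ≤ Real.log x := Real.log_nonneg (by linarith)
  have e9 : c * Real.log x ≤ c' * Real.log ((m : ℝ) + 1) := mul_le_mul hcc e7 e8 (by linarith)
  linarith

/-- few elements after the integer `m`: few elements after all real numbers in `[m, m + 1]` -/
theorem loF {k k' c c' : ℝ} (hk : 0 < k) (hkk : k < k') (hc' : 0 ≤ c') (hcc : c' ≤ c) :
    ∀ᶠ m : ℕ in atTop, QF S k' c' m → ∀ x : ℝ, (m : ℝ) ≤ x → x ≤ m + 1 → QF S k c x := by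
  obtain ⟨X, hX2, hX⟩ := exists_sq hk hkk
  filter_upwards [tn.eventually_ge_atTop X] with m hm h3 x h4 h5
  unfold QF at h3 ⊢
  have e4 := hX x m (by linarith) (by linarith) (by linarith)
  have e5 : Cnt S x (k * Real.log x ^ 2) ≤ Cnt S m (k' * Real.log (m : ℝ) ^ 2) :=
    Cnt_mono (by linarith) (by linarith)
  have e6 : (Cnt S x (k * Real.log x ^ 2) : ℝ) ≤ Cnt S m (k' * Real.log (m : ℝ) ^ 2) := by exact_mod_cast e5
  have e7 : Real.log (m : ℝ) ≤ Real.log x := Real.log_le_log (by linarith) h4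
  have e8 : 0 ≤ Real.log (m : ℝ) := Real.log_nonneg (by linarith)
  have e9 : c' * Real.log (m : ℝ) ≤ c * Real.log x := mul_le_mul hcc e7 e8 (by linarith)
  linarith

/-- hits at integers give hits -/
theorem hitsM {k k' c c' ρ ρ' : ℝ} (hk' : 0 < k') (hkk : k' < k) (hc : 0 ≤ c) (hcc : c ≤ c') (hρ' : 0 < ρ')
    (hρρ : ρ' ≤ ρ) (hρ : ρ < 1)
    (h : ∀ᶠ a : ℕ in atTop, ∃ m : ℕ, a ≤ m ∧ (m : ℝ) ≤ a + (a : ℝ) ^ ρ' ∧ QM S k' c' m) : Hits (QM S k c) ρ := by
  unfold Hits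
  obtain ⟨M, hM⟩ := eventually_atTop.1 (loM (S := S) hk' hkk hc hcc)
  filter_upwards [(tendsto_add_atTop_nat 1).eventually h, eventually_ge_atTop (M + 1)] with a ha ha1
  obtain ⟨m, h1, h2, h3⟩ := ha
  have ha0 : (1 : ℝ) ≤ a := by
    have : 1 ≤ a := by omega
    exact_mod_cast this
  refine ⟨m - 1, by omega, ?_, ?_⟩
  · rw [Nat.cast_sub (by omega)]
    push_cast at h2 ⊢
    have e1 : ((a : ℝ) + 1) ^ ρ' ≤ 2 * (a : ℝ) ^ ρ := by
      calc ((a : ℝ) + 1) ^ ρ' ≤ (2 * a) ^ ρ' := Real.rpow_le_rpow (by positivity) (by linarith) hρ'.le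
        _ ≤ (2 * a) ^ ρ := Real.rpow_le_rpow_of_exponent_le (by linarith) hρρ
        _ = 2 ^ ρ * (a : ℝ) ^ ρ := Real.mul_rpow (by norm_num) (by linarith)
        _ ≤ 2 * (a : ℝ) ^ ρ := by
            apply mul_le_mul_of_nonneg_right _ (by positivity)
            calc (2 : ℝ) ^ ρ ≤ 2 ^ (1 : ℝ) := Real.rpow_le_rpow_of_exponent_le (by norm_num) hρ.le
              _ = 2 := Real.rpow_one _
    linarith
  · have e1 : ((m - 1 : ℕ) : ℝ) + 1 = m := by
      rw [Nat.cast_sub (by omega)]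
      push_cast
      ring
    have := hM (m - 1) (by omega)
    rw [e1] at this
    rw [e1]
    exact this h3

theorem hitsF {k k' c c' ρ ρ' : ℝ} (hk : 0 < k) (hkk : k < k') (hc' : 0 ≤ c') (hcc : c' ≤ c)
    (hρρ : ρ' ≤ ρ)
    (h : ∀ᶠ a : ℕ in atTop, ∃ m : ℕ, a ≤ m ∧ (m : ℝ) ≤ a + (a : ℝ) ^ ρ' ∧ QF S k' c' m) : Hits (QF S k c) ρ := by
  unfold Hits
  obtain ⟨M, hM⟩ := eventually_atTop.1 (loF (S := S) hk hkk hc' hcc)
  filter_upwards [h, eventually_ge_atTop (M + 1)] with a ha ha1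
  obtain ⟨m, h1, h2, h3⟩ := ha
  have ha0 : (1 : ℝ) ≤ a := by
    have : 1 ≤ a := by omega
    exact_mod_cast this
  refine ⟨m, h1, ?_, hM m (by omega) h3⟩
  have e1 : (a : ℝ) ^ ρ' ≤ (a : ℝ) ^ ρ := Real.rpow_le_rpow_of_exponent_le ha0 hρρ
  have e2 : 0 ≤ (a : ℝ) ^ ρ := by positivity
  linarith

end Pool.Agent.Q166.GC
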