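import Pool.Agent.Q166.GC.B

/-!
# Cramér's model: few starting points of windows with extreme numbers of elements
-/

set_option autoImplicit false

namespace Pool.Agent.Q166.GC

open Finset MeasureTheory Filter Topology Pool.Agent.Q120.ET Pool.Agent.Q120.MF Pool.Agent.Q120.AD
  Pool.Agent.Q120.EX Pool.Agent.Q166.Sq Pool.Agent.Q166.EB

theorem rate_pos {a c : ℝ} (ha : 0 < a) (hc : 0 < c) (h : a ≠ c) : 0 < rate a c := by
  unfold rate
  have h1 : a / c ≠ 1 := by
    rw [Ne, div_eq_one_iff_eq hc.ne']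
    exact h
  have h2 := Real.log_lt_sub_one_of_pos (show 0 < a / c by positivity) h1
  have h3 : c * Real.log (a / c) < c * (a / c - 1) := mul_lt_mul_of_pos_left h2 hc
  have h4 : c * (a / c - 1) = a - c := by field_simp
  linarith

variable {Ω : Type*} [MeasurableSpace Ω] {μ : Measure Ω} [IsProbabilityMeasure μ] {A : Ω → Set ℕ}

omit [IsProbabilityMeasure μ] in
theorem measurable_tr (hA : IsCramer μ A) (B : Finset ℕ) (F : Finset ℕ → Prop) :
    MeasurableSet {ω | F (tr A B ω)} := by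
  classical
  have h1 : {ω | F (tr A B ω)} = ⋃ T ∈ B.powerset.filter F, {ω | tr A B ω = T} := by
    ext ω
    simp only [Set.mem_ofPred_eq, Set.mem_iUnion, exists_prop, mem_filter, mem_powerset]
    constructor
    · intro h
      refine ⟨_, ⟨fun n hn => (mem_tr.1 hn).1, h⟩, rfl⟩
    · rintro ⟨T, ⟨_, h⟩, h2⟩
      rw [h2]; exact h
  rw [h1]
  refine Finset.measurableSet_biUnion _ fun T hT => ?_
  rw [← law_set_eq A (mem_powerset.1 (mem_filter.1 hT).1)]
  exact measurableSet_law hA.random B T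

theorem Cnt_eq (m : ℕ) {h : ℝ} (hh : 0 ≤ h) (ω : Ω) :
    Cnt (A ω) m h = (tr A (Finset.Ioc m (m + ⌊h⌋₊)) ω).card := by
  rw [← num_eq (fun _ => h) m hh ω]
  unfold Cnt num
  congr 1
  ext n
  simp only [Set.mem_ofPred_eq, Nat.cast_lt]

theorem SM_iff {k c : ℝ} (hk : 0 ≤ k) (m : ℕ) (ω : Ω) : SM (A ω) k c m ↔
    c * Real.log m < ((tr A (Finset.Ioc m (m + ⌊k * Real.log (m : ℝ) ^ 2⌋₊)) ω).card : ℝ) := by
  unfold SM
  rw [Cnt_eq m (by positivity) ω]

theorem QM_iff {k c : ℝ} (hk : 0 ≤ k) (m : ℕ) (ω : Ω) : QM (A ω) k c m ↔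
    c * Real.log m ≤ ((tr A (Finset.Ioc m (m + ⌊k * Real.log (m : ℝ) ^ 2⌋₊)) ω).card : ℝ) := by
  unfold QM
  rw [Cnt_eq m (by positivity) ω]

theorem QF_iff {k c : ℝ} (hk : 0 ≤ k) (m : ℕ) (ω : Ω) : QF (A ω) k c m ↔
    ((tr A (Finset.Ioc m (m + ⌊k * Real.log (m : ℝ) ^ 2⌋₊)) ω).card : ℝ) ≤ c * Real.log m := by
  unfold QF
  rw [Cnt_eq m (by positivity) ω]

/-- the probability of many elements -/
theorem prob_SM (hA : IsCramer μ A) {c a κ : ℝ} (ha0 : 0 < a) (hca : a < c) (hκ : κ < rate a c) :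
    ∀ᶠ y : ℕ in atTop, μ.real {ω | SM (A ω) a c y} ≤ (y : ℝ) ^ (-κ) := by
  have hc0 : 0 < c := by linarith
  obtain ⟨s, hs⟩ : ∃ s : ℝ, s = c / a := ⟨_, rfl⟩
  have hs1 : 1 < s := by rw [hs, one_lt_div ha0]; exact hca
  have hs0 : 0 < s := by linarith
  have hsa : s * a = c := by rw [hs]; field_simp
  have hlogs : Real.log (a / c) = -Real.log s := by
    rw [hs, ← Real.log_inv, inv_div]
  have hev : ∀ᶠ y : ℕ in atTop, s ≤ (y : ℝ) ^ (rate a c - κ) :=
    ((tendsto_rpow_atTop (sub_pos.2 hκ)).comp tn).eventually_ge_atTop s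
  filter_upwards [eventually_ge_atTop 3, hev] with y hy3 hys
  have hlog := one_lt_log hy3
  have hy0 : (0 : ℝ) < y := by
    have : 0 < y := by omega
    exact_mod_cast this
  have hsub : {ω | SM (A ω) a c y} ⊆ {ω | ¬ (tr A (Finset.Ioc y (y + ⌊a * Real.log y ^ 2⌋₊)) ω).card ≤ ⌊c * Real.log y⌋₊} := by
    intro ω hω
    have h1 := (SM_iff ha0.le y ω).1 hω
    show ¬ _
    rw [not_le, Nat.floor_lt (by positivity)]
    exact h1
  refine (measureReal_mono hsub (measure_ne_top _ _)).trans ?_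
  refine (real_many hA hy3 hs1.le).trans ?_
  have h1 := sum_window_le (h := ⌊a * Real.log y ^ 2⌋₊) hy3
  have h2 : ∑ n ∈ Finset.Ioc y (y + ⌊a * Real.log y ^ 2⌋₊), 1 / Real.log (n : ℝ) ≤ a * Real.log y := by
    refine h1.trans ?_
    rw [div_le_iff₀ (by linarith)]
    have h3 : (⌊a * Real.log y ^ 2⌋₊ : ℝ) ≤ a * Real.log y ^ 2 := Nat.floor_le (by positivity)
    nlinarith
  have h3 : (1 / s) ^ ⌊c * Real.log y⌋₊ ≤ s * Real.exp (-(c * Real.log s * Real.log y)) := by
    have h4 : c * Real.log y < ⌊c * Real.log y⌋₊ + 1 := Nat.lt_floor_add_one _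
    have h5 : 1 / s = Real.exp (-Real.log s) := by rw [Real.exp_neg, Real.exp_log hs0, one_div]
    have h6 : s * Real.exp (-(c * Real.log s * Real.log y)) = Real.exp (Real.log s - c * Real.log s * Real.log y) := by
      rw [sub_eq_add_neg, Real.exp_add, Real.exp_log hs0]
    rw [h5, h6, ← Real.exp_nat_mul, Real.exp_le_exp]
    have h7 : 0 < Real.log s := Real.log_pos hs1
    nlinarith
  calc (1 / s) ^ ⌊c * Real.log y⌋₊ *
        Real.exp (-((1 - s) * ∑ n ∈ Finset.Ioc y (y + ⌊a * Real.log y ^ 2⌋₊), 1 / Real.log (n : ℝ)))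
      ≤ s * Real.exp (-(c * Real.log s * Real.log y)) * Real.exp ((s - 1) * (a * Real.log y)) := by
        apply mul_le_mul h3 (Real.exp_le_exp.2 _) (Real.exp_pos _).le (by positivity)
        have := mul_le_mul_of_nonneg_left h2 (show 0 ≤ s - 1 by linarith)
        linarith
    _ = s * (y : ℝ) ^ (-rate a c) := by
        rw [mul_assoc, ← Real.exp_add, Real.rpow_def_of_pos hy0]
        congr 2
        have h7 : (s - 1) * (a * Real.log y) = (c - a) * Real.log y := by rw [← hsa]; ring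
        unfold rate
        rw [h7, hlogs]
        ring
    _ ≤ (y : ℝ) ^ (rate a c - κ) * (y : ℝ) ^ (-rate a c) := mul_le_mul_of_nonneg_right hys (by positivity)
    _ = (y : ℝ) ^ (-κ) := by
        rw [← Real.rpow_add hy0]
        congr 1
        ring

/-- the probability of few elements -/
theorem prob_QF (hA : IsCramer μ A) {c a κ : ℝ} (hc : 0 < c) (hca : c < a) (hκr : κ < rate a c) :
    ∀ᶠ y : ℕ in atTop, μ.real {ω | QF (A ω) a c y} ≤ (y : ℝ) ^ (-κ) := by
  have ha0 : 0 < a := by linarith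
  obtain ⟨s, hs⟩ : ∃ s : ℝ, s = c / a := ⟨_, rfl⟩
  have hs0 : 0 < s := by rw [hs]; positivity
  have hs1 : s < 1 := by rw [hs, div_lt_one ha0]; exact hca
  have hsa : s * a = c := by rw [hs]; field_simp
  have hinv : 1 / s = a / c := by rw [hs, one_div_div]
  obtain ⟨e, he⟩ : ∃ e : ℝ, e = rate a c - κ := ⟨_, rfl⟩
  have he0 : 0 < e := by rw [he]; linarith
  have hT : Tendsto (fun y : ℕ => (1 - s) * (((⌊a * Real.log y ^ 2⌋₊ : ℝ) / Real.log y ^ 2) /
      (Real.log (2 * y) / Real.log y))) atTop (𝓝 ((1 - s) * (a / 1))) :=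
    ((tendsto_floor ha0.le hl2).div (tendsto_log_mul two_pos) one_ne_zero).const_mul _
  have hT2 := hT.eventually_const_lt (show (1 - s) * a - e < (1 - s) * (a / 1) by rw [div_one]; linarith)
  filter_upwards [hT2, eventually_ge_atTop 3, ev_floor_le ha0.le 1] with y hy hy3 hyf
  have hlog := one_lt_log hy3
  have hy0 : (0 : ℝ) < y := by
    have : 0 < y := by omega
    exact_mod_cast this
  have hlog2 : 1 < Real.log (2 * (y : ℝ)) := by
    have := Real.log_le_log hy0 (show (y : ℝ) ≤ 2 * y by linarith)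
    linarith
  have hsub : {ω | QF (A ω) a c y} ⊆ {ω | (tr A (Finset.Ioc y (y + ⌊a * Real.log y ^ 2⌋₊)) ω).card ≤ ⌊c * Real.log y⌋₊} := by
    intro ω hω
    have h1 := (QF_iff ha0.le y ω).1 hω
    exact Nat.le_floor h1
  refine (measureReal_mono hsub (measure_ne_top _ _)).trans ?_
  refine (real_few hA hy3 hs0 hs1.le).trans ?_
  have h1 := sum_window (h := ⌊a * Real.log y ^ 2⌋₊) hy3 (z := 2 * y) (by push_cast; linarith)
  have h2 : ((1 - s) * a - e) * Real.log y ≤
      (1 - s) * ∑ n ∈ Finset.Ioc y (y + ⌊a * Real.log y ^ 2⌋₊), 1 / Real.log (n : ℝ) := by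
    have h3 : (1 - s) * (((⌊a * Real.log y ^ 2⌋₊ : ℝ) / Real.log y ^ 2) /
      (Real.log (2 * y) / Real.log y)) * Real.log y = (1 - s) * ((⌊a * Real.log y ^ 2⌋₊ : ℝ) / Real.log (2 * y)) := by
      field_simp
    have h4 := mul_le_mul_of_nonneg_right hy.le (show 0 ≤ Real.log (y : ℝ) by linarith)
    rw [h3] at h4
    refine h4.trans (mul_le_mul_of_nonneg_left h1 (by linarith))
  have h5 : (1 / s) ^ ⌊c * Real.log y⌋₊ ≤ Real.exp (c * Real.log (a / c) * Real.log y) := by
    have hla : 0 < Real.log (a / c) := Real.log_pos (by rw [lt_div_iff₀ hc]; linarith)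
    have hac : 0 < a / c := by positivity
    rw [hinv, ← Real.exp_log hac, ← Real.exp_nat_mul, Real.exp_log hac]
    apply Real.exp_le_exp.2
    have h6 : (⌊c * Real.log y⌋₊ : ℝ) ≤ c * Real.log y := Nat.floor_le (by positivity)
    nlinarith
  calc (1 / s) ^ ⌊c * Real.log y⌋₊ *
        Real.exp (-((1 - s) * ∑ n ∈ Finset.Ioc y (y + ⌊a * Real.log y ^ 2⌋₊), 1 / Real.log (n : ℝ)))
      ≤ Real.exp (c * Real.log (a / c) * Real.log y) * Real.exp (-(((1 - s) * a - e) * Real.log y)) := by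
        apply mul_le_mul h5 (Real.exp_le_exp.2 (by linarith)) (Real.exp_pos _).le (Real.exp_pos _).le
    _ = (y : ℝ) ^ (-κ) := by
        rw [← Real.exp_add, Real.rpow_def_of_pos hy0]
        congr 1
        have h7 : (1 - s) * a = a - c := by rw [sub_mul, one_mul, hsa]
        rw [h7]
        have h8 : a - c - c * Real.log (a / c) = κ + e := by rw [he]; unfold rate; ring
        linear_combination (-Real.log (y : ℝ)) * h8

/-- **Markov's inequality** for the number of bad starting points near the powers. -/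
theorem few_stq {E : ℕ → Set Ω} (hE : ∀ m, MeasurableSet (E m)) {r : ℝ} (hr : 0 < r)
    (hp : ∀ κ : ℝ, 0 < κ → κ < r → ∀ᶠ m : ℕ in atTop, μ.real (E m) ≤ (m : ℝ) ^ (-κ)) {U V δ : ℝ}
    (hU : 0 < U) (hUV : U < V) (hδ : 0 < δ) :
    ∀ᵐ ω ∂μ, ∀ᶠ n : ℕ in atTop,
      ((stq (fun m => ω ∈ E m) U V n).card : ℝ) < Real.exp (n * (V - U * r + δ)) := by
  classical
  obtain ⟨κ, hκ1, hκ2⟩ := exists_between (show max 0 (r - δ / (2 * U)) < r from max_lt hr (by
    have : 0 < δ / (2 * U) := by positivity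
    linarith))
  rw [max_lt_iff] at hκ1
  obtain ⟨hκ0, hκ3⟩ := hκ1
  have hκ4 : U * r - U * κ < δ / 2 := by
    have h1 : r - κ < δ / (2 * U) := by linarith
    rw [lt_div_iff₀ (by positivity)] at h1
    linarith
  obtain ⟨m0, hm0⟩ := eventually_atTop.1 (hp κ hκ0 hκ2)
  obtain ⟨C, hC⟩ : ∃ C : ℝ, C = 4 * 2 ^ κ := ⟨_, rfl⟩
  have h3 := ae_all_grid (μ := μ) (τ := Unit) (fun _ => {()})
    (fun n _ => {ω | Real.exp (n * (V - U * r + δ)) ≤ ((stq (fun m => ω ∈ E m) U V n).card : ℝ)})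
    (fun n : ℕ => C * Real.exp (-(n * (δ / 2)))) ((summable_exp_neg (half_pos hδ)).mul_left C) (by
      filter_upwards [ev_exp hU (max (m0 + 1) 4)] with n hn
      rw [max_le_iff] at hn
      have hset : {ω | Real.exp (n * (V - U * r + δ)) ≤ ((stq (fun m => ω ∈ E m) U V n).card : ℝ)} =
          {ω | Real.exp (n * (V - U * r + δ)) ≤ ((((Icc 1 (⌊Real.exp (n * V)⌋₊ + 1)).filter
            fun m : ℕ => Real.exp (n * U) ≤ (m : ℝ) + 1).filter (fun m => ω ∈ E m)).card : ℝ)} := by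
        ext ω
        simp only [Set.mem_ofPred_eq]
        rw [filter_filter]
        unfold stq
        rfl
      rw [sum_singleton, hset]
      refine (markov (μ := μ) ((Icc 1 (⌊Real.exp (n * V)⌋₊ + 1)).filter
        fun m : ℕ => Real.exp (n * U) ≤ (m : ℝ) + 1) E (fun m _ => hE m) (Real.exp_pos _)).trans ?_
      have hpm : ∀ m ∈ (Icc 1 (⌊Real.exp (n * V)⌋₊ + 1)).filter
          (fun m : ℕ => Real.exp (n * U) ≤ (m : ℝ) + 1), μ.real (E m) ≤ 2 ^ κ * Real.exp (-(n * (U * κ))) := by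
        intro m hm
        rw [mem_filter] at hm
        have e1 : (m0 : ℝ) ≤ m := by linarith [hm.2, hn.1]
        refine (hm0 m (by exact_mod_cast e1)).trans ?_
        have e2 : Real.exp (n * U) / 2 ≤ m := by linarith [hm.2, hn.2]
        have e3 : 0 < Real.exp (n * U) / 2 := by positivity
        calc (m : ℝ) ^ (-κ) ≤ (Real.exp (n * U) / 2) ^ (-κ) :=
              Real.rpow_le_rpow_of_nonpos e3 e2 (by linarith)
          _ = 2 ^ κ * Real.exp (-(n * (U * κ))) := by
              rw [Real.div_rpow (Real.exp_pos _).le (by norm_num), ← Real.exp_mul, Real.rpow_neg (by norm_num),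
                div_inv_eq_mul, mul_comm]
              congr 2
              ring
      have hcard : (((Icc 1 (⌊Real.exp (n * V)⌋₊ + 1)).filter
          (fun m : ℕ => Real.exp (n * U) ≤ (m : ℝ) + 1)).card : ℝ) ≤ 4 * Real.exp (n * V) := by
        have e1 : ((Icc 1 (⌊Real.exp (n * V)⌋₊ + 1)).filter
          (fun m : ℕ => Real.exp (n * U) ≤ (m : ℝ) + 1)).card ≤ ⌊Real.exp (n * V)⌋₊ + 1 := by
          refine (card_filter_le _ _).trans ?_
          rw [Nat.card_Icc]
          omega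
        have e2 : (((Icc 1 (⌊Real.exp (n * V)⌋₊ + 1)).filter
          (fun m : ℕ => Real.exp (n * U) ≤ (m : ℝ) + 1)).card : ℝ) ≤ ((⌊Real.exp (n * V)⌋₊ + 1 : ℕ) : ℝ) := by
          exact_mod_cast e1
        push_cast at e2
        have h2 : (⌊Real.exp (n * V)⌋₊ : ℝ) ≤ Real.exp (n * V) := Nat.floor_le (by positivity)
        have e3 : 1 ≤ Real.exp (n * V) :=
          Real.one_le_exp (mul_nonneg (Nat.cast_nonneg n) (by linarith))
        linarith
      have hsum := sum_le_sum hpm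
      rw [sum_const, nsmul_eq_mul] at hsum
      rw [div_le_iff₀ (Real.exp_pos _)]
      refine hsum.trans ((mul_le_mul_of_nonneg_right hcard (by positivity)).trans ?_)
      have e5 : 4 * Real.exp (n * V) * (2 ^ κ * Real.exp (-(n * (U * κ)))) = C * Real.exp (n * (V - U * κ)) := by
        rw [hC, show (n : ℝ) * (V - U * κ) = n * V + -(n * (U * κ)) by ring, Real.exp_add]
        ring
      have e6 : C * Real.exp (-(n * (δ / 2))) * Real.exp (n * (V - U * r + δ)) =
          C * Real.exp (n * (V - U * r + δ / 2)) := by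
        rw [mul_assoc, ← Real.exp_add]
        congr 2
        ring
      rw [e5, e6]
      apply mul_le_mul_of_nonneg_left _ (by rw [hC]; positivity)
      apply Real.exp_le_exp.2
      apply mul_le_mul_of_nonneg_left _ (Nat.cast_nonneg n)
      linarith)
  filter_upwards [h3] with ω hω
  filter_upwards [hω] with i hi
  exact not_le.1 (hi () (mem_singleton_self _))

end Pool.Agent.Q166.GC
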