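import Pool.Agent.Q166.GC.C

/-!
# Cramér's model: windows with extreme numbers of elements in short intervals
-/

set_option autoImplicit false

namespace Pool.Agent.Q166.GC

open Finset MeasureTheory Filter Topology Pool.Agent.Q120.ET Pool.Agent.Q120.MF Pool.Agent.Q120.AD
  Pool.Agent.Q120.EX

/-- The lower bound for the probability of few elements. -/
theorem q_low {c a κ : ℝ} (hc0 : 0 < c) (ha0 : 0 < a) (hr : rate a c < κ) :
    ∀ᶠ x : ℕ in atTop, (x : ℝ) ^ (-κ) ≤
      ((⌊a * Real.log x ^ 2⌋₊).choose ⌊c * Real.log x⌋₊ : ℝ) *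
        ((1 / Real.log (2 * x)) ^ ⌊c * Real.log x⌋₊ * (1 - 1 / Real.log x) ^ ⌊a * Real.log x ^ 2⌋₊) := by
  have hc : 0 ≤ c := hc0.le
  have hth := tendsto_floor ha0.le hl2
  have htm := tendsto_floor hc hl
  have htl := tendsto_log_mul (show (0 : ℝ) < 2 by norm_num)
  -- the third piece
  have hP3 : Tendsto (fun x : ℕ => (⌊a * Real.log x ^ 2⌋₊ : ℝ) * Real.log (1 - 1 / Real.log x) / Real.log x)
      atTop (𝓝 (a * (-1))) := by
    have h1 := (Real.tendsto_mul_log_one_add_div_atTop (-1)).comp hl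
    refine (hth.mul h1).congr' ?_
    filter_upwards [eventually_ge_atTop 3] with x hx
    have h2 := one_lt_log hx
    simp only [Function.comp]
    rw [show 1 + -1 / Real.log (x : ℝ) = 1 - 1 / Real.log (x : ℝ) by ring]
    field_simp
  have hfloor : ∀ᶠ x : ℕ in atTop, ⌊c * Real.log x⌋₊ ≤ ⌊a * Real.log x ^ 2⌋₊ := by
    filter_upwards [hl.eventually_ge_atTop (c / a), eventually_ge_atTop 3] with x hx0 hx
    have h2 := one_lt_log hx
    apply Nat.floor_le_floor
    rw [div_le_iff₀ ha0] at hx0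
    nlinarith
  · -- the pieces
    have hP1 : Tendsto (fun x : ℕ => Real.log ((⌊c * Real.log x⌋₊ : ℝ) + 1) / Real.log x) atTop (𝓝 0) := by
      have h1 : Tendsto (fun x : ℕ => ((⌊c * Real.log x⌋₊ : ℝ) + 1)) atTop atTop :=
        tendsto_atTop_mono (fun x => (Nat.lt_floor_add_one _).le) (hl.const_mul_atTop hc0)
      have h2 := (Real.isLittleO_log_id_atTop.tendsto_div_nhds_zero).comp h1
      have h3 : Tendsto (fun x : ℕ => ((⌊c * Real.log x⌋₊ : ℝ) + 1) / Real.log x) atTop (𝓝 (c + 0)) := by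
        have h4 := htm.add (hl.const_div_atTop (1 : ℝ))
        refine h4.congr (fun x => ?_)
        rw [add_div]
      have h4 := h2.mul h3
      rw [zero_mul] at h4
      refine h4.congr' ?_
      filter_upwards [eventually_ge_atTop 3] with x hx
      have h5 := one_lt_log hx
      simp only [Function.comp, id]
      have h6 : (0 : ℝ) < (⌊c * Real.log x⌋₊ : ℝ) + 1 := by positivity
      field_simp
    have hR : Tendsto (fun x : ℕ => (((⌊a * Real.log x ^ 2⌋₊ : ℝ) - (⌊c * Real.log x⌋₊ : ℝ)) *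
        (1 / Real.log (2 * x)) * Real.exp 1) / ((⌊c * Real.log x⌋₊ : ℝ) + 1)) atTop
        (𝓝 ((a - c * 0) * (1 / 1) * Real.exp 1 / (c + 0))) := by
      have h1 : Tendsto (fun x : ℕ => (⌊a * Real.log x ^ 2⌋₊ : ℝ) / Real.log x ^ 2 -
          (⌊c * Real.log x⌋₊ : ℝ) / Real.log x * (1 / Real.log x)) atTop (𝓝 (a - c * 0)) :=
        hth.sub (htm.mul (hl.const_div_atTop (1 : ℝ)))
      have h2 : Tendsto (fun x : ℕ => 1 / (Real.log (2 * x) / Real.log x)) atTop (𝓝 (1 / 1)) :=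
        tendsto_const_nhds.div htl one_ne_zero
      have h3 : Tendsto (fun x : ℕ => (⌊c * Real.log x⌋₊ : ℝ) / Real.log x + 1 / Real.log x) atTop (𝓝 (c + 0)) :=
        htm.add (hl.const_div_atTop (1 : ℝ))
      refine (((h1.mul h2).mul_const (Real.exp 1)).div h3 (by rw [add_zero]; exact hc0.ne')).congr' ?_
      filter_upwards [eventually_ge_atTop 3] with x hx
      have h5 := one_lt_log hx
      have hx0 : (0 : ℝ) < x := by
        have : 0 < x := by omega
        exact_mod_cast this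
      have h6 : 1 < Real.log (2 * (x : ℝ)) := by
        have := Real.log_le_log hx0 (show (x : ℝ) ≤ 2 * x by linarith)
        linarith
      have h7 : (0 : ℝ) < (⌊c * Real.log x⌋₊ : ℝ) + 1 := by positivity
      simp only [Pi.div_apply]
      field_simp
    have hRlim : (a - c * 0) * (1 / 1) * Real.exp 1 / (c + 0) = a / c * Real.exp 1 := by
      rw [mul_zero, sub_zero, add_zero]; ring
    rw [hRlim] at hR
    have hR0 : 0 < a / c * Real.exp 1 := by positivity
    have hlogR := (hR.log hR0.ne')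
    have hlogRlim : Real.log (a / c * Real.exp 1) = Real.log (a / c) + 1 := by
      rw [Real.log_mul (by positivity) (Real.exp_ne_zero _), Real.log_exp]
    rw [hlogRlim] at hlogR
    have hG := ((htm.mul hlogR).sub hP1).add hP3
    have h1 := hG.eventually_const_lt (show -κ < c * (Real.log (a / c) + 1) - 0 + a * (-1) by
      unfold rate at hr
      linarith)
    filter_upwards [h1, eventually_ge_atTop 3, hfloor, hR.eventually_const_lt hR0] with x hx hx3 hmh hRpos
    have h2 := one_lt_log hx3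
    have hx0 : (0 : ℝ) < x := by
      have : 0 < x := by omega
      exact_mod_cast this
    have h2' : 1 < Real.log (2 * (x : ℝ)) := by
      have := Real.log_le_log hx0 (show (x : ℝ) ≤ 2 * x by linarith)
      linarith
    have h3 : 0 < 1 - 1 / Real.log (x : ℝ) := by
      have : 1 / Real.log (x : ℝ) < 1 := by rw [div_lt_one (by linarith)]; exact h2
      linarith
    have hb := choose_bound (p := 1 / Real.log (2 * x)) (by positivity) hmh
    obtain ⟨R, hRdef⟩ : ∃ R : ℝ, R = (((⌊a * Real.log x ^ 2⌋₊ : ℝ) - (⌊c * Real.log x⌋₊ : ℝ)) *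
        (1 / Real.log (2 * x)) * Real.exp 1) / ((⌊c * Real.log x⌋₊ : ℝ) + 1) := ⟨_, rfl⟩
    rw [← hRdef] at hb hRpos hx
    have hm1 : (0 : ℝ) < (⌊c * Real.log x⌋₊ : ℝ) + 1 := by positivity
    have h4 : Real.exp ((⌊c * Real.log x⌋₊ : ℝ) * Real.log R - Real.log ((⌊c * Real.log x⌋₊ : ℝ) + 1) +
        (⌊a * Real.log x ^ 2⌋₊ : ℝ) * Real.log (1 - 1 / Real.log x)) =
        (1 / ((⌊c * Real.log x⌋₊ : ℝ) + 1) * R ^ ⌊c * Real.log x⌋₊) * (1 - 1 / Real.log x) ^ ⌊a * Real.log x ^ 2⌋₊ := by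
      rw [Real.exp_add, Real.exp_sub, Real.exp_nat_mul, Real.exp_nat_mul, Real.exp_log hRpos, Real.exp_log hm1,
        Real.exp_log h3]
      ring
    have h5 : Real.log x * (-κ) ≤ (⌊c * Real.log x⌋₊ : ℝ) * Real.log R -
        Real.log ((⌊c * Real.log x⌋₊ : ℝ) + 1) +
        (⌊a * Real.log x ^ 2⌋₊ : ℝ) * Real.log (1 - 1 / Real.log x) := by
      have h6 : (⌊c * Real.log x⌋₊ : ℝ) / Real.log x * Real.log R -
          Real.log ((⌊c * Real.log x⌋₊ : ℝ) + 1) / Real.log x +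
          (⌊a * Real.log x ^ 2⌋₊ : ℝ) * Real.log (1 - 1 / Real.log x) / Real.log x =
          ((⌊c * Real.log x⌋₊ : ℝ) * Real.log R -
        Real.log ((⌊c * Real.log x⌋₊ : ℝ) + 1) +
        (⌊a * Real.log x ^ 2⌋₊ : ℝ) * Real.log (1 - 1 / Real.log x)) / Real.log x := by ring
      rw [h6, lt_div_iff₀ (by linarith)] at hx
      linarith
    rw [Real.rpow_def_of_pos hx0]
    refine (Real.exp_le_exp.2 h5).trans ?_
    rw [h4, ← mul_assoc]
    exact mul_le_mul_of_nonneg_right hb (by positivity)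


variable {Ω : Type*} [MeasurableSpace Ω] {μ : Measure Ω} [IsProbabilityMeasure μ] {A : Ω → Set ℕ}

/-- **Independence**: there are windows of a given kind in short intervals. -/
theorem window_hit (hA : IsCramer μ A) {a κ ρ : ℝ} (ha0 : 0 < a) (hκ : 0 < κ) (hκρ : κ < ρ) (hρ : ρ < 1)
    (F : ℕ → Finset ℕ → Prop) [∀ x, DecidablePred (F x)]
    (hF : ∀ᶠ x : ℕ in atTop, ∀ W : Finset ℕ, W.card = ⌊a * Real.log x ^ 2⌋₊ →
      (∀ j ∈ W, (x : ℝ) ≤ j ∧ (j : ℝ) ≤ 2 * x) → (x : ℝ) ^ (-κ) ≤ ∑ T ∈ W.powerset with F x T, cramerOn W T) :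
    ∀ᵐ ω ∂μ, ∀ᶠ x : ℕ in atTop, ∃ m : ℕ, x ≤ m ∧ (m : ℝ) ≤ x + (x : ℝ) ^ ρ ∧ m ≤ 2 * x ∧
      F x (tr A (Finset.Ioc m (m + ⌊a * Real.log x ^ 2⌋₊)) ω) := by
  classical
  have hρ0 : 0 < ρ := by linarith
  have hg : Summable (fun x : ℕ => (x : ℝ) ^ (-(2 : ℝ))) := Real.summable_nat_rpow.2 (by norm_num)
  have hae := (ae_eventually_notMem (tsum_ne_top_of_real (μ := μ) hg
    (f := fun x => {ω | ∀ i ∈ range (⌊(x : ℝ) ^ ρ⌋₊ / ⌊a * Real.log x ^ 2⌋₊),
      ¬ F x (tr A (Finset.Ioc (x + i * ⌊a * Real.log x ^ 2⌋₊) (x + i * ⌊a * Real.log x ^ 2⌋₊ +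
        ⌊a * Real.log x ^ 2⌋₊)) ω)}) ?_))
  · filter_upwards [hae] with ω hω
    filter_upwards [hω, eventually_ge_atTop 1] with x hx hx1
    push Not at hx
    obtain ⟨i, hi, hcard⟩ := hx
    rw [mem_range] at hi
    obtain ⟨h, hh⟩ : ∃ h : ℕ, h = ⌊a * Real.log x ^ 2⌋₊ := ⟨_, rfl⟩
    rw [← hh] at hi hcard ⊢
    have h1 : i * h ≤ ⌊(x : ℝ) ^ ρ⌋₊ / h * h := Nat.mul_le_mul_right _ hi.le
    have h2 := Nat.div_mul_le_self ⌊(x : ℝ) ^ ρ⌋₊ h
    have h3 : ((i * h : ℕ) : ℝ) ≤ (x : ℝ) ^ ρ :=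
      (Nat.cast_le.2 (h1.trans h2)).trans (Nat.floor_le (by positivity))
    have h4 : (x : ℝ) ^ ρ ≤ x := by
      have hx1' : (1 : ℝ) ≤ x := by exact_mod_cast hx1
      calc (x : ℝ) ^ ρ ≤ (x : ℝ) ^ (1 : ℝ) := Real.rpow_le_rpow_of_exponent_le hx1' hρ.le
        _ = x := Real.rpow_one _
    have h5 : i * h ≤ x := by
      have : ((i * h : ℕ) : ℝ) ≤ x := h3.trans h4
      exact_mod_cast this
    refine ⟨x + i * h, by omega, ?_, by omega, hcard⟩
    push_cast at h3 ⊢
    linarith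
  · have htl2 := hl2.eventually_ge_atTop (1 / a)
    filter_upwards [hF, eventually_ge_atTop 3, ev_pow (4 * a) (ρ - κ) (by linarith), ev_pow (2 + 2 * a) ρ hρ0,
      htl2] with x hxF hx3 hxp hxp2 hx1
    have hlog := one_lt_log hx3
    have hx0 : (0 : ℝ) < x := by
      have : 0 < x := by omega
      exact_mod_cast this
    have hx1' : (1 : ℝ) ≤ x := by
      have : 1 ≤ x := by omega
      exact_mod_cast this
    obtain ⟨h, hh⟩ : ∃ h : ℕ, h = ⌊a * Real.log x ^ 2⌋₊ := ⟨_, rfl⟩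
    rw [← hh] at hxF ⊢
    have hh1 : 1 ≤ h := by
      rw [hh]
      apply Nat.le_floor
      rw [div_le_iff₀ ha0] at hx1
      push_cast
      linarith
    have hhle : (h : ℝ) ≤ a * Real.log x ^ 2 := by rw [hh]; exact Nat.floor_le (by positivity)
    obtain ⟨q, hqd⟩ : ∃ q : ℝ, q = (x : ℝ) ^ (-κ) := ⟨_, rfl⟩
    have hq0 : 0 < q := by rw [hqd]; positivity
    rw [← hqd] at hxF
    obtain ⟨N, hN⟩ : ∃ N : ℕ, N = ⌊(x : ℝ) ^ ρ⌋₊ / h := ⟨_, rfl⟩
    rw [← hN]
    have hxρ : (x : ℝ) ^ ρ ≤ x := by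
      calc (x : ℝ) ^ ρ ≤ (x : ℝ) ^ (1 : ℝ) := Real.rpow_le_rpow_of_exponent_le hx1' hρ.le
        _ = x := Real.rpow_one _
    have hfx : ⌊(x : ℝ) ^ ρ⌋₊ ≤ x := by
      have : ((⌊(x : ℝ) ^ ρ⌋₊ : ℕ) : ℝ) ≤ x := (Nat.floor_le (by positivity)).trans hxρ
      exact_mod_cast this
    have hNh : N * h ≤ x := by
      rw [hN]
      exact (Nat.div_mul_le_self _ h).trans hfx
    have hW3 : ∀ i ∈ range N, ∀ n ∈ Finset.Ioc (x + i * h) (x + i * h + h), 3 ≤ n := by
      intro i _ n hn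
      rw [Finset.mem_Ioc] at hn
      omega
    have hd : ∀ i ∈ range N, ∀ j ∈ range N, i ≠ j →
        Disjoint (Finset.Ioc (x + i * h) (x + i * h + h)) (Finset.Ioc (x + j * h) (x + j * h + h)) := by
      intro i _ j _ hij
      rw [Finset.disjoint_left]
      intro n hn1 hn2
      rw [Finset.mem_Ioc] at hn1 hn2
      rcases lt_or_gt_of_ne hij with h1 | h1
      · have h2 : (i + 1) * h ≤ j * h := Nat.mul_le_mul_right _ h1
        have h3 : (i + 1) * h = i * h + h := by ring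
        omega
      · have h2 : (j + 1) * h ≤ i * h := Nat.mul_le_mul_right _ h1
        have h3 : (j + 1) * h = j * h + h := by ring
        omega
    have hmain := Pool.Agent.Q166.Sq.none_le hA (range N) (fun i => Finset.Ioc (x + i * h) (x + i * h + h)) hW3 hd
      (fun _ => F x) (p := q) (by
        intro i hi
        have hi' := mem_range.1 hi
        have h2 : (i + 1) * h ≤ N * h := Nat.mul_le_mul_right _ hi'
        have h3 : (i + 1) * h = i * h + h := by ring
        refine hxF _ ?_ ?_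
        · rw [Nat.card_Ioc]
          omega
        · intro n hn
          rw [Finset.mem_Ioc] at hn
          constructor
          · have : x ≤ n := by omega
            exact_mod_cast this
          · have : n ≤ 2 * x := by omega
            exact_mod_cast this)
    refine hmain.trans ?_
    rw [card_range, Real.rpow_def_of_pos hx0]
    apply Real.exp_le_exp.2
    -- `2 log x ≤ N q`
    have h2 : (x : ℝ) ^ ρ / 2 ≤ N * h := by
      have h3 : ⌊(x : ℝ) ^ ρ⌋₊ < (N + 1) * h := by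
        rw [hN]
        have h4 := Nat.lt_div_mul_add (a := ⌊(x : ℝ) ^ ρ⌋₊) (b := h) (by omega)
        calc ⌊(x : ℝ) ^ ρ⌋₊ < ⌊(x : ℝ) ^ ρ⌋₊ / h * h + h := h4
          _ = (⌊(x : ℝ) ^ ρ⌋₊ / h + 1) * h := by ring
      have h4 : (⌊(x : ℝ) ^ ρ⌋₊ : ℝ) < (N + 1) * h := by exact_mod_cast h3
      have h5 := Nat.lt_floor_add_one ((x : ℝ) ^ ρ)
      have h6 : 2 * (1 + (h : ℝ)) ≤ (x : ℝ) ^ ρ := by
        refine le_trans ?_ hxp2
        have e1 : Real.log (x : ℝ) ^ 2 ≤ Real.log (x : ℝ) ^ 3 := pow_le_pow_right₀ hlog.le (by norm_num)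
        have e2 : 1 ≤ Real.log (x : ℝ) ^ 3 := one_le_pow₀ hlog.le
        have e3 : a * Real.log (x : ℝ) ^ 2 ≤ a * Real.log (x : ℝ) ^ 3 := mul_le_mul_of_nonneg_left e1 ha0.le
        linarith
      linarith
    have h3 : (x : ℝ) ^ (ρ - κ) / 2 ≤ N * q * h := by
      have h4 : (x : ℝ) ^ (ρ - κ) = (x : ℝ) ^ ρ * q := by
        rw [hqd, ← Real.rpow_add hx0]
        congr 1
      rw [h4]
      have := mul_le_mul_of_nonneg_right h2 hq0.le
      linarith
    have h4 : 2 * Real.log x * h ≤ N * q * h := by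
      calc 2 * Real.log x * h ≤ 2 * Real.log x * (a * Real.log x ^ 2) :=
            mul_le_mul_of_nonneg_left hhle (by linarith)
        _ = (4 * a * Real.log x ^ 3) / 2 := by ring
        _ ≤ (x : ℝ) ^ (ρ - κ) / 2 := by linarith
        _ ≤ _ := h3
    have hh0 : (0 : ℝ) < h := by exact_mod_cast hh1
    have h5 := le_of_mul_le_mul_right h4 hh0
    linarith

/-- **Windows with many elements** in short intervals. -/
theorem hits_QM (hA : IsCramer μ A) {k c ρ : ℝ} (hk : 0 < k) (hkc : k < c) (hr : rate k c < ρ) (hρ : ρ < 1) :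
    ∀ᵐ ω ∂μ, ∀ᶠ a : ℕ in atTop, ∃ m : ℕ, a ≤ m ∧ (m : ℝ) ≤ a + (a : ℝ) ^ ρ ∧ QM (A ω) k c m := by
  have hc0 : 0 < c := by linarith
  have h1 := (rate_cont_c hk hc0).eventually_lt_const hr
  obtain ⟨c', hc', hc'1⟩ : ∃ c', c < c' ∧ rate k c' < ρ := by
    rw [Metric.eventually_nhds_iff] at h1
    obtain ⟨e, he, h2⟩ := h1
    refine ⟨c + e / 2, by linarith, h2 ?_⟩
    rw [Real.dist_eq]
    have : c + e / 2 - c = e / 2 := by ring
    rw [this, abs_of_pos (by linarith)]
    linarith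
  have hc'0 : 0 < c' := by linarith
  have hr0 := rate_pos hk hc'0 (by linarith : k < c').ne
  obtain ⟨κ, hκ1, hκ2⟩ := exists_between hc'1
  have hT := ((tendsto_log_mul (show (0 : ℝ) < 2 by norm_num)).const_mul c).eventually_lt_const
    (show c * 1 < (c + c') / 2 by linarith)
  have hW := window_hit (μ := μ) hA (a := k) hk (show 0 < κ by linarith) hκ2 hρ
    (fun x T => ⌊c' * Real.log x⌋₊ ≤ T.card) (by
      filter_upwards [q_low hc'0 hk hκ1, eventually_ge_atTop 3] with x hx hx3 W hW1 hW2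
      have hx0 : (0 : ℝ) < x := by
        have : 0 < x := by omega
        exact_mod_cast this
      have h4 := point_bound_ge (W := W) (y := x) (z := 2 * x) (one_lt_log hx3) hx0 hW2 ⌊c' * Real.log x⌋₊
      rw [hW1] at h4
      exact hx.trans h4)
  filter_upwards [hW] with ω hω
  filter_upwards [hω, hT, hl.eventually_ge_atTop (2 / (c' - c)), eventually_ge_atTop 3] with x hx hx2 hx3 hx4
  obtain ⟨y, hy1, hy2, hy3, hy4⟩ := hx
  refine ⟨y, hy1, hy2, ?_⟩
  rw [QM_iff hk.le]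
  have hlog := one_lt_log hx4
  have hx0 : (0 : ℝ) < x := by
    have : 0 < x := by omega
    exact_mod_cast this
  have hlxy : Real.log x ≤ Real.log y := Real.log_le_log hx0 (by exact_mod_cast hy1)
  have h4 : (tr A (Finset.Ioc y (y + ⌊k * Real.log x ^ 2⌋₊)) ω).card ≤
      (tr A (Finset.Ioc y (y + ⌊k * Real.log y ^ 2⌋₊)) ω).card := by
    apply Pool.Agent.Q120.EX.card_mono
    apply Nat.floor_le_floor
    apply mul_le_mul_of_nonneg_left _ hk.le
    exact pow_le_pow_left₀ (by linarith) hlxy 2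
  have h5 : (⌊c' * Real.log x⌋₊ : ℝ) ≤ (tr A (Finset.Ioc y (y + ⌊k * Real.log y ^ 2⌋₊)) ω).card := by
    exact_mod_cast (le_trans hy4 h4)
  have h6 : c' * Real.log x < ⌊c' * Real.log x⌋₊ + 1 := Nat.lt_floor_add_one _
  have h7 : Real.log y ≤ Real.log (2 * x) := by
    apply Real.log_le_log
    · have : 0 < y := by omega
      exact_mod_cast this
    · exact_mod_cast hy3
  have h8 : c * Real.log (2 * x) ≤ (c + c') / 2 * Real.log x := by
    rw [← mul_div_assoc, div_lt_iff₀ (by linarith)] at hx2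
    exact hx2.le
  have h9 : 2 ≤ (c' - c) * Real.log x := by
    rw [div_le_iff₀ (by linarith)] at hx3
    linarith
  have h10 : c * Real.log y ≤ c * Real.log (2 * x) := mul_le_mul_of_nonneg_left h7 hc0.le
  linarith

/-- **Windows with few elements** in short intervals. -/
theorem hits_QF (hA : IsCramer μ A) {k c ρ : ℝ} (hc : 0 < c) (hck : c < k) (hr : rate k c < ρ) (hρ : ρ < 1) :
    ∀ᵐ ω ∂μ, ∀ᶠ a : ℕ in atTop, ∃ m : ℕ, a ≤ m ∧ (m : ℝ) ≤ a + (a : ℝ) ^ ρ ∧ QF (A ω) k c m := by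
  have hk0 : 0 < k := by linarith
  have h1 := (rate_cont_a hk0 hc.le).eventually_lt_const hr
  obtain ⟨k', hk', hk'1⟩ : ∃ k', k < k' ∧ rate k' c < ρ := by
    rw [Metric.eventually_nhds_iff] at h1
    obtain ⟨e, he, h2⟩ := h1
    refine ⟨k + e / 2, by linarith, h2 ?_⟩
    rw [Real.dist_eq]
    have : k + e / 2 - k = e / 2 := by ring
    rw [this, abs_of_pos (by linarith)]
    linarith
  have hk'0 : 0 < k' := by linarith
  have hr0 := rate_pos hk'0 hc (by linarith : c < k').ne'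
  obtain ⟨κ, hκ1, hκ2⟩ := exists_between hk'1
  have hT := (((tendsto_log_mul (show (0 : ℝ) < 2 by norm_num)).pow 2).const_mul k).eventually_lt_const
    (show k * 1 ^ 2 < k' by rw [one_pow, mul_one]; exact hk')
  have hW := window_hit (μ := μ) hA (a := k') hk'0 (show 0 < κ by linarith) hκ2 hρ
    (fun x T => T.card ≤ ⌊c * Real.log x⌋₊) (by
      filter_upwards [q_low hc hk'0 hκ1, eventually_ge_atTop 3] with x hx hx3 W hW1 hW2
      have hx0 : (0 : ℝ) < x := by
        have : 0 < x := by omega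
        exact_mod_cast this
      have h4 := point_bound (W := W) (y := x) (z := 2 * x) (one_lt_log hx3) hx0 hW2 ⌊c * Real.log x⌋₊
      rw [hW1] at h4
      exact hx.trans h4)
  filter_upwards [hW] with ω hω
  filter_upwards [hω, hT, eventually_ge_atTop 3] with x hx hx2 hx4
  obtain ⟨y, hy1, hy2, hy3, hy4⟩ := hx
  refine ⟨y, hy1, hy2, ?_⟩
  rw [QF_iff hk0.le]
  have hlog := one_lt_log hx4
  have hx0 : (0 : ℝ) < x := by
    have : 0 < x := by omega
    exact_mod_cast this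
  have hlxy : Real.log x ≤ Real.log y := Real.log_le_log hx0 (by exact_mod_cast hy1)
  have h7 : Real.log y ≤ Real.log (2 * x) := by
    apply Real.log_le_log
    · have : 0 < y := by omega
      exact_mod_cast this
    · exact_mod_cast hy3
  have h8 : k * Real.log (2 * x) ^ 2 ≤ k' * Real.log x ^ 2 := by
    rw [div_pow, ← mul_div_assoc, div_lt_iff₀ (by positivity)] at hx2
    exact hx2.le
  have h4 : (tr A (Finset.Ioc y (y + ⌊k * Real.log y ^ 2⌋₊)) ω).card ≤
      (tr A (Finset.Ioc y (y + ⌊k' * Real.log x ^ 2⌋₊)) ω).card := by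
    apply Pool.Agent.Q120.EX.card_mono
    apply Nat.floor_le_floor
    refine le_trans ?_ h8
    apply mul_le_mul_of_nonneg_left _ hk0.le
    exact pow_le_pow_left₀ (by linarith) h7 2
  have h5 : ((tr A (Finset.Ioc y (y + ⌊k * Real.log y ^ 2⌋₊)) ω).card : ℝ) ≤ ⌊c * Real.log x⌋₊ := by
    exact_mod_cast (h4.trans hy4)
  have h6 : (⌊c * Real.log x⌋₊ : ℝ) ≤ c * Real.log x := Nat.floor_le (mul_nonneg hc.le (by linarith))
  have h9 : c * Real.log x ≤ c * Real.log y := mul_le_mul_of_nonneg_left hlxy hc.le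
  linarith

end Pool.Agent.Q166.GC
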