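import Pool.Agent.Q166.GC.D

/-!
# Cramér's model: one null set for the windows above the powers of all real bases
-/

set_option autoImplicit false

namespace Pool.Agent.Q166.GC

open Finset MeasureTheory Filter Topology Pool.Agent.Q120.ET Pool.Agent.Q120.MF Pool.Agent.Q120.AD
  Pool.Agent.Q120.EX Pool.Agent.Q166.EB
open scoped ENNReal NNReal

/-- the properties of almost every set, with rational parameters -/
structure Good (S : Set ℕ) : Prop where
  top : ∀ k c : ℚ, (0 : ℝ) < k → (k : ℝ) < c → 1 < rate k c → ∀ᶠ m : ℕ in atTop, ¬ SM S k c m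
  bot : ∀ k c : ℚ, (0 : ℝ) < c → (c : ℝ) < k → 1 < rate k c → ∀ᶠ m : ℕ in atTop, ¬ QF S k c m
  ctop : ∀ k c U V δ : ℚ, (0 : ℝ) < k → (k : ℝ) < c → (0 : ℝ) < U → (U : ℝ) < V → (0 : ℝ) < δ →
    ∀ᶠ n : ℕ in atTop, ((stq (fun m => SM S k c m) U V n).card : ℝ) < Real.exp (n * ((V : ℝ) - U * rate k c + δ))
  cbot : ∀ k c U V δ : ℚ, (0 : ℝ) < c → (c : ℝ) < k → (0 : ℝ) < U → (U : ℝ) < V → (0 : ℝ) < δ →
    ∀ᶠ n : ℕ in atTop, ((stq (fun m => QF S k c m) U V n).card : ℝ) < Real.exp (n * ((V : ℝ) - U * rate k c + δ))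
  htop : ∀ k c ρ : ℚ, (0 : ℝ) < k → (k : ℝ) < c → rate k c < ρ → (ρ : ℝ) < 1 →
    ∀ᶠ a : ℕ in atTop, ∃ m : ℕ, a ≤ m ∧ (m : ℝ) ≤ a + (a : ℝ) ^ (ρ : ℝ) ∧ QM S k c m
  hbot : ∀ k c ρ : ℚ, (0 : ℝ) < c → (c : ℝ) < k → rate k c < ρ → (ρ : ℝ) < 1 →
    ∀ᶠ a : ℕ in atTop, ∃ m : ℕ, a ≤ m ∧ (m : ℝ) ≤ a + (a : ℝ) ^ (ρ : ℝ) ∧ QF S k c m

section model

variable {Ω : Type*} [MeasurableSpace Ω] {μ : Measure Ω} [IsProbabilityMeasure μ] {A : Ω → Set ℕ}

omit [IsProbabilityMeasure μ] in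
theorem measurable_SM (hA : IsCramer μ A) {k c : ℝ} (hk : 0 ≤ k) (m : ℕ) : MeasurableSet {ω | SM (A ω) k c m} := by
  have h := measurable_tr hA (Finset.Ioc m (m + ⌊k * Real.log (m : ℝ) ^ 2⌋₊)) (fun T => c * Real.log m < (T.card : ℝ))
  convert h using 1
  ext ω
  exact SM_iff hk m ω

omit [IsProbabilityMeasure μ] in
theorem measurable_QF (hA : IsCramer μ A) {k c : ℝ} (hk : 0 ≤ k) (m : ℕ) : MeasurableSet {ω | QF (A ω) k c m} := by
  have h := measurable_tr hA (Finset.Ioc m (m + ⌊k * Real.log (m : ℝ) ^ 2⌋₊)) (fun T => (T.card : ℝ) ≤ c * Real.log m)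
  convert h using 1
  ext ω
  exact QF_iff hk m ω

theorem ae_good (hA : IsCramer μ A) : ∀ᵐ ω ∂μ, Good (A ω) := by
  have hsum : ∀ κ : ℝ, 1 < κ → Summable fun m : ℕ => (m : ℝ) ^ (-κ) := fun κ h =>
    Real.summable_nat_rpow.2 (by linarith)
  have h1 : ∀ᵐ ω ∂μ, ∀ k c : ℚ, (0 : ℝ) < k → (k : ℝ) < c → 1 < rate k c → ∀ᶠ m : ℕ in atTop,
      ¬ SM (A ω) k c m := by
    simp only [ae_all_iff]
    intro k c hk hkc hr
    obtain ⟨κ, hκ1, hκ2⟩ := exists_between hr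
    exact ae_eventually_notMem (tsum_ne_top_of_real (hsum κ hκ1) (prob_SM hA hk hkc hκ2))
  have h2 : ∀ᵐ ω ∂μ, ∀ k c : ℚ, (0 : ℝ) < c → (c : ℝ) < k → 1 < rate k c → ∀ᶠ m : ℕ in atTop,
      ¬ QF (A ω) k c m := by
    simp only [ae_all_iff]
    intro k c hc hck hr
    obtain ⟨κ, hκ1, hκ2⟩ := exists_between hr
    exact ae_eventually_notMem (tsum_ne_top_of_real (hsum κ hκ1) (prob_QF hA hc hck hκ2))
  have h3 : ∀ᵐ ω ∂μ, ∀ k c U V δ : ℚ, (0 : ℝ) < k → (k : ℝ) < c → (0 : ℝ) < U → (U : ℝ) < V → (0 : ℝ) < δ →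
      ∀ᶠ n : ℕ in atTop,
        ((stq (fun m => SM (A ω) k c m) U V n).card : ℝ) < Real.exp (n * ((V : ℝ) - U * rate k c + δ)) := by
    simp only [ae_all_iff]
    intro k c U V δ hk hkc hU hUV hδ
    exact few_stq (E := fun m => {ω | SM (A ω) k c m}) (fun m => measurable_SM hA hk.le m)
      (rate_pos hk (by linarith) hkc.ne) (fun κ _ hκ2 => prob_SM hA hk hkc hκ2) hU hUV hδ
  have h4 : ∀ᵐ ω ∂μ, ∀ k c U V δ : ℚ, (0 : ℝ) < c → (c : ℝ) < k → (0 : ℝ) < U → (U : ℝ) < V → (0 : ℝ) < δ →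
      ∀ᶠ n : ℕ in atTop,
        ((stq (fun m => QF (A ω) k c m) U V n).card : ℝ) < Real.exp (n * ((V : ℝ) - U * rate k c + δ)) := by
    simp only [ae_all_iff]
    intro k c U V δ hc hck hU hUV hδ
    exact few_stq (E := fun m => {ω | QF (A ω) k c m}) (fun m => measurable_QF hA (by linarith) m)
      (rate_pos (by linarith) hc hck.ne') (fun κ _ hκ2 => prob_QF hA hc hck hκ2) hU hUV hδ
  have h5 : ∀ᵐ ω ∂μ, ∀ k c ρ : ℚ, (0 : ℝ) < k → (k : ℝ) < c → rate k c < ρ → (ρ : ℝ) < 1 →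
      ∀ᶠ a : ℕ in atTop, ∃ m : ℕ, a ≤ m ∧ (m : ℝ) ≤ a + (a : ℝ) ^ (ρ : ℝ) ∧ QM (A ω) k c m := by
    simp only [ae_all_iff]
    intro k c ρ hk hkc hr hρ
    exact hits_QM hA hk hkc hr hρ
  have h6 : ∀ᵐ ω ∂μ, ∀ k c ρ : ℚ, (0 : ℝ) < c → (c : ℝ) < k → rate k c < ρ → (ρ : ℝ) < 1 →
      ∀ᶠ a : ℕ in atTop, ∃ m : ℕ, a ≤ m ∧ (m : ℝ) ≤ a + (a : ℝ) ^ (ρ : ℝ) ∧ QF (A ω) k c m := by
    simp only [ae_all_iff]
    intro k c ρ hc hck hr hρ
    exact hits_QF hA hc hck hr hρ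
  filter_upwards [h1, h2, h3, h4, h5, h6] with ω e1 e2 e3 e4 e5 e6
  exact ⟨e1, e2, e3, e4, e5, e6⟩

end model

/-! ### Real parameters -/

theorem rate_near {k c : ℝ} (hk : 0 < k) (hc : 0 < c) {e : ℝ} (he : 0 < e) :
    ∃ r : ℝ, 0 < r ∧ ∀ k' c' : ℝ, |k' - k| < r → |c' - c| < r → |rate k' c' - rate k c| < e := by
  have h1 : ContinuousAt (fun p : ℝ × ℝ => rate p.1 p.2) (k, c) := by
    unfold rate
    have h2 : (k, c).2 ≠ 0 := hc.ne'
    have h3 : (k, c).1 / (k, c).2 ≠ 0 := by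
      simp only
      positivity
    fun_prop (disch := assumption)
  rw [Metric.continuousAt_iff] at h1
  obtain ⟨r, hr, h⟩ := h1 e he
  refine ⟨r, hr, fun k' c' h3 h4 => ?_⟩
  have := h (x := (k', c')) (by
    rw [Prod.dist_eq, max_lt_iff, Real.dist_eq, Real.dist_eq]
    exact ⟨h3, h4⟩)
  rw [Real.dist_eq] at this
  exact this

/-- rational parameters above and below -/
theorem exists_ud {k c e : ℝ} (hk : 0 < k) (hc : 0 < c) (he : 0 < e) {d : ℝ} (hd : 0 < d) :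
    ∃ k' c' : ℚ, k < k' ∧ (k' : ℝ) < k + d ∧ (c' : ℝ) < c ∧ c - d < c' ∧ 0 < c' ∧
      |rate k' c' - rate k c| < e := by
  obtain ⟨r, hr, h⟩ := rate_near hk hc he
  obtain ⟨k', h1, h2⟩ := exists_rat_btwn (show k < k + min r d by
    have : 0 < min r d := lt_min hr hd
    linarith)
  obtain ⟨c', h3, h4⟩ := exists_rat_btwn (show max (c - min r d) 0 < c from max_lt (by
    have : 0 < min r d := lt_min hr hd
    linarith) hc)
  have h5 : min r d ≤ r := min_le_left _ _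
  have h6 : min r d ≤ d := min_le_right _ _
  rw [max_lt_iff] at h3
  refine ⟨k', c', h1, by linarith, h4, by linarith [h3.1], by exact_mod_cast h3.2, h _ _ ?_ ?_⟩
  · rw [abs_lt]
    constructor <;> linarith
  · rw [abs_lt]
    constructor <;> linarith [h3.1]

theorem exists_du {k c e : ℝ} (hk : 0 < k) (hc : 0 < c) (he : 0 < e) {d : ℝ} (hd : 0 < d) :
    ∃ k' c' : ℚ, (k' : ℝ) < k ∧ k - d < k' ∧ 0 < k' ∧ c < c' ∧ (c' : ℝ) < c + d ∧
      |rate k' c' - rate k c| < e := by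
  obtain ⟨r, hr, h⟩ := rate_near hk hc he
  obtain ⟨c', h1, h2⟩ := exists_rat_btwn (show c < c + min r d by
    have : 0 < min r d := lt_min hr hd
    linarith)
  obtain ⟨k', h3, h4⟩ := exists_rat_btwn (show max (k - min r d) 0 < k from max_lt (by
    have : 0 < min r d := lt_min hr hd
    linarith) hk)
  have h5 : min r d ≤ r := min_le_left _ _
  have h6 : min r d ≤ d := min_le_right _ _
  rw [max_lt_iff] at h3
  refine ⟨k', c', h4, by linarith [h3.1], by exact_mod_cast h3.2, h1, by linarith, h _ _ ?_ ?_⟩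
  · rw [abs_lt]
    constructor <;> linarith [h3.1]
  · rw [abs_lt]
    constructor <;> linarith

variable {S : Set ℕ}

theorem ev_near {B : ℕ → Prop} (h : ∀ᶠ m : ℕ in atTop, ¬ B m) :
    ∀ᶠ x : ℝ in atTop, ¬ ∃ m : ℕ, B m ∧ |(m : ℝ) - x| ≤ 1 := by
  obtain ⟨M, hM⟩ := eventually_atTop.1 h
  filter_upwards [eventually_ge_atTop ((M : ℝ) + 1)] with x hx
  rintro ⟨m, h1, h2⟩
  have h3 := (abs_le.1 h2).1
  have h4 : (M : ℝ) ≤ m := by linarith
  exact hM m (by exact_mod_cast h4) h1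

/-- **no window has too many elements** -/
theorem Good.evTop (hS : Good S) {k c : ℝ} (hk : 0 < k) (hkc : k < c) (h : 1 < rate k c) :
    ∀ᶠ x : ℝ in atTop, ¬ QM S k c x := by
  obtain ⟨k', c', h1, h2, h3, h4, h5, h6⟩ := exists_ud hk (show 0 < c by linarith)
    (show 0 < rate k c - 1 by linarith) (show 0 < (c - k) / 2 by linarith)
  have h7 := (abs_lt.1 h6).1
  filter_upwards [ev_near (hS.top k' c' (by linarith) (by linarith) (by linarith)), upM (S := S) hk h1 h3] with x e1 e2 e3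
  exact e1 (e2 e3)

/-- **no window has too few elements** -/
theorem Good.evBot (hS : Good S) {k c : ℝ} (hc : 0 < c) (hck : c < k) (h : 1 < rate k c) :
    ∀ᶠ x : ℝ in atTop, ¬ QF S k c x := by
  obtain ⟨k', c', h1, h2, h3, h4, h5, h6⟩ := exists_du (show 0 < k by linarith) hc
    (show 0 < rate k c - 1 by linarith) (show 0 < (k - c) / 2 by linarith)
  have h7 := (abs_lt.1 h6).1
  have h3' : (0 : ℝ) < k' := by exact_mod_cast h3
  filter_upwards [ev_near (hS.bot k' c' (by linarith) (by linarith) (by linarith)),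
    upF (S := S) h3' h1 hc.le h4.le] with x e1 e2 e3
  exact e1 (e2 e3)

theorem ofReal_le_add {a : ℝ} {x : ℝ≥0∞} (h : ∀ e : ℝ, 0 < e → x ≤ ENNReal.ofReal (a + e)) :
    x ≤ ENNReal.ofReal a := by
  apply ENNReal.le_of_forall_pos_le_add
  intro ε hε _
  have h1 := h ε (by exact_mod_cast hε)
  refine h1.trans (ENNReal.ofReal_add_le.trans ?_)
  rw [ENNReal.ofReal_coe_nnreal]

theorem Good.dimTop_le (hS : Good S) {k c : ℝ} (hk : 0 < k) (hkc : k < c) :
    dimH (YQ (QM S k c)) ≤ ENNReal.ofReal (1 - rate k c) := by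
  refine ofReal_le_add fun e he => ?_
  obtain ⟨k', c', h1, h2, h3, h4, h5, h6⟩ := exists_ud hk (show 0 < c by linarith) he
    (show 0 < (c - k) / 2 by linarith)
  have h7 := (abs_lt.1 h6).1
  refine (dimH_YQ_le_of (B := fun m => SM S k' c' m) (r := rate k' c') (upM hk h1 h3) ?_).trans
    (ENNReal.ofReal_le_ofReal (by linarith))
  intro U V δ hU hUV hδ
  exact hS.ctop k' c' U V δ (by linarith) (by linarith) hU hUV hδ

theorem Good.dimBot_le (hS : Good S) {k c : ℝ} (hc : 0 < c) (hck : c < k) :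
    dimH (YQ (QF S k c)) ≤ ENNReal.ofReal (1 - rate k c) := by
  refine ofReal_le_add fun e he => ?_
  obtain ⟨k', c', h1, h2, h3, h4, h5, h6⟩ := exists_du (show 0 < k by linarith) hc he
    (show 0 < (k - c) / 2 by linarith)
  have h7 := (abs_lt.1 h6).1
  have h3' : (0 : ℝ) < k' := by exact_mod_cast h3
  refine (dimH_YQ_le_of (B := fun m => QF S k' c' m) (r := rate k' c') (upF h3' h1 hc.le h4.le) ?_).trans
    (ENNReal.ofReal_le_ofReal (by linarith))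
  intro U V δ hU hUV hδ
  exact hS.cbot k' c' U V δ (by linarith) (by linarith) hU hUV hδ

theorem Good.hitsTop (hS : Good S) {k c ρ : ℝ} (hk : 0 < k) (hkc : k < c) (hr : rate k c < ρ) (hρ : ρ < 1) :
    Hits (QM S k c) ρ := by
  obtain ⟨k', c', h1, h2, h3, h4, h5, h6⟩ := exists_du hk (show 0 < c by linarith)
    (show 0 < ρ - rate k c by linarith) (show (0 : ℝ) < 1 by norm_num)
  have h7 := (abs_lt.1 h6).2
  have h3' : (0 : ℝ) < k' := by exact_mod_cast h3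
  obtain ⟨ρ', hρ1, hρ2⟩ := exists_rat_btwn (show rate k' c' < ρ by linarith)
  have hr0 := rate_pos (a := k') (c := c') h3' (by linarith) (by linarith : (k' : ℝ) < c').ne
  exact hitsM h3' h1 (by linarith) h4.le (by linarith) hρ2.le hρ
    (hS.htop k' c' ρ' h3' (by linarith) hρ1 (by linarith))

theorem Good.hitsBot (hS : Good S) {k c ρ : ℝ} (hc : 0 < c) (hck : c < k) (hr : rate k c < ρ) (hρ : ρ < 1) :
    Hits (QF S k c) ρ := by
  obtain ⟨k', c', h1, h2, h3, h4, h5, h6⟩ := exists_ud (show 0 < k by linarith) hc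
    (show 0 < ρ - rate k c by linarith) (show (0 : ℝ) < 1 by norm_num)
  have h7 := (abs_lt.1 h6).2
  have h5' : (0 : ℝ) < c' := by exact_mod_cast h5
  obtain ⟨ρ', hρ1, hρ2⟩ := exists_rat_btwn (show rate k' c' < ρ by linarith)
  exact hitsF (by linarith) h1 h5'.le h3.le hρ2.le (hS.hbot k' c' ρ' h5' (by linarith) hρ1 (by linarith))

/-- the dimension from hits at all larger exponents -/
theorem le_dimH_of_hits {Q : ℝ → Prop} {r u v : ℝ} (hr0 : 0 < r) (hv : 0 < v) (huv : u < v)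
    (h : ∀ ρ, r < ρ → ρ < 1 → Hits Q ρ) : ENNReal.ofReal (1 - r) ≤ dimH (YQ Q ∩ Set.Ioo u v) := by
  rcases lt_or_ge r 1 with hr1 | hr1
  · apply ENNReal.le_of_forall_pos_le_add
    intro ε hε _
    have hε' : (0 : ℝ) < ε := by exact_mod_cast hε
    obtain ⟨ρ, hρ⟩ : ∃ ρ : ℝ, ρ = r + min (ε : ℝ) ((1 - r) / 2) := ⟨_, rfl⟩
    have h1 : 0 < min (ε : ℝ) ((1 - r) / 2) := lt_min hε' (by linarith)
    have h2 : min (ε : ℝ) ((1 - r) / 2) ≤ ε := min_le_left _ _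
    have h3 : min (ε : ℝ) ((1 - r) / 2) ≤ (1 - r) / 2 := min_le_right _ _
    have h4 := le_dimH_YQ (u := u) (v := v) (show 0 < ρ by linarith) (by linarith) hv huv
      (h ρ (by linarith) (by linarith))
    calc ENNReal.ofReal (1 - r) ≤ ENNReal.ofReal (1 - ρ + ε) := ENNReal.ofReal_le_ofReal (by linarith)
      _ ≤ ENNReal.ofReal (1 - ρ) + ENNReal.ofReal ε := ENNReal.ofReal_add_le
      _ ≤ _ := by
          rw [ENNReal.ofReal_coe_nnreal]
          exact add_le_add_left h4 _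
  · rw [ENNReal.ofReal_of_nonpos (by linarith)]
    exact bot_le

end Pool.Agent.Q166.GC
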