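import Pool.Agent.Q166.GC.E
import Pool.Agent.Q166.EB.D

/-!
# Cramér's model: the numbers of elements of the windows above the powers of all real bases
-/

set_option autoImplicit false

namespace Pool.Agent.Q166.GC

open Finset MeasureTheory Filter Topology Pool.Agent.Q120.EX
open scoped ENNReal NNReal

/-- `R_k(x)`: the number of elements of `S` in `(x, x + k (log x) ^ 2]` divided by `k log x`. -/
noncomputable def Ratio (S : Set ℕ) (k x : ℝ) : ℝ := (Cnt S x (k * Real.log x ^ 2) : ℝ) / (k * Real.log x)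

/-- `f(u) = 1 - u + u log u` -/
noncomputable def f (u : ℝ) : ℝ := 1 - u + u * Real.log u

/-- The bases `b > 1` such that `R_k(b ^ n) ≥ u` for infinitely many `n`. -/
def Hi (S : Set ℕ) (k u : ℝ) : Set ℝ := {b | 1 < b ∧ ∃ᶠ n : ℕ in atTop, u ≤ Ratio S k (b ^ n)}

/-- The bases `b > 1` such that `R_k(b ^ n) ≤ w` for infinitely many `n`. -/
def Lo (S : Set ℕ) (k w : ℝ) : Set ℝ := {b | 1 < b ∧ ∃ᶠ n : ℕ in atTop, Ratio S k (b ^ n) ≤ w}

theorem rate_eq {k u : ℝ} (hk : 0 < k) (hu : 0 < u) : rate k (u * k) = k * f u := by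
  unfold rate f
  have h1 : k / (u * k) = u⁻¹ := by field_simp
  rw [h1, Real.log_inv]
  ring

variable {S : Set ℕ}

theorem le_ratio_iff {k u x : ℝ} (hk : 0 < k) (hx : 1 < x) : u ≤ Ratio S k x ↔ QM S k (u * k) x := by
  unfold Ratio QM
  have h1 : 0 < k * Real.log x := mul_pos hk (Real.log_pos hx)
  rw [le_div_iff₀ h1, mul_assoc]

theorem ratio_le_iff {k w x : ℝ} (hk : 0 < k) (hx : 1 < x) : Ratio S k x ≤ w ↔ QF S k (w * k) x := by
  unfold Ratio QF
  have h1 : 0 < k * Real.log x := mul_pos hk (Real.log_pos hx)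
  rw [div_le_iff₀ h1, mul_assoc]

theorem QM_mono {k k' c c' x : ℝ} (hx : 1 < x) (hk : k' ≤ k) (hc : c ≤ c') (h : QM S k' c' x) : QM S k c x := by
  unfold QM at h ⊢
  have hl : 0 < Real.log x := Real.log_pos hx
  have h1 : Cnt S x (k' * Real.log x ^ 2) ≤ Cnt S x (k * Real.log x ^ 2) :=
    Cnt_mono le_rfl (by
      have := mul_le_mul_of_nonneg_right hk (sq_nonneg (Real.log x))
      linarith)
  have h2 : (Cnt S x (k' * Real.log x ^ 2) : ℝ) ≤ Cnt S x (k * Real.log x ^ 2) := by exact_mod_cast h1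
  have h3 := mul_le_mul_of_nonneg_right hc hl.le
  linarith

theorem QF_mono {k k' c c' x : ℝ} (hx : 1 < x) (hk : k ≤ k') (hc : c' ≤ c) (h : QF S k' c' x) : QF S k c x := by
  unfold QF at h ⊢
  have hl : 0 < Real.log x := Real.log_pos hx
  have h1 : Cnt S x (k * Real.log x ^ 2) ≤ Cnt S x (k' * Real.log x ^ 2) :=
    Cnt_mono le_rfl (by
      have := mul_le_mul_of_nonneg_right hk (sq_nonneg (Real.log x))
      linarith)
  have h2 : (Cnt S x (k * Real.log x ^ 2) : ℝ) ≤ Cnt S x (k' * Real.log x ^ 2) := by exact_mod_cast h1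
  have h3 := mul_le_mul_of_nonneg_right hc hl.le
  linarith

/-- the bases whose powers have the property `P` infinitely often -/
def BQ (P : ℝ → Prop) : Set ℝ := {b | 1 < b ∧ ∃ᶠ n : ℕ in atTop, P (b ^ n)}

theorem one_lt_pow' {b : ℝ} (hb : 1 < b) {n : ℕ} (hn : 1 ≤ n) : 1 < b ^ n := one_lt_pow₀ hb (by omega)

theorem freq_congr {P Q : ℝ → Prop} (h : ∀ x, 1 < x → (P x ↔ Q x)) {b : ℝ} (hb : 1 < b) :
    (∃ᶠ n : ℕ in atTop, P (b ^ n)) ↔ ∃ᶠ n : ℕ in atTop, Q (b ^ n) := by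
  constructor
  · intro h1
    exact (h1.and_eventually (eventually_ge_atTop 1)).mono fun n hn => (h _ (one_lt_pow' hb hn.2)).1 hn.1
  · intro h1
    exact (h1.and_eventually (eventually_ge_atTop 1)).mono fun n hn => (h _ (one_lt_pow' hb hn.2)).2 hn.1

theorem mem_BQ_iff {P Q : ℝ → Prop} (h : ∀ x, 1 < x → (P x ↔ Q x)) {b : ℝ} (hb : 1 < b) :
    b ∈ BQ P ↔ Real.log b ∈ YQ Q := by
  unfold BQ YQ
  simp only [Set.mem_ofPred_eq, Pool.Agent.Q166.EB.exp_mul_log (show 0 < b by linarith)]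
  constructor
  · rintro ⟨_, h1⟩
    exact ⟨Real.log_pos hb, (freq_congr h hb).1 h1⟩
  · rintro ⟨_, h1⟩
    exact ⟨hb, (freq_congr h hb).2 h1⟩

theorem dimH_BQ {P Q : ℝ → Prop} (h : ∀ x, 1 < x → (P x ↔ Q x)) {p q : ℝ} (hq : 1 < q) :
    dimH (BQ P ∩ Set.Ioo p q) = dimH (YQ Q ∩ Set.Ioo (Real.log (max p 1)) (Real.log q)) := by
  have hm : 0 < max p 1 := lt_of_lt_of_le one_pos (le_max_right _ _)
  have h1 : BQ P ∩ Set.Ioo p q = Real.exp '' (YQ Q ∩ Set.Ioo (Real.log (max p 1)) (Real.log q)) := by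
    ext b
    constructor
    · rintro ⟨h1, h2, h3⟩
      have hb1 : 1 < b := h1.1
      refine ⟨Real.log b, ⟨(mem_BQ_iff h hb1).1 h1, ?_, ?_⟩, Real.exp_log (by linarith)⟩
      · exact Real.log_lt_log hm (max_lt h2 hb1)
      · exact Real.log_lt_log (by linarith) h3
    · rintro ⟨y, ⟨h1, h2, h3⟩, rfl⟩
      have hy0 : 0 < y := h1.1
      have hb1 : 1 < Real.exp y := by
        rw [Real.one_lt_exp_iff]
        exact hy0
      refine ⟨(mem_BQ_iff h hb1).2 (by rw [Real.log_exp]; exact h1), ?_, ?_⟩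
      · rw [Real.log_lt_iff_lt_exp hm] at h2
        exact lt_of_le_of_lt (le_max_left _ _) h2
      · rw [Real.lt_log_iff_exp_lt (by linarith)] at h3
        exact h3
  rw [h1, Pool.Agent.Q166.EB.dimH_exp_image (V := Real.log q)]
  · rintro y ⟨h1, -⟩
    exact h1.1.le
  · rintro y ⟨-, -, h3⟩
    exact h3.le

theorem log_max_lt {p q : ℝ} (hq : 1 < q) (hpq : p < q) : Real.log (max p 1) < Real.log q :=
  Real.log_lt_log (lt_of_lt_of_le one_pos (le_max_right _ _)) (max_lt hpq hq)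

/-- **The dimension for many elements.** -/
theorem Good.dimHi (hS : Good S) {k u p q : ℝ} (hk : 0 < k) (hu : 1 < u) (hq : 1 < q) (hpq : p < q) :
    dimH (Hi S k u ∩ Set.Ioo p q) = ENNReal.ofReal (1 - k * f u) := by
  have hkc : k < u * k := by nlinarith
  have hr := rate_eq hk (show 0 < u by linarith)
  have hr0 := rate_pos hk (show 0 < u * k by linarith) hkc.ne
  have h1 := dimH_BQ (P := fun x => u ≤ Ratio S k x) (Q := QM S k (u * k)) (fun x hx => le_ratio_iff hk hx)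
    (p := p) hq
  change dimH (BQ (fun x => u ≤ Ratio S k x) ∩ Set.Ioo p q) = _
  rw [h1, ← hr]
  refine le_antisymm ((dimH_mono Set.inter_subset_left).trans (hS.dimTop_le hk hkc)) ?_
  exact le_dimH_of_hits hr0 (Real.log_pos hq) (log_max_lt hq hpq) fun ρ h2 h3 => hS.hitsTop hk hkc h2 h3

/-- **The dimension for few elements.** -/
theorem Good.dimLo (hS : Good S) {k w p q : ℝ} (hk : 0 < k) (hw0 : 0 < w) (hw : w < 1) (hq : 1 < q) (hpq : p < q) :
    dimH (Lo S k w ∩ Set.Ioo p q) = ENNReal.ofReal (1 - k * f w) := by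
  have hkc : w * k < k := by nlinarith
  have hwk : 0 < w * k := by positivity
  have hr := rate_eq hk hw0
  have hr0 := rate_pos hk hwk hkc.ne'
  have h1 := dimH_BQ (P := fun x => Ratio S k x ≤ w) (Q := QF S k (w * k)) (fun x hx => ratio_le_iff hk hx)
    (p := p) hq
  change dimH (BQ (fun x => Ratio S k x ≤ w) ∩ Set.Ioo p q) = _
  rw [h1, ← hr]
  refine le_antisymm ((dimH_mono Set.inter_subset_left).trans (hS.dimBot_le hwk hkc)) ?_
  exact le_dimH_of_hits hr0 (Real.log_pos hq) (log_max_lt hq hpq) fun ρ h2 h3 => hS.hitsBot hwk hkc h2 h3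

/-- **the extreme values** -/
theorem Good.evHi (hS : Good S) {k u : ℝ} (hk : 0 < k) (hu : 1 < u) (h : 1 < k * f u) :
    ∀ᶠ x : ℝ in atTop, Ratio S k x < u := by
  have hkc : k < u * k := by nlinarith
  filter_upwards [hS.evTop hk hkc (by rw [rate_eq hk (by linarith)]; exact h), eventually_gt_atTop 1] with x hx hx1
  rw [← not_le, le_ratio_iff hk hx1]
  exact hx

theorem Good.evLo (hS : Good S) {k w : ℝ} (hk : 0 < k) (hw0 : 0 < w) (hw : w < 1) (h : 1 < k * f w) :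
    ∀ᶠ x : ℝ in atTop, w < Ratio S k x := by
  have hkc : w * k < k := by nlinarith
  filter_upwards [hS.evBot (show 0 < w * k by positivity) hkc (by rw [rate_eq hk hw0]; exact h),
    eventually_gt_atTop 1] with x hx hx1
  rw [← not_le, ratio_le_iff hk hx1]
  exact hx

/-- **Generic bases.** -/
theorem Good.generic (hS : Good S) : ∀ᶠ b : ℝ in residual ℝ, 1 < b → ∀ k : ℝ, 0 < k →
    (∀ u : ℝ, 1 < u → k * f u < 1 → b ∈ Hi S k u) ∧ (∀ w : ℝ, 0 < w → w < 1 → k * f w < 1 → b ∈ Lo S k w) := by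
  have h1 : ∀ᶠ b : ℝ in residual ℝ, ∀ p : ℚ × ℚ, (0 : ℝ) < p.1 → (p.1 : ℝ) < p.2 → rate p.1 p.2 < 1 →
      1 < b → ∃ᶠ n : ℕ in atTop, QM S p.1 p.2 (b ^ n) := by
    rw [eventually_countable_forall]
    rintro ⟨k, c⟩
    by_cases h : (0 : ℝ) < k ∧ (k : ℝ) < c ∧ rate k c < 1
    · obtain ⟨h1, h2, h3⟩ := h
      have hr0 := rate_pos h1 (show (0 : ℝ) < c by linarith) h2.ne
      obtain ⟨ρ, hρ1, hρ2⟩ := exists_between h3
      filter_upwards [generic_YQ (by linarith) hρ2 (hS.hitsTop h1 h2 hρ1 hρ2)] with b hb _ _ _ hb1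
      exact hb hb1
    · exact Eventually.of_forall fun b h1 h2 h3 => absurd ⟨h1, h2, h3⟩ h
  have h2 : ∀ᶠ b : ℝ in residual ℝ, ∀ p : ℚ × ℚ, (0 : ℝ) < p.2 → (p.2 : ℝ) < p.1 → rate p.1 p.2 < 1 →
      1 < b → ∃ᶠ n : ℕ in atTop, QF S p.1 p.2 (b ^ n) := by
    rw [eventually_countable_forall]
    rintro ⟨k, c⟩
    by_cases h : (0 : ℝ) < c ∧ (c : ℝ) < k ∧ rate k c < 1
    · obtain ⟨h1, h2, h3⟩ := h
      have hr0 := rate_pos (show (0 : ℝ) < k by linarith) h1 h2.ne'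
      obtain ⟨ρ, hρ1, hρ2⟩ := exists_between h3
      filter_upwards [generic_YQ (by linarith) hρ2 (hS.hitsBot h1 h2 hρ1 hρ2)] with b hb _ _ _ hb1
      exact hb hb1
    · exact Eventually.of_forall fun b h1 h2 h3 => absurd ⟨h1, h2, h3⟩ h
  filter_upwards [h1, h2] with b hb1 hb2 hb k hk
  constructor
  · intro u hu h
    rw [← rate_eq hk (by linarith)] at h
    obtain ⟨k', c', e1, e2, e3, e4, e5, e6⟩ := exists_du hk (show 0 < u * k by positivity)
      (show 0 < 1 - rate k (u * k) by linarith) (show (0 : ℝ) < 1 by norm_num)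
    have e7 := (abs_lt.1 e6).2
    have hkc : k < u * k := by nlinarith
    refine ⟨hb, ((hb1 (k', c') (by exact_mod_cast e3) (by simp only; linarith) (by simp only; linarith)
      hb).and_eventually (eventually_ge_atTop 1)).mono ?_⟩
    rintro n ⟨h3, h4⟩
    have h5 := one_lt_pow' hb h4
    rw [le_ratio_iff hk h5]
    exact QM_mono h5 e1.le e4.le h3
  · intro w hw0 hw h
    rw [← rate_eq hk hw0] at h
    obtain ⟨k', c', e1, e2, e3, e4, e5, e6⟩ := exists_ud hk (show 0 < w * k by positivity)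
      (show 0 < 1 - rate k (w * k) by linarith) (show (0 : ℝ) < 1 by norm_num)
    have e7 := (abs_lt.1 e6).2
    have hkc : w * k < k := by nlinarith
    refine ⟨hb, ((hb2 (k', c') (by exact_mod_cast e5) (by simp only; linarith) (by simp only; linarith)
      hb).and_eventually (eventually_ge_atTop 1)).mono ?_⟩
    rintro n ⟨h3, h4⟩
    have h5 := one_lt_pow' hb h4
    rw [ratio_le_iff hk h5]
    exact QF_mono h5 e1.le e3.le h3

/-- sets of bases of dimension less than one are null -/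
theorem null_BQ {Q : ℝ → Prop} (h : dimH (YQ Q) < 1) : volume (BQ Q) = 0 := by
  have h1 : BQ Q ⊆ ⋃ N : ℕ, (BQ Q ∩ Set.Ioo 0 ((N : ℝ) + 2)) := by
    intro b hb
    rw [Set.mem_iUnion]
    refine ⟨⌈b⌉₊, hb, by linarith [hb.1], ?_⟩
    have := Nat.le_ceil b
    linarith
  refine measure_mono_null h1 (measure_iUnion_null fun N => ?_)
  have hN : (1 : ℝ) < (N : ℝ) + 2 := by
    have : (0 : ℝ) ≤ N := Nat.cast_nonneg N
    linarith
  have h2 := dimH_BQ (P := Q) (Q := Q) (fun _ _ => Iff.rfl) (p := 0) hN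
  have h3 : dimH (BQ Q ∩ Set.Ioo 0 ((N : ℝ) + 2)) < ((1 : ℝ≥0) : ℝ≥0∞) := by
    rw [h2]
    exact lt_of_le_of_lt (dimH_mono Set.inter_subset_left) h
  have h4 := hausdorffMeasure_of_dimH_lt h3
  rw [← hausdorffMeasure_real]
  simpa using h4

/-- **Almost every base.** -/
theorem Good.ae_tendsto (hS : Good S) : ∀ᵐ b : ℝ, 1 < b → ∀ k : ℝ, 0 < k →
    Tendsto (fun n : ℕ => Ratio S k (b ^ n)) atTop (𝓝 1) := by
  have hlt : ∀ r : ℝ, 0 < r → ENNReal.ofReal (1 - r) < 1 := by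
    intro r hr
    rw [← ENNReal.ofReal_one, ENNReal.ofReal_lt_ofReal_iff one_pos]
    linarith
  have h1 : ∀ᵐ b : ℝ, ∀ p : ℚ × ℚ, (0 : ℝ) < p.1 → (p.1 : ℝ) < p.2 → b ∉ BQ (QM S p.1 p.2) := by
    rw [ae_all_iff]
    rintro ⟨k, c⟩
    by_cases h : (0 : ℝ) < k ∧ (k : ℝ) < c
    · have h2 : volume (BQ (QM S (k : ℝ) (c : ℝ))) = 0 := null_BQ (lt_of_le_of_lt (hS.dimTop_le h.1 h.2)
        (hlt _ (rate_pos h.1 (by linarith [h.1, h.2]) h.2.ne)))
      filter_upwards [measure_eq_zero_iff_ae_notMem.1 h2] with b hb _ _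
      exact hb
    · exact Eventually.of_forall fun b h1 h2 => absurd ⟨h1, h2⟩ h
  have h2 : ∀ᵐ b : ℝ, ∀ p : ℚ × ℚ, (0 : ℝ) < p.2 → (p.2 : ℝ) < p.1 → b ∉ BQ (QF S p.1 p.2) := by
    rw [ae_all_iff]
    rintro ⟨k, c⟩
    by_cases h : (0 : ℝ) < c ∧ (c : ℝ) < k
    · have h2 : volume (BQ (QF S (k : ℝ) (c : ℝ))) = 0 := null_BQ (lt_of_le_of_lt (hS.dimBot_le h.1 h.2)
        (hlt _ (rate_pos (by linarith [h.1, h.2]) h.1 h.2.ne')))
      filter_upwards [measure_eq_zero_iff_ae_notMem.1 h2] with b hb _ _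
      exact hb
    · exact Eventually.of_forall fun b h1 h2 => absurd ⟨h1, h2⟩ h
  filter_upwards [h1, h2] with b hb1 hb2 hb k hk
  rw [tendsto_order]
  constructor
  · intro a ha
    obtain ⟨c', e1, e2⟩ := exists_rat_btwn (show max 0 (a * k) < k from max_lt hk (by nlinarith))
    obtain ⟨k', e3, e4⟩ := exists_rat_btwn e2
    rw [max_lt_iff] at e1
    have h3 : ¬ ∃ᶠ n : ℕ in atTop, QF S k' c' (b ^ n) := fun h => hb2 (k', c') e1.1 e3 ⟨hb, h⟩
    rw [not_frequently] at h3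
    filter_upwards [h3, eventually_ge_atTop 1] with n h4 h5
    have h6 := one_lt_pow' hb h5
    rw [← not_le, ratio_le_iff hk h6]
    exact fun h7 => h4 (QF_mono h6 e4.le e1.2.le h7)
  · intro a ha
    obtain ⟨k', e1, e2⟩ := exists_rat_btwn (show k < a * k by nlinarith)
    obtain ⟨c', e3, e4⟩ := exists_rat_btwn e2
    have h3 : ¬ ∃ᶠ n : ℕ in atTop, QM S k' c' (b ^ n) := fun h => hb1 (k', c') (by
      simp only
      linarith) e3 ⟨hb, h⟩
    rw [not_frequently] at h3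
    filter_upwards [h3, eventually_ge_atTop 1] with n h4 h5
    have h6 := one_lt_pow' hb h5
    rw [← not_le, le_ratio_iff hk h6]
    exact fun h7 => h4 (QM_mono h6 e1.le e4.le h7)

end Pool.Agent.Q166.GC
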