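import Pool.Agent.Q166.GC.F

/-!
# Cramér's model: explicit tail bounds for windows at real points
-/

set_option autoImplicit false

namespace Pool.Agent.Q166.GC

open Finset MeasureTheory Filter Topology Pool.Agent.Q120.ET Pool.Agent.Q120.MF Pool.Agent.Q120.AD
  Pool.Agent.Q120.TD Pool.Agent.Q166.Sq Pool.Agent.Q166.EB

variable {Ω : Type*} [MeasurableSpace Ω] {μ : Measure Ω} [IsProbabilityMeasure μ] {A : Ω → Set ℕ}

theorem Cnt_real {x h : ℝ} (hx : 0 ≤ x) (hh : 0 ≤ h) (ω : Ω) :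
    Cnt (A ω) x h = (tr A (Finset.Ioc ⌊x⌋₊ ⌊x + h⌋₊) ω).card := by
  unfold Cnt
  rw [← Set.ncard_coe_finset]
  congr 1
  ext n
  rw [mem_coe, mem_tr, Finset.mem_Ioc, Nat.floor_lt hx, Nat.le_floor_iff (by linarith)]
  constructor
  · rintro ⟨h1, h2, h3⟩
    exact ⟨⟨h2, h3⟩, h1⟩
  · rintro ⟨⟨h2, h3⟩, h1⟩
    exact ⟨h1, h2, h3⟩

theorem window_three {x h : ℝ} (hx : 3 ≤ x) : ∀ n ∈ Finset.Ioc ⌊x⌋₊ ⌊x + h⌋₊, 3 ≤ n := by
  intro n hn
  rw [Finset.mem_Ioc] at hn
  have h1 : 3 ≤ ⌊x⌋₊ := Nat.le_floor (by exact_mod_cast hx)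
  omega

theorem log_three {x : ℝ} (hx : 3 ≤ x) : 1 ≤ Real.log x := by
  rw [Real.le_log_iff_exp_le (by linarith)]
  have := Real.exp_one_lt_d9
  linarith

/-- **The upper tail**, explicitly. -/
theorem real_up (hA : IsCramer μ A) {x H u : ℝ} (hx : 3 ≤ x) (hH : 0 ≤ H) (hu : 1 < u) :
    μ.real {ω | u * (H / Real.log x) ≤ (Cnt (A ω) x H : ℝ)} ≤
      u * Real.exp (u - 1) * Real.exp (-(f u * (H / Real.log x))) := by
  have hlog := log_three hx
  have hu0 : 0 < u := by linarith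
  obtain ⟨t, ht⟩ : ∃ t : ℝ, t = H / Real.log x := ⟨_, rfl⟩
  rw [← ht]
  have ht0 : 0 ≤ t := by rw [ht]; positivity
  have he1 : 1 ≤ Real.exp (u - 1) := Real.one_le_exp (by linarith)
  rcases ht0.eq_or_lt with h0 | h0
  · rw [← h0]
    simp only [mul_zero, neg_zero, Real.exp_zero, mul_one]
    refine measureReal_le_one.trans ?_
    nlinarith
  obtain ⟨W, hW⟩ : ∃ W : Finset ℕ, W = Finset.Ioc ⌊x⌋₊ ⌊x + H⌋₊ := ⟨_, rfl⟩
  have hW3 : ∀ n ∈ W, 3 ≤ n := by rw [hW]; exact window_three hx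
  obtain ⟨m, hm⟩ : ∃ m : ℕ, m = ⌈u * t⌉₊ - 1 := ⟨_, rfl⟩
  have hut : 0 < u * t := by positivity
  have hc1 : 1 ≤ ⌈u * t⌉₊ := Nat.one_le_ceil_iff.2 hut
  have hmr : u * t - 1 ≤ (m : ℝ) := by
    rw [hm, Nat.cast_sub hc1]
    push_cast
    have := Nat.le_ceil (u * t)
    linarith
  have hsub : {ω | u * t ≤ (Cnt (A ω) x H : ℝ)} ⊆ {ω | ¬ (tr A W ω).card ≤ m} := by
    intro ω hω
    have h1 : u * t ≤ (Cnt (A ω) x H : ℝ) := hω
    rw [Cnt_real (by linarith) hH, ← hW] at h1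
    have h2 := Nat.ceil_le.2 h1
    show ¬ _
    omega
  refine (measureReal_mono hsub (measure_ne_top _ _)).trans ?_
  rw [real_pred hA hW3 (fun T => ¬ T.card ≤ m)]
  refine (upper_tail hW3 hu.le m).trans ?_
  have hmu : mu W ≤ t + 1 := by
    have h1 := mu_le (show 1 < x by linarith) (show x ≤ x + H by linarith)
    rw [← hW] at h1
    refine h1.trans ?_
    rw [show x + H - x + 1 = H + 1 by ring, add_div, ← ht]
    have : 1 / Real.log x ≤ 1 := by rw [div_le_one (by linarith)]; exact hlog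
    linarith
  have hlu : 0 < Real.log u := Real.log_pos hu
  have h3 : (1 / u) ^ m ≤ Real.exp (-((u * t - 1) * Real.log u)) := by
    have h5 : 1 / u = Real.exp (-Real.log u) := by rw [Real.exp_neg, Real.exp_log hu0, one_div]
    rw [h5, ← Real.exp_nat_mul, Real.exp_le_exp]
    nlinarith
  have h4 : Real.exp (-((1 - u) * ∑ n ∈ W, 1 / Real.log (n : ℝ))) ≤ Real.exp ((u - 1) * (t + 1)) := by
    apply Real.exp_le_exp.2
    have : (u - 1) * ∑ n ∈ W, 1 / Real.log (n : ℝ) ≤ (u - 1) * (t + 1) := mul_le_mul_of_nonneg_left hmu (by linarith)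
    linarith
  refine (mul_le_mul h3 h4 (Real.exp_pos _).le (Real.exp_pos _).le).trans (le_of_eq ?_)
  have h6 : u * Real.exp (u - 1) = Real.exp (Real.log u + (u - 1)) := by
    rw [Real.exp_add, Real.exp_log hu0]
  rw [h6, ← Real.exp_add, ← Real.exp_add]
  congr 1
  unfold f
  ring

/-- **The lower tail**, explicitly. -/
theorem real_low (hA : IsCramer μ A) {x H w : ℝ} (hx : 3 ≤ x) (hH : 0 ≤ H) (hHx : H ≤ x) (hw0 : 0 < w) (hw : w < 1) :
    μ.real {ω | (Cnt (A ω) x H : ℝ) ≤ w * (H / Real.log x)} ≤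
      Real.exp 1 * Real.exp (w * Real.log (1 / w) * (H / Real.log x) - (1 - w) * (H / Real.log (2 * x))) := by
  have hlog := log_three hx
  obtain ⟨t, ht⟩ : ∃ t : ℝ, t = H / Real.log x := ⟨_, rfl⟩
  rw [← ht]
  have ht0 : 0 ≤ t := by rw [ht]; positivity
  obtain ⟨W, hW⟩ : ∃ W : Finset ℕ, W = Finset.Ioc ⌊x⌋₊ ⌊x + H⌋₊ := ⟨_, rfl⟩
  have hW3 : ∀ n ∈ W, 3 ≤ n := by rw [hW]; exact window_three hx
  have hsub : {ω | (Cnt (A ω) x H : ℝ) ≤ w * t} ⊆ {ω | (tr A W ω).card ≤ ⌊w * t⌋₊} := by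
    intro ω hω
    have h1 : (Cnt (A ω) x H : ℝ) ≤ w * t := hω
    rw [Cnt_real (by linarith) hH, ← hW] at h1
    exact Nat.le_floor h1
  refine (measureReal_mono hsub (measure_ne_top _ _)).trans ?_
  rw [real_pred hA hW3 (fun T => T.card ≤ ⌊w * t⌋₊)]
  refine (lower_tail hW3 hw0 hw.le _).trans ?_
  have hl2 : Real.log x ≤ Real.log (2 * x) := Real.log_le_log (by linarith) (by linarith)
  have hmu : H / Real.log (2 * x) - 1 ≤ mu W := by
    have h1 := le_mu (show 1 < x by linarith) (show x ≤ x + H by linarith)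
    rw [← hW] at h1
    refine le_trans ?_ h1
    have h2 : Real.log (x + H) ≤ Real.log (2 * x) := Real.log_le_log (by linarith) (by linarith)
    have h3 : 1 ≤ Real.log (x + H) := log_three (by linarith)
    rw [show x + H - x - 1 = H - 1 by ring, sub_div]
    have h4 : H / Real.log (2 * x) ≤ H / Real.log (x + H) := div_le_div_of_nonneg_left hH (by linarith) h2
    have h5 : 1 / Real.log (x + H) ≤ 1 := by rw [div_le_one (by linarith)]; exact h3
    linarith
  have hlw : 0 < Real.log (1 / w) := Real.log_pos (by rw [lt_div_iff₀ hw0]; linarith)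
  have h3 : (1 / w) ^ ⌊w * t⌋₊ ≤ Real.exp (w * Real.log (1 / w) * t) := by
    have h5 : 1 / w = Real.exp (Real.log (1 / w)) := (Real.exp_log (by positivity)).symm
    rw [h5, ← Real.exp_nat_mul, Real.log_exp, Real.exp_le_exp]
    have h6 : (⌊w * t⌋₊ : ℝ) ≤ w * t := Nat.floor_le (by positivity)
    have := mul_le_mul_of_nonneg_right h6 hlw.le
    linarith
  have h4 : Real.exp (-((1 - w) * ∑ n ∈ W, 1 / Real.log (n : ℝ))) ≤
      Real.exp (1 - (1 - w) * (H / Real.log (2 * x))) := by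
    apply Real.exp_le_exp.2
    have : (1 - w) * (H / Real.log (2 * x) - 1) ≤ (1 - w) * ∑ n ∈ W, 1 / Real.log (n : ℝ) :=
      mul_le_mul_of_nonneg_left hmu (by linarith)
    linarith
  refine (mul_le_mul h3 h4 (Real.exp_pos _).le (Real.exp_pos _).le).trans (le_of_eq ?_)
  rw [← Real.exp_add, ← Real.exp_add]
  congr 1
  ring

/-- the lower tail for large `x` -/
theorem ev_low (hA : IsCramer μ A) {w κ : ℝ} (hw0 : 0 < w) (hw : w < 1) (hκ : κ < f w) :
    ∀ᶠ x : ℝ in atTop, ∀ H : ℝ, 0 ≤ H → H ≤ x → μ.real {ω | (Cnt (A ω) x H : ℝ) ≤ w * (H / Real.log x)} ≤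
      Real.exp 1 * Real.exp (-(κ * (H / Real.log x))) := by
  have h1 : Tendsto (fun x : ℝ => w * Real.log (1 / w) - (1 - w) * (Real.log x / Real.log (2 * x))) atTop
      (𝓝 (w * Real.log (1 / w) - (1 - w) * 1)) := by
    have h2 : Tendsto (fun x : ℝ => Real.log x / Real.log (2 * x)) atTop (𝓝 1) := by
      have h3 : Tendsto (fun x : ℝ => 1 / (Real.log 2 / Real.log x + 1)) atTop (𝓝 (1 / (0 + 1))) := by
        refine tendsto_const_nhds.div ((Real.tendsto_log_atTop.const_div_atTop _).add_const 1) (by norm_num)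
      rw [zero_add, div_one] at h3
      refine h3.congr' ?_
      filter_upwards [eventually_ge_atTop 3] with x hx
      have hlog := log_three hx
      have hl2 : Real.log x ≤ Real.log (2 * x) := Real.log_le_log (by linarith) (by linarith)
      rw [Real.log_mul (by norm_num) (by linarith)] at hl2 ⊢
      field_simp
    exact tendsto_const_nhds.sub (h2.const_mul _)
  have h2 : w * Real.log (1 / w) - (1 - w) * 1 < -κ := by
    unfold f at hκ
    rw [one_div, Real.log_inv]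
    linarith
  filter_upwards [h1.eventually_lt_const h2, eventually_ge_atTop 3] with x hx hx3 H hH hHx
  refine (real_low hA hx3 hH hHx hw0 hw).trans ?_
  apply mul_le_mul_of_nonneg_left _ (Real.exp_pos _).le
  apply Real.exp_le_exp.2
  have hlog := log_three hx3
  have hl2 : Real.log x ≤ Real.log (2 * x) := Real.log_le_log (by linarith) (by linarith)
  have ht0 : 0 ≤ H / Real.log x := by positivity
  have h3 : w * Real.log (1 / w) * (H / Real.log x) - (1 - w) * (H / Real.log (2 * x)) =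
      (w * Real.log (1 / w) - (1 - w) * (Real.log x / Real.log (2 * x))) * (H / Real.log x) := by
    have : Real.log (2 * x) ≠ 0 := by linarith
    field_simp
  rw [h3]
  have := mul_le_mul_of_nonneg_right hx.le ht0
  linarith

/-- a geometric sum -/
theorem geom_bound {y : ℝ} (hy0 : 0 ≤ y) (hy : y ≤ 1 / 2) (J : ℕ) : ∑ j ∈ range J, y ^ j ≤ 2 := by
  have h1 : ∑ j ∈ range J, y ^ j ≤ ∑ j ∈ range J, (1 / 2 : ℝ) ^ j :=
    sum_le_sum fun j _ => pow_le_pow_left₀ hy0 hy j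
  refine h1.trans ?_
  have h2 := Summable.sum_le_tsum (range J) (fun j _ => by positivity) summable_geometric_two
  rw [tsum_geometric_two] at h2
  exact h2

/-- the sum of the tail bounds over the lengths `c q ^ j` -/
theorem grid_bound {κ c q ℓ : ℝ} (hκ : 0 < κ) (hc : 0 < c) (hq : 1 < q) (hℓ : 0 < ℓ)
    (hbig : Real.exp (-(κ * c * (q - 1) * ℓ)) ≤ 1 / 2) (J : ℕ) :
    ∑ j ∈ range J, Real.exp (-(κ * (c * q ^ j * ℓ))) ≤ 2 * Real.exp (-(κ * c * ℓ)) := by
  have h1 : ∀ j ∈ range J, Real.exp (-(κ * (c * q ^ j * ℓ))) ≤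
      Real.exp (-(κ * c * ℓ)) * (Real.exp (-(κ * c * (q - 1) * ℓ))) ^ j := by
    intro j _
    rw [← Real.exp_nat_mul, ← Real.exp_add]
    apply Real.exp_le_exp.2
    have h2 : 1 + (j : ℝ) * (q - 1) ≤ q ^ j := by
      have := one_add_mul_le_pow (show -2 ≤ q - 1 by linarith) j
      simpa using this
    have h3 : κ * c * ℓ * (1 + (j : ℝ) * (q - 1)) ≤ κ * c * ℓ * q ^ j :=
      mul_le_mul_of_nonneg_left h2 (by positivity)
    linarith
  refine (sum_le_sum h1).trans ?_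
  rw [← mul_sum]
  have := geom_bound (Real.exp_pos _).le hbig J
  have h4 := mul_le_mul_of_nonneg_left this (Real.exp_pos (-(κ * c * ℓ))).le
  linarith

end Pool.Agent.Q166.GC
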