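import Pool.Agent.Q166.GC.G

/-!
# Cramér's model: windows of length `c log x log log x` above the powers of one base
-/

set_option autoImplicit false

namespace Pool.Agent.Q166.GC

open Finset MeasureTheory Filter Topology Pool.Agent.Q120.ET Pool.Agent.Q120.MF Pool.Agent.Q120.AD
  Pool.Agent.Q120.EX Pool.Agent.Q120.TD Pool.Agent.Q166.Sq Pool.Agent.Q166.EB

/-- `log x log log x` -/
noncomputable def LL (x : ℝ) : ℝ := Real.log x * Real.log (Real.log x)

/-- few bad lengths: not too many elements -/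
def GT (S : Set ℕ) (b c u q : ℝ) : Prop := ∀ᶠ n : ℕ in atTop, ∀ j ≤ n ^ 2,
  (Cnt S (b ^ n) (c * q ^ j * LL (b ^ n)) : ℝ) < u * (c * q ^ j * Real.log (Real.log (b ^ n)))

/-- few bad lengths: not too few elements -/
def GB (S : Set ℕ) (b c w q : ℝ) : Prop := ∀ᶠ n : ℕ in atTop, ∀ j ≤ n ^ 2, c * q ^ j * LL (b ^ n) ≤ b ^ n →
  w * (c * q ^ j * Real.log (Real.log (b ^ n))) < (Cnt S (b ^ n) (c * q ^ j * LL (b ^ n)) : ℝ)

/-- many elements infinitely often -/
def FT (S : Set ℕ) (b a g : ℝ) : Prop := ∃ᶠ n : ℕ in atTop,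
  g * Real.log (Real.log (b ^ n)) ≤ (Cnt S (b ^ n) (a * LL (b ^ n)) : ℝ)

/-- few elements infinitely often -/
def FB (S : Set ℕ) (b a g : ℝ) : Prop := ∃ᶠ n : ℕ in atTop,
  (Cnt S (b ^ n) (a * LL (b ^ n)) : ℝ) ≤ g * Real.log (Real.log (b ^ n))

theorem tpow {b : ℝ} (hb : 1 < b) : Tendsto (fun n : ℕ => b ^ n) atTop atTop :=
  tendsto_pow_atTop_atTop_of_one_lt hb

theorem tlog {b : ℝ} (hb : 1 < b) : Tendsto (fun n : ℕ => Real.log (b ^ n)) atTop atTop :=
  Real.tendsto_log_atTop.comp (tpow hb)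

theorem tll {b : ℝ} (hb : 1 < b) : Tendsto (fun n : ℕ => Real.log (Real.log (b ^ n))) atTop atTop :=
  Real.tendsto_log_atTop.comp (tlog hb)

theorem summable_ll {b s C : ℝ} (hb : 1 < b) (hs : 1 < s) :
    Summable fun n : ℕ => C * Real.exp (-(s * Real.log (Real.log (b ^ n)))) := by
  have hlb : 0 < Real.log b := Real.log_pos hb
  have h1 : Summable fun n : ℕ => C * (Real.log b ^ (-s) * (n : ℝ) ^ (-s)) :=
    ((Real.summable_nat_rpow.2 (by linarith)).mul_left _).mul_left C
  refine h1.congr_atTop ?_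
  filter_upwards [eventually_ge_atTop 1] with n hn
  have hn0 : (0 : ℝ) < n := by exact_mod_cast hn
  rw [Real.log_pow, ← Real.mul_rpow hlb.le hn0.le, Real.rpow_def_of_pos (by positivity), mul_comm (Real.log b) (n : ℝ)]
  congr 2
  ring

theorem ratio_LL {x y : ℝ} (hx : 0 < Real.log x) : y * LL x / Real.log x = y * Real.log (Real.log x) := by
  unfold LL
  field_simp

variable {Ω : Type*} [MeasurableSpace Ω] {μ : Measure Ω} [IsProbabilityMeasure μ] {A : Ω → Set ℕ}

theorem ae_GT (hA : IsCramer μ A) {b c u q : ℝ} (hb : 1 < b) (hc : 0 < c) (hu : 1 < u) (hq : 1 < q)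
    (h : 1 < c * f u) : ∀ᵐ ω ∂μ, GT (A ω) b c u q := by
  have hf : 0 < f u := by
    by_contra hcon
    push Not at hcon
    have := mul_nonpos_of_nonneg_of_nonpos hc.le hcon
    linarith
  have hbig : ∀ᶠ n : ℕ in atTop, Real.exp (-(f u * c * (q - 1) * Real.log (Real.log (b ^ n)))) ≤ 1 / 2 := by
    have h1 : Tendsto (fun n : ℕ => Real.exp (-(f u * c * (q - 1) * Real.log (Real.log (b ^ n))))) atTop (𝓝 0) := by
      refine Real.tendsto_exp_neg_atTop_nhds_zero.comp ((tll hb).const_mul_atTop ?_)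
      exact mul_pos (by positivity) (by linarith)
    exact (h1.eventually_lt_const (by norm_num)).mono fun n hn => hn.le
  have h3 := ae_all_grid (μ := μ) (τ := ℕ) (fun n => range (n ^ 2 + 1))
    (fun n j => {ω | u * (c * q ^ j * Real.log (Real.log (b ^ n))) ≤ (Cnt (A ω) (b ^ n) (c * q ^ j * LL (b ^ n)) : ℝ)})
    (fun n : ℕ => (u * Real.exp (u - 1) * 2) * Real.exp (-(c * f u * Real.log (Real.log (b ^ n)))))
    (summable_ll hb h) (by
      filter_upwards [hbig, (tpow hb).eventually_ge_atTop 3, (tll hb).eventually_gt_atTop 0] with n h1 h2 h3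
      have hlog := log_three h2
      have hp : ∀ j ∈ range (n ^ 2 + 1), μ.real {ω | u * (c * q ^ j * Real.log (Real.log (b ^ n))) ≤
          (Cnt (A ω) (b ^ n) (c * q ^ j * LL (b ^ n)) : ℝ)} ≤
          u * Real.exp (u - 1) * Real.exp (-(f u * (c * q ^ j * Real.log (Real.log (b ^ n))))) := by
        intro j _
        have e1 := real_up (μ := μ) hA (H := c * q ^ j * LL (b ^ n)) h2 (by unfold LL; positivity) hu
        rw [ratio_LL (by linarith)] at e1
        exact e1
      refine (sum_le_sum hp).trans ?_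
      rw [← mul_sum]
      have e2 := grid_bound hf hc hq h3 h1 (n ^ 2 + 1)
      have e3 := mul_le_mul_of_nonneg_left e2 (show 0 ≤ u * Real.exp (u - 1) by positivity)
      refine e3.trans (le_of_eq ?_)
      rw [mul_comm (f u) c]
      ring)
  filter_upwards [h3] with ω hω
  filter_upwards [hω] with n hn j hj
  exact not_le.1 (hn j (mem_range.2 (by omega)))

theorem ae_GB (hA : IsCramer μ A) {b c w q : ℝ} (hb : 1 < b) (hc : 0 < c) (hw0 : 0 < w) (hw : w < 1) (hq : 1 < q)
    (h : 1 < c * f w) : ∀ᵐ ω ∂μ, GB (A ω) b c w q := by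
  have h0 : 1 / c < f w := by
    rw [div_lt_iff₀ hc]
    linarith
  obtain ⟨κ, hκ1, hκ2⟩ := exists_between h0
  have hκ0 : 0 < κ := lt_trans (by positivity) hκ1
  have hκc : 1 < κ * c := by
    rw [div_lt_iff₀ hc] at hκ1
    exact hκ1
  have hbig : ∀ᶠ n : ℕ in atTop, Real.exp (-(κ * c * (q - 1) * Real.log (Real.log (b ^ n)))) ≤ 1 / 2 := by
    have h1 : Tendsto (fun n : ℕ => Real.exp (-(κ * c * (q - 1) * Real.log (Real.log (b ^ n))))) atTop (𝓝 0) := by
      refine Real.tendsto_exp_neg_atTop_nhds_zero.comp ((tll hb).const_mul_atTop ?_)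
      exact mul_pos (by positivity) (by linarith)
    exact (h1.eventually_lt_const (by norm_num)).mono fun n hn => hn.le
  have h3 := ae_all_grid (μ := μ) (τ := ℕ)
    (fun n => (range (n ^ 2 + 1)).filter fun j => c * q ^ j * LL (b ^ n) ≤ b ^ n)
    (fun n j => {ω | (Cnt (A ω) (b ^ n) (c * q ^ j * LL (b ^ n)) : ℝ) ≤ w * (c * q ^ j * Real.log (Real.log (b ^ n)))})
    (fun n : ℕ => (Real.exp 1 * 2) * Real.exp (-(κ * c * Real.log (Real.log (b ^ n)))))
    (summable_ll hb hκc) (by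
      filter_upwards [hbig, (tpow hb).eventually_ge_atTop 3, (tll hb).eventually_gt_atTop 0,
        (tpow hb).eventually (ev_low (μ := μ) hA hw0 hw hκ2)] with n h1 h2 h3 h4
      have hlog := log_three h2
      have hp : ∀ j ∈ (range (n ^ 2 + 1)).filter fun j => c * q ^ j * LL (b ^ n) ≤ b ^ n,
          μ.real {ω | (Cnt (A ω) (b ^ n) (c * q ^ j * LL (b ^ n)) : ℝ) ≤
            w * (c * q ^ j * Real.log (Real.log (b ^ n)))} ≤
          Real.exp 1 * Real.exp (-(κ * (c * q ^ j * Real.log (Real.log (b ^ n))))) := by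
        intro j hj
        rw [mem_filter] at hj
        have e1 := h4 (c * q ^ j * LL (b ^ n)) (by unfold LL; positivity) hj.2
        rw [ratio_LL (by linarith)] at e1
        exact e1
      refine (sum_le_sum hp).trans ?_
      rw [← mul_sum]
      have e2 := grid_bound hκ0 hc hq h3 h1 (n ^ 2 + 1)
      have e4 : ∑ j ∈ (range (n ^ 2 + 1)).filter (fun j => c * q ^ j * LL (b ^ n) ≤ b ^ n),
          Real.exp (-(κ * (c * q ^ j * Real.log (Real.log (b ^ n))))) ≤
          ∑ j ∈ range (n ^ 2 + 1), Real.exp (-(κ * (c * q ^ j * Real.log (Real.log (b ^ n))))) :=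
        sum_le_sum_of_subset_of_nonneg (filter_subset _ _) (fun _ _ _ => (Real.exp_pos _).le)
      have e3 := mul_le_mul_of_nonneg_left (e4.trans e2) (show 0 ≤ Real.exp 1 by positivity)
      refine e3.trans (le_of_eq ?_)
      ring)
  filter_upwards [h3] with ω hω
  filter_upwards [hω] with n hn j hj hj2
  exact not_le.1 (hn j (mem_filter.2 ⟨mem_range.2 (by omega), hj2⟩))

/-- The lower bound for binomial probabilities, for general scales. -/
theorem q_gen {c a κ : ℝ} (hc0 : 0 < c) (ha0 : 0 < a) (hr : rate a c < κ) {L L2 ℓ : ℕ → ℝ} {H m : ℕ → ℕ}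
    (hL : Tendsto L atTop atTop) (hℓ : Tendsto ℓ atTop atTop) (hL2 : Tendsto (fun n => L2 n / L n) atTop (𝓝 1))
    (hth : Tendsto (fun n => (H n : ℝ) / (L n * ℓ n)) atTop (𝓝 a))
    (htm : Tendsto (fun n => (m n : ℝ) / ℓ n) atTop (𝓝 c)) :
    ∀ᶠ n in atTop, Real.exp (-(κ * ℓ n)) ≤
      ((H n).choose (m n) : ℝ) * ((1 / L2 n) ^ m n * (1 - 1 / L n) ^ H n) := by
  have hlarge : ∀ᶠ n in atTop, 2 < L n ∧ 0 < ℓ n ∧ 0 < L2 n := by
    filter_upwards [hL.eventually_gt_atTop 2, hℓ.eventually_gt_atTop 0,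
      hL2.eventually_const_lt (show (0 : ℝ) < 1 by norm_num)] with n h1 h2 h3
    refine ⟨h1, h2, ?_⟩
    by_contra hcon
    push Not at hcon
    have : L2 n / L n ≤ 0 := div_nonpos_of_nonpos_of_nonneg hcon (by linarith)
    linarith
  -- the third piece
  have hP3 : Tendsto (fun n => (H n : ℝ) * Real.log (1 - 1 / L n) / ℓ n) atTop (𝓝 (a * (-1))) := by
    have h1 := (Real.tendsto_mul_log_one_add_div_atTop (-1)).comp hL
    refine (hth.mul h1).congr' ?_
    filter_upwards [hlarge] with n hn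
    simp only [Function.comp]
    rw [show 1 + -1 / L n = 1 - 1 / L n by ring]
    have h2 : L n ≠ 0 := by linarith [hn.1]
    have h3 : ℓ n ≠ 0 := hn.2.1.ne'
    field_simp
  have hmH : ∀ᶠ n in atTop, m n ≤ H n := by
    filter_upwards [hlarge, htm.eventually_lt_const (show c < 2 * c by linarith),
      hth.eventually_const_lt (show a / 2 < a by linarith), hL.eventually_ge_atTop (4 * c / a)] with n h1 h2 h3 h4
    rw [div_lt_iff₀ h1.2.1] at h2
    have hLℓ : 0 < L n * ℓ n := mul_pos (by linarith [h1.1]) h1.2.1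
    rw [lt_div_iff₀ hLℓ] at h3
    rw [div_le_iff₀ ha0] at h4
    have h5 : 2 * c * ℓ n ≤ a / 2 * (L n * ℓ n) := by
      have := mul_le_mul_of_nonneg_right h4 h1.2.1.le
      linarith
    have h6 : (m n : ℝ) ≤ H n := by linarith
    exact_mod_cast h6
  have hP1 : Tendsto (fun n => Real.log ((m n : ℝ) + 1) / ℓ n) atTop (𝓝 0) := by
    have h1 : Tendsto (fun n => ((m n : ℝ) + 1)) atTop atTop := by
      have h2 := hℓ.const_mul_atTop (show 0 < c / 2 by positivity)
      refine tendsto_atTop_mono' _ ?_ h2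
      filter_upwards [hlarge, htm.eventually_const_lt (show c / 2 < c by linarith)] with n h3 h4
      rw [lt_div_iff₀ h3.2.1] at h4
      linarith
    have h2 := (Real.isLittleO_log_id_atTop.tendsto_div_nhds_zero).comp h1
    have h3 : Tendsto (fun n => ((m n : ℝ) + 1) / ℓ n) atTop (𝓝 (c + 0)) := by
      have h4 := htm.add (hℓ.const_div_atTop (1 : ℝ))
      refine h4.congr (fun x => ?_)
      rw [add_div]
    have h4 := h2.mul h3
    rw [zero_mul] at h4
    refine h4.congr' ?_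
    filter_upwards [hlarge] with n hn
    simp only [Function.comp, id]
    have h6 : (0 : ℝ) < (m n : ℝ) + 1 := by positivity
    have h7 : ℓ n ≠ 0 := hn.2.1.ne'
    field_simp
  have hR : Tendsto (fun n => (((H n : ℝ) - (m n : ℝ)) * (1 / L2 n) * Real.exp 1) / ((m n : ℝ) + 1)) atTop
      (𝓝 ((a - c * 0) * (1 / 1) * Real.exp 1 / (c + 0))) := by
    have h1 : Tendsto (fun n => (H n : ℝ) / (L n * ℓ n) - (m n : ℝ) / ℓ n * (1 / L n)) atTop (𝓝 (a - c * 0)) :=
      hth.sub (htm.mul (hL.const_div_atTop (1 : ℝ)))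
    have h2 : Tendsto (fun n => 1 / (L2 n / L n)) atTop (𝓝 (1 / 1)) :=
      tendsto_const_nhds.div hL2 one_ne_zero
    have h3 : Tendsto (fun n => (m n : ℝ) / ℓ n + 1 / ℓ n) atTop (𝓝 (c + 0)) :=
      htm.add (hℓ.const_div_atTop (1 : ℝ))
    refine (((h1.mul h2).mul_const (Real.exp 1)).div h3 (by rw [add_zero]; exact hc0.ne')).congr' ?_
    filter_upwards [hlarge] with n hn
    have h7 : (0 : ℝ) < (m n : ℝ) + 1 := by positivity
    have h8 : L n ≠ 0 := by linarith [hn.1]
    have h9 : ℓ n ≠ 0 := hn.2.1.ne'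
    have h10 : L2 n ≠ 0 := hn.2.2.ne'
    simp only [Pi.div_apply]
    field_simp
  have hRlim : (a - c * 0) * (1 / 1) * Real.exp 1 / (c + 0) = a / c * Real.exp 1 := by
    rw [mul_zero, sub_zero, add_zero]; ring
  rw [hRlim] at hR
  have hR0 : 0 < a / c * Real.exp 1 := by positivity
  have hlogR := (hR.log hR0.ne')
  have hlogRlim : Real.log (a / c * Real.exp 1) = Real.log (a / c) + 1 := by
    rw [Real.log_mul (by positivity) (Real.exp_ne_zero _), Real.log_exp]
  rw [hlogRlim] at hlogR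
  have hG := ((htm.mul hlogR).sub hP1).add hP3
  have h1 := hG.eventually_const_lt (show -κ < c * (Real.log (a / c) + 1) - 0 + a * (-1) by
    unfold rate at hr
    linarith)
  filter_upwards [h1, hlarge, hmH, hR.eventually_const_lt hR0] with n hx hn hmh hRpos
  obtain ⟨hn1, hn2, hn3⟩ := hn
  have h3 : 0 < 1 - 1 / L n := by
    have : 1 / L n < 1 := by rw [div_lt_one (by linarith)]; linarith
    linarith
  have hb := choose_bound (p := 1 / L2 n) (by positivity) hmh
  obtain ⟨R, hRdef⟩ : ∃ R : ℝ, R = (((H n : ℝ) - (m n : ℝ)) * (1 / L2 n) * Real.exp 1) / ((m n : ℝ) + 1) := ⟨_, rfl⟩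
  rw [← hRdef] at hb hRpos hx
  have hm1 : (0 : ℝ) < (m n : ℝ) + 1 := by positivity
  have h4 : Real.exp ((m n : ℝ) * Real.log R - Real.log ((m n : ℝ) + 1) + (H n : ℝ) * Real.log (1 - 1 / L n)) =
      (1 / ((m n : ℝ) + 1) * R ^ m n) * (1 - 1 / L n) ^ H n := by
    rw [Real.exp_add, Real.exp_sub, Real.exp_nat_mul, Real.exp_nat_mul, Real.exp_log hRpos, Real.exp_log hm1,
      Real.exp_log h3]
    ring
  have h5 : -(κ * ℓ n) ≤ (m n : ℝ) * Real.log R - Real.log ((m n : ℝ) + 1) + (H n : ℝ) * Real.log (1 - 1 / L n) := by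
    have h6 : (m n : ℝ) / ℓ n * Real.log R - Real.log ((m n : ℝ) + 1) / ℓ n +
        (H n : ℝ) * Real.log (1 - 1 / L n) / ℓ n =
        ((m n : ℝ) * Real.log R - Real.log ((m n : ℝ) + 1) + (H n : ℝ) * Real.log (1 - 1 / L n)) / ℓ n := by ring
    rw [h6, lt_div_iff₀ hn2] at hx
    linarith
  refine (Real.exp_le_exp.2 h5).trans ?_
  rw [h4, ← mul_assoc]
  exact mul_le_mul_of_nonneg_right hb (by positivity)

end Pool.Agent.Q166.GC
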