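import Pool.Agent.Q166.GC.H

/-!
# Cramér's model: extreme numbers of elements infinitely often above the powers of one base
-/

set_option autoImplicit false

namespace Pool.Agent.Q166.GC

open Finset MeasureTheory Filter Topology Pool.Agent.Q120.ET Pool.Agent.Q120.MF Pool.Agent.Q120.AD
  Pool.Agent.Q120.EX Pool.Agent.Q120.TD Pool.Agent.Q166.Sq Pool.Agent.Q166.EB

/-- the integers in the windows above the powers -/
noncomputable def Wb (b a : ℝ) (n : ℕ) : Finset ℕ := Finset.Ioc ⌊b ^ n⌋₊ ⌊b ^ n + a * LL (b ^ n)⌋₊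

theorem ev_LL_le {a ε : ℝ} (ha : 0 < a) (hε : 0 < ε) : ∀ᶠ x : ℝ in atTop, a * LL x ≤ ε * x := by
  have h1 := (Real.isLittleO_pow_log_id_atTop (n := 2)).bound (show (0 : ℝ) < ε / a by positivity)
  filter_upwards [h1, eventually_ge_atTop 3] with x hx hx3
  have hl := log_three hx3
  have h2 : Real.log (Real.log x) ≤ Real.log x := (Real.log_le_sub_one_of_pos (by linarith)).trans (by linarith)
  rw [id, Real.norm_of_nonneg (by positivity), Real.norm_of_nonneg (by linarith)] at hx
  have h3 : LL x ≤ Real.log x ^ 2 := by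
    unfold LL
    rw [sq]
    exact mul_le_mul_of_nonneg_left h2 (by linarith)
  calc a * LL x ≤ a * (ε / a * x) := mul_le_mul_of_nonneg_left (h3.trans hx) ha.le
    _ = ε * x := by field_simp

theorem tLL {b : ℝ} (hb : 1 < b) : Tendsto (fun n : ℕ => LL (b ^ n)) atTop atTop := by
  unfold LL
  exact (tlog hb).atTop_mul_atTop₀ (tll hb)

variable {Ω : Type*} [MeasurableSpace Ω] {μ : Measure Ω} [IsProbabilityMeasure μ] {A : Ω → Set ℕ}

/-- **Independence**: events of probability at least `n ^ (-κ)`, `κ < 1`, occur infinitely often. -/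
theorem freq_block (hA : IsCramer μ A) {b a κ : ℝ} (hb : 1 < b) (ha : 0 < a) (hκ0 : 0 < κ) (hκ : κ < 1)
    (F : ℕ → Finset ℕ → Prop) [∀ n, DecidablePred (F n)]
    (hF : ∀ᶠ n : ℕ in atTop, Real.exp (-(κ * Real.log (Real.log (b ^ n)))) ≤
      ∑ T ∈ (Wb b a n).powerset with F n T, cramerOn (Wb b a n) T) :
    ∀ᵐ ω ∂μ, ∃ᶠ n : ℕ in atTop, F n (tr A (Wb b a n) ω) := by
  classical
  have hlb : 0 < Real.log b := Real.log_pos hb
  obtain ⟨n0, hn0⟩ := eventually_atTop.1 (hF.and (((tpow hb).eventually_ge_atTop 3).and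
    (((tpow hb).eventually (ev_LL_le (a := a) ha (show 0 < b - 1 by linarith))).and
      ((tLL hb).eventually_ge_atTop 0))))
  have hg : Summable (fun M : ℕ => (M : ℝ) ^ (-(2 : ℝ))) := Real.summable_nat_rpow.2 (by norm_num)
  have hlog : ∀ᶠ M : ℕ in atTop, 2 * Real.log (M : ℝ) ≤ (2 * Real.log b) ^ (-κ) * (M : ℝ) ^ (1 - κ) := by
    have h1 := (isLittleO_log_rpow_atTop (show 0 < 1 - κ by linarith)).bound
      (show (0 : ℝ) < (2 * Real.log b) ^ (-κ) / 2 by positivity)
    filter_upwards [tn.eventually h1, eventually_ge_atTop 1] with M hM hM1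
    have hM0 : (1 : ℝ) ≤ M := by exact_mod_cast hM1
    rw [Real.norm_of_nonneg (Real.log_nonneg hM0), Real.norm_of_nonneg (by positivity)] at hM
    linarith
  have hae := (ae_eventually_notMem (tsum_ne_top_of_real (μ := μ) hg
    (f := fun M => {ω | ∀ n ∈ Ico M (2 * M), ¬ F n (tr A (Wb b a n) ω)}) ?_))
  · filter_upwards [hae] with ω hω
    rw [frequently_atTop]
    intro N
    obtain ⟨M, hM1, hM2⟩ := (hω.and (eventually_ge_atTop N)).exists
    have hM1' : ¬ ∀ n ∈ Ico M (2 * M), ¬ F n (tr A (Wb b a n) ω) := hM1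
    push Not at hM1'
    obtain ⟨n, hn, hn'⟩ := hM1'
    exact ⟨n, hM2.trans (mem_Ico.1 hn).1, hn'⟩
  · filter_upwards [hlog, eventually_ge_atTop (max n0 1)] with M hM hM1
    have hMn : n0 ≤ M := (le_max_left _ _).trans hM1
    have hM11 : 1 ≤ M := (le_max_right _ _).trans hM1
    have hM0 : (0 : ℝ) < M := by exact_mod_cast hM11
    have hmem : ∀ n ∈ Ico M (2 * M), n0 ≤ n := fun n hn => hMn.trans (mem_Ico.1 hn).1
    have hmain := none_le hA (Ico M (2 * M)) (Wb b a)
      (fun n hn => by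
        unfold Wb
        exact window_three (hn0 n (hmem n hn)).2.1)
      (by
        have key : ∀ n ∈ Ico M (2 * M), ∀ n' ∈ Ico M (2 * M), n < n' → Disjoint (Wb b a n) (Wb b a n') := by
          intro n hn n' hn' hlt
          rw [Finset.disjoint_left]
          intro k hk hk'
          unfold Wb at hk hk'
          rw [Finset.mem_Ioc] at hk hk'
          have e1 := (hn0 n (hmem n hn)).2.2.1
          have e2 : b ^ n + a * LL (b ^ n) ≤ b ^ n' := by
            calc b ^ n + a * LL (b ^ n) ≤ b ^ n + (b - 1) * b ^ n := by linarith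
              _ = b ^ (n + 1) := by ring
              _ ≤ b ^ n' := pow_le_pow_right₀ hb.le hlt
          have e3 := Nat.floor_le_floor e2
          omega
        intro n hn n' hn' hne
        rcases lt_or_gt_of_ne hne with h | h
        · exact key n hn n' hn' h
        · exact (key n' hn' n hn h).symm)
      F (p := Real.exp (-(κ * Real.log (Real.log (b ^ (2 * M)))))) (by
        intro n hn
        refine le_trans ?_ (hn0 n (hmem n hn)).1
        apply Real.exp_le_exp.2
        apply neg_le_neg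
        apply mul_le_mul_of_nonneg_left _ hκ0.le
        have e1 := log_three (hn0 n (hmem n hn)).2.1
        apply Real.log_le_log (by linarith)
        apply Real.log_le_log (by positivity)
        exact pow_le_pow_right₀ hb.le (mem_Ico.1 hn).2.le)
    refine hmain.trans ?_
    rw [Nat.card_Ico, Real.rpow_def_of_pos hM0]
    apply Real.exp_le_exp.2
    have e1 : Real.log (b ^ (2 * M)) = 2 * Real.log b * M := by
      rw [Real.log_pow]
      push_cast
      ring
    have e2 : Real.exp (-(κ * Real.log (Real.log (b ^ (2 * M))))) = (2 * Real.log b) ^ (-κ) * (M : ℝ) ^ (-κ) := by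
      rw [e1, ← Real.mul_rpow (by positivity) hM0.le, Real.rpow_def_of_pos (by positivity)]
      congr 1
      ring
    have e3 : ((2 * M - M : ℕ) : ℝ) = M := by
      congr 1
      omega
    have e4 : (M : ℝ) * ((2 * Real.log b) ^ (-κ) * (M : ℝ) ^ (-κ)) = (2 * Real.log b) ^ (-κ) * (M : ℝ) ^ (1 - κ) := by
      have : (M : ℝ) ^ (1 - κ) = M * (M : ℝ) ^ (-κ) := by
        rw [sub_eq_add_neg, Real.rpow_add hM0, Real.rpow_one]
      rw [this]
      ring
    rw [e2, e3, e4]
    linarith

theorem tcard {b a : ℝ} (hb : 1 < b) (ha : 0 < a) :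
    Tendsto (fun n : ℕ => ((Wb b a n).card : ℝ) / (Real.log (b ^ n) * Real.log (Real.log (b ^ n)))) atTop (𝓝 a) := by
  have h1 : Tendsto (fun n : ℕ => a - 1 / LL (b ^ n)) atTop (𝓝 (a - 0)) :=
    tendsto_const_nhds.sub ((tLL hb).const_div_atTop 1)
  have h2 : Tendsto (fun n : ℕ => a + 1 / LL (b ^ n)) atTop (𝓝 (a + 0)) :=
    tendsto_const_nhds.add ((tLL hb).const_div_atTop 1)
  rw [sub_zero] at h1
  rw [add_zero] at h2
  refine tendsto_of_tendsto_of_tendsto_of_le_of_le' h1 h2 ?_ ?_
  · filter_upwards [(tLL hb).eventually_gt_atTop 0] with n hn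
    have e1 := (card_Ioc_floor (x := b ^ n) (y := b ^ n + a * LL (b ^ n)) (by positivity) (by
      have : 0 < a * LL (b ^ n) := by positivity
      linarith)).2
    show a - 1 / LL (b ^ n) ≤ ((Wb b a n).card : ℝ) / LL (b ^ n)
    rw [le_div_iff₀ hn, sub_mul, one_div, inv_mul_cancel₀ hn.ne']
    unfold Wb
    linarith
  · filter_upwards [(tLL hb).eventually_gt_atTop 0] with n hn
    have e1 := (card_Ioc_floor (x := b ^ n) (y := b ^ n + a * LL (b ^ n)) (by positivity) (by
      have : 0 < a * LL (b ^ n) := by positivity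
      linarith)).1
    show ((Wb b a n).card : ℝ) / LL (b ^ n) ≤ a + 1 / LL (b ^ n)
    rw [div_le_iff₀ hn, add_mul, one_div, inv_mul_cancel₀ hn.ne']
    unfold Wb
    linarith

theorem tlog2 {b : ℝ} (hb : 1 < b) :
    Tendsto (fun n : ℕ => Real.log (2 * b ^ n) / Real.log (b ^ n)) atTop (𝓝 1) := by
  have h1 : Tendsto (fun n : ℕ => Real.log 2 / Real.log (b ^ n) + 1) atTop (𝓝 (0 + 1)) :=
    ((tlog hb).const_div_atTop _).add_const 1
  rw [zero_add] at h1
  refine h1.congr' ?_
  filter_upwards [(tlog hb).eventually_gt_atTop 0] with n hn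
  have hb0 : 0 < b ^ n := by positivity
  rw [Real.log_mul (by norm_num) hb0.ne']
  field_simp

theorem window_mem {b a : ℝ} (hb : 1 < b) (ha : 0 < a) :
    ∀ᶠ n : ℕ in atTop, ∀ k ∈ Wb b a n, b ^ n ≤ (k : ℝ) ∧ (k : ℝ) ≤ 2 * b ^ n := by
  filter_upwards [(tpow hb).eventually (ev_LL_le (a := a) ha one_pos), (tLL hb).eventually_ge_atTop 0] with n h1 h2 k hk
  have hb0 : 0 < b ^ n := by positivity
  unfold Wb at hk
  rw [Finset.mem_Ioc, Nat.floor_lt hb0.le, Nat.le_floor_iff (by positivity)] at hk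
  constructor <;> linarith [hk.1, hk.2]

theorem ae_FT (hA : IsCramer μ A) {b a g : ℝ} (hb : 1 < b) (ha : 0 < a) (hag : a < g) (h : rate a g < 1) :
    ∀ᵐ ω ∂μ, FT (A ω) b a g := by
  have hg : 0 < g := by linarith
  have hr0 := rate_pos ha hg hag.ne
  obtain ⟨κ, hκ1, hκ2⟩ := exists_between h
  have hm : Tendsto (fun n : ℕ => ((⌈g * Real.log (Real.log (b ^ n))⌉₊ : ℕ) : ℝ) / Real.log (Real.log (b ^ n)))
      atTop (𝓝 g) := (tendsto_nat_ceil_mul_div_atTop hg.le).comp (tll hb)
  have hq := q_gen hg ha hκ1 (tlog hb) (tll hb) (tlog2 hb) (tcard hb ha) hm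
  have hmain := freq_block (μ := μ) hA hb ha (show 0 < κ by linarith) hκ2
    (fun n T => ⌈g * Real.log (Real.log (b ^ n))⌉₊ ≤ T.card) (by
      filter_upwards [hq, window_mem hb ha, (tlog hb).eventually_gt_atTop 1] with n h1 h2 h3
      exact h1.trans (point_bound_ge h3 (by positivity) h2 _))
  filter_upwards [hmain] with ω hω
  unfold FT
  refine (hω.and_eventually ((tLL hb).eventually_ge_atTop 0)).mono ?_
  rintro n ⟨h1, h2⟩
  rw [Cnt_real (by positivity) (by positivity)]
  exact (Nat.le_ceil _).trans (by exact_mod_cast h1)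

theorem ae_FB (hA : IsCramer μ A) {b a g : ℝ} (hb : 1 < b) (hg : 0 < g) (hga : g < a) (h : rate a g < 1) :
    ∀ᵐ ω ∂μ, FB (A ω) b a g := by
  have ha : 0 < a := by linarith
  have hr0 := rate_pos ha hg hga.ne'
  obtain ⟨κ, hκ1, hκ2⟩ := exists_between h
  have hm : Tendsto (fun n : ℕ => ((⌊g * Real.log (Real.log (b ^ n))⌋₊ : ℕ) : ℝ) / Real.log (Real.log (b ^ n)))
      atTop (𝓝 g) := (tendsto_nat_floor_mul_div_atTop hg.le).comp (tll hb)
  have hq := q_gen hg ha hκ1 (tlog hb) (tll hb) (tlog2 hb) (tcard hb ha) hm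
  have hmain := freq_block (μ := μ) hA hb ha (show 0 < κ by linarith) hκ2
    (fun n T => T.card ≤ ⌊g * Real.log (Real.log (b ^ n))⌋₊) (by
      filter_upwards [hq, window_mem hb ha, (tlog hb).eventually_gt_atTop 1] with n h1 h2 h3
      exact h1.trans (point_bound h3 (by positivity) h2 _))
  filter_upwards [hmain] with ω hω
  unfold FB
  refine (hω.and_eventually (((tLL hb).eventually_ge_atTop 0).and ((tll hb).eventually_ge_atTop 0))).mono ?_
  rintro n ⟨h1, h2, h3⟩
  rw [Cnt_real (by positivity) (by positivity)]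
  have h4 : ((tr A (Wb b a n) ω).card : ℝ) ≤ ((⌊g * Real.log (Real.log (b ^ n))⌋₊ : ℕ) : ℝ) := by exact_mod_cast h1
  exact h4.trans (Nat.floor_le (by positivity))

end Pool.Agent.Q166.GC
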