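import Pool.Agent.Q166.GC.I

/-!
# Cramér's model: windows of length at least `c log x log log x` above the powers of almost every base
-/

set_option autoImplicit false

namespace Pool.Agent.Q166.GC

open Finset MeasureTheory Filter Topology Pool.Agent.Q120.ET Pool.Agent.Q120.MF Pool.Agent.Q120.EX Pool.Agent.Q166.EB

/-- measurability of the number of elements -/
theorem measurable_Cnt {Z : Type} [MeasurableSpace Z] {B : Z → Set ℕ} (hB : ∀ k, MeasurableSet {z | k ∈ B z})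
    {x h : Z → ℝ} (hx : Measurable x) (hh : Measurable h) : Measurable fun z => Cnt (B z) (x z) (h z) := by
  apply measurable_of_Ici
  intro j
  have h1 : (fun z => Cnt (B z) (x z) (h z)) ⁻¹' Set.Ici j = ⋃ (T : Finset ℕ) (_ : T.card = j), ⋂ m ∈ T,
      ({z | m ∈ B z} ∩ ({z | x z < (m : ℝ)} ∩ {z | (m : ℝ) ≤ x z + h z})) := by
    ext z
    simp only [Set.mem_preimage, Set.mem_Ici, Set.mem_iUnion, Set.mem_iInter, Set.mem_inter_iff, Set.mem_ofPred_eq,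
      exists_prop]
    unfold Cnt
    have hfin : {m : ℕ | m ∈ B z ∧ x z < (m : ℝ) ∧ (m : ℝ) ≤ x z + h z}.Finite :=
      (Set.finite_Iic ⌊x z + h z⌋₊).subset fun m hm => Nat.le_floor hm.2.2
    constructor
    · intro h2
      rw [Set.ncard_eq_toFinset_card _ hfin] at h2
      obtain ⟨T, hT1, hT2⟩ := Finset.exists_subset_card_eq h2
      exact ⟨T, hT2, fun m hm => (hfin.mem_toFinset.1 (hT1 hm))⟩
    · rintro ⟨T, hT1, hT2⟩
      rw [← hT1, ← Set.ncard_coe_finset]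
      exact Set.ncard_le_ncard (fun m hm => hT2 m hm) hfin
  rw [h1]
  refine MeasurableSet.iUnion fun T => MeasurableSet.iUnion fun _ => Finset.measurableSet_biInter _ fun m _ => ?_
  exact (hB m).inter ((measurableSet_lt hx measurable_const).inter
    (measurableSet_le measurable_const (hx.add hh)))

theorem meas_ev {Z : Type} [MeasurableSpace Z] {P : ℕ → Z → Prop} (h : ∀ n, MeasurableSet {z | P n z}) :
    MeasurableSet {z | ∀ᶠ n in atTop, P n z} := by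
  have h1 : {z | ∀ᶠ n in atTop, P n z} = ⋃ N : ℕ, ⋂ n : ℕ, ⋂ (_ : N ≤ n), {z | P n z} := by
    ext z
    simp only [Set.mem_ofPred_eq, Set.mem_iUnion, Set.mem_iInter, eventually_atTop]
  rw [h1]
  exact MeasurableSet.iUnion fun N => MeasurableSet.iInter fun n => MeasurableSet.iInter fun _ => h n

theorem meas_fr {Z : Type} [MeasurableSpace Z] {P : ℕ → Z → Prop} (h : ∀ n, MeasurableSet {z | P n z}) :
    MeasurableSet {z | ∃ᶠ n in atTop, P n z} := by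
  have h1 : {z | ∃ᶠ n in atTop, P n z} = {z | ∀ᶠ n in atTop, ¬ P n z}ᶜ := by
    ext z
    simp only [Set.mem_ofPred_eq, Set.mem_compl_iff]
    rfl
  rw [h1]
  exact (meas_ev fun n => (h n).compl).compl

theorem measurable_LL' : Measurable LL := by
  unfold LL
  exact Real.measurable_log.mul (Real.measurable_log.comp Real.measurable_log)

section model

variable {Ω : Type} [MeasurableSpace Ω] {μ : Measure Ω} [IsProbabilityMeasure μ] {A : Ω → Set ℕ}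

theorem meas_pow (n : ℕ) : Measurable fun z : Ω × ℝ => z.2 ^ n := measurable_snd.pow_const n

theorem meas_count (hA : ∀ k, MeasurableSet {ω | k ∈ A ω}) (n : ℕ) (d : ℝ) :
    Measurable fun z : Ω × ℝ => (Cnt (A z.1) (z.2 ^ n) (d * LL (z.2 ^ n)) : ℝ) := by
  have h1 := measurable_Cnt (B := fun z : Ω × ℝ => A z.1) (fun k => measurable_fst (hA k)) (meas_pow n)
    ((measurable_LL'.comp (meas_pow n)).const_mul d)
  exact measurable_from_nat.comp h1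

theorem meas_ll (n : ℕ) (d : ℝ) : Measurable fun z : Ω × ℝ => d * Real.log (Real.log (z.2 ^ n)) :=
  (Real.measurable_log.comp (Real.measurable_log.comp (meas_pow n))).const_mul d

theorem meas_GT (hA : ∀ k, MeasurableSet {ω | k ∈ A ω}) (c u q : ℝ) :
    MeasurableSet {z : Ω × ℝ | GT (A z.1) z.2 c u q} := by
  unfold GT
  refine meas_ev fun n => ?_
  have h1 : {z : Ω × ℝ | ∀ j ≤ n ^ 2, (Cnt (A z.1) (z.2 ^ n) (c * q ^ j * LL (z.2 ^ n)) : ℝ) <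
      u * (c * q ^ j * Real.log (Real.log (z.2 ^ n)))} = ⋂ j : ℕ, ⋂ (_ : j ≤ n ^ 2),
      {z : Ω × ℝ | (Cnt (A z.1) (z.2 ^ n) (c * q ^ j * LL (z.2 ^ n)) : ℝ) <
        u * (c * q ^ j * Real.log (Real.log (z.2 ^ n)))} := by
    ext z
    simp only [Set.mem_ofPred_eq, Set.mem_iInter]
  rw [h1]
  exact MeasurableSet.iInter fun j => MeasurableSet.iInter fun _ =>
    measurableSet_lt (meas_count hA n _) ((meas_ll n _).const_mul u)

theorem meas_GB (hA : ∀ k, MeasurableSet {ω | k ∈ A ω}) (c w q : ℝ) :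
    MeasurableSet {z : Ω × ℝ | GB (A z.1) z.2 c w q} := by
  unfold GB
  refine meas_ev fun n => ?_
  have h1 : {z : Ω × ℝ | ∀ j ≤ n ^ 2, c * q ^ j * LL (z.2 ^ n) ≤ z.2 ^ n →
      w * (c * q ^ j * Real.log (Real.log (z.2 ^ n))) < (Cnt (A z.1) (z.2 ^ n) (c * q ^ j * LL (z.2 ^ n)) : ℝ)} =
      ⋂ j : ℕ, ⋂ (_ : j ≤ n ^ 2), ({z : Ω × ℝ | c * q ^ j * LL (z.2 ^ n) ≤ z.2 ^ n}ᶜ ∪
      {z : Ω × ℝ | w * (c * q ^ j * Real.log (Real.log (z.2 ^ n))) <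
        (Cnt (A z.1) (z.2 ^ n) (c * q ^ j * LL (z.2 ^ n)) : ℝ)}) := by
    ext z
    simp only [Set.mem_ofPred_eq, Set.mem_iInter, Set.mem_union, Set.mem_compl_iff]
    refine forall₂_congr fun j _ => ?_
    tauto
  rw [h1]
  exact MeasurableSet.iInter fun j => MeasurableSet.iInter fun _ =>
    (measurableSet_le ((measurable_LL'.comp (meas_pow n)).const_mul _) (meas_pow n)).compl.union
      (measurableSet_lt ((meas_ll n _).const_mul w) (meas_count hA n _))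

theorem meas_FT (hA : ∀ k, MeasurableSet {ω | k ∈ A ω}) (a g : ℝ) :
    MeasurableSet {z : Ω × ℝ | FT (A z.1) z.2 a g} := by
  unfold FT
  exact meas_fr fun n => measurableSet_le (meas_ll n _) (meas_count hA n _)

theorem meas_FB (hA : ∀ k, MeasurableSet {ω | k ∈ A ω}) (a g : ℝ) :
    MeasurableSet {z : Ω × ℝ | FB (A z.1) z.2 a g} := by
  unfold FB
  exact meas_fr fun n => measurableSet_le (meas_count hA n _) (meas_ll n _)

/-- Fubini's theorem -/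
theorem fubini_ae {P : Set ℕ → ℝ → Prop} (hm : MeasurableSet {z : Ω × ℝ | P (A z.1) z.2})
    (h : ∀ b : ℝ, 1 < b → ∀ᵐ ω ∂μ, P (A ω) b) : ∀ᵐ ω ∂μ, ∀ᵐ b : ℝ, 1 < b → P (A ω) b := by
  have hm2 : MeasurableSet {z : Ω × ℝ | 1 < z.2 → P (A z.1) z.2} := by
    have e3 : MeasurableSet {z : Ω × ℝ | 1 < z.2} := measurableSet_lt measurable_const measurable_snd
    have e4 : {z : Ω × ℝ | 1 < z.2 → P (A z.1) z.2} = {z : Ω × ℝ | 1 < z.2}ᶜ ∪ {z : Ω × ℝ | P (A z.1) z.2} := by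
      ext z
      simp only [Set.mem_ofPred_eq, Set.mem_union, Set.mem_compl_iff]
      tauto
    rw [e4]
    exact e3.compl.union hm
  rw [Measure.ae_ae_comm hm2]
  refine Eventually.of_forall fun b => ?_
  by_cases hb : 1 < b
  · filter_upwards [h b hb] with ω hω _
    exact hω
  · exact Eventually.of_forall fun ω h => absurd h hb

/-- the properties of one base, with rational parameters -/
structure Base (S : Set ℕ) (b : ℝ) : Prop where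
  gt : ∀ c u q : ℚ, (0 : ℝ) < c → (1 : ℝ) < u → (1 : ℝ) < q → 1 < (c : ℝ) * f u → GT S b c u q
  gb : ∀ c w q : ℚ, (0 : ℝ) < c → (0 : ℝ) < w → (w : ℝ) < 1 → (1 : ℝ) < q → 1 < (c : ℝ) * f w → GB S b c w q
  ft : ∀ a g : ℚ, (0 : ℝ) < a → (a : ℝ) < g → rate a g < 1 → FT S b a g
  fb : ∀ a g : ℚ, (0 : ℝ) < g → (g : ℝ) < a → rate a g < 1 → FB S b a g

theorem ae_base (hA : IsCramer μ A) : ∀ᵐ ω ∂μ, ∀ᵐ b : ℝ, 1 < b → Base (A ω) b := by
  have h1 : ∀ᵐ ω ∂μ, ∀ p : ℚ × ℚ × ℚ, (0 : ℝ) < p.1 ∧ (1 : ℝ) < p.2.1 ∧ (1 : ℝ) < p.2.2 ∧ 1 < (p.1 : ℝ) * f p.2.1 →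
      ∀ᵐ b : ℝ, 1 < b → GT (A ω) b p.1 p.2.1 p.2.2 := by
    rw [ae_all_iff]
    rintro ⟨c, u, q⟩
    by_cases h : (0 : ℝ) < c ∧ (1 : ℝ) < u ∧ (1 : ℝ) < q ∧ 1 < (c : ℝ) * f u
    · filter_upwards [fubini_ae (μ := μ) (A := A) (P := fun S b => GT S b c u q) (meas_GT hA.random c u q)
        (fun b hb => ae_GT hA hb h.1 h.2.1 h.2.2.1 h.2.2.2)] with ω hω _
      exact hω
    · exact Eventually.of_forall fun ω h' => absurd h' h
  have h2 : ∀ᵐ ω ∂μ, ∀ p : ℚ × ℚ × ℚ, (0 : ℝ) < p.1 ∧ (0 : ℝ) < p.2.1 ∧ (p.2.1 : ℝ) < 1 ∧ (1 : ℝ) < p.2.2 ∧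
      1 < (p.1 : ℝ) * f p.2.1 → ∀ᵐ b : ℝ, 1 < b → GB (A ω) b p.1 p.2.1 p.2.2 := by
    rw [ae_all_iff]
    rintro ⟨c, w, q⟩
    by_cases h : (0 : ℝ) < c ∧ (0 : ℝ) < w ∧ (w : ℝ) < 1 ∧ (1 : ℝ) < q ∧ 1 < (c : ℝ) * f w
    · filter_upwards [fubini_ae (μ := μ) (A := A) (P := fun S b => GB S b c w q) (meas_GB hA.random c w q)
        (fun b hb => ae_GB hA hb h.1 h.2.1 h.2.2.1 h.2.2.2.1 h.2.2.2.2)] with ω hω _
      exact hω
    · exact Eventually.of_forall fun ω h' => absurd h' h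
  have h3 : ∀ᵐ ω ∂μ, ∀ p : ℚ × ℚ, (0 : ℝ) < p.1 ∧ (p.1 : ℝ) < p.2 ∧ rate p.1 p.2 < 1 →
      ∀ᵐ b : ℝ, 1 < b → FT (A ω) b p.1 p.2 := by
    rw [ae_all_iff]
    rintro ⟨a, g⟩
    by_cases h : (0 : ℝ) < a ∧ (a : ℝ) < g ∧ rate a g < 1
    · filter_upwards [fubini_ae (μ := μ) (A := A) (P := fun S b => FT S b a g) (meas_FT hA.random a g)
        (fun b hb => ae_FT hA hb h.1 h.2.1 h.2.2)] with ω hω _
      exact hω
    · exact Eventually.of_forall fun ω h' => absurd h' h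
  have h4 : ∀ᵐ ω ∂μ, ∀ p : ℚ × ℚ, (0 : ℝ) < p.2 ∧ (p.2 : ℝ) < p.1 ∧ rate p.1 p.2 < 1 →
      ∀ᵐ b : ℝ, 1 < b → FB (A ω) b p.1 p.2 := by
    rw [ae_all_iff]
    rintro ⟨a, g⟩
    by_cases h : (0 : ℝ) < g ∧ (g : ℝ) < a ∧ rate a g < 1
    · filter_upwards [fubini_ae (μ := μ) (A := A) (P := fun S b => FB S b a g) (meas_FB hA.random a g)
        (fun b hb => ae_FB hA hb h.1 h.2.1 h.2.2)] with ω hω _
      exact hω
    · exact Eventually.of_forall fun ω h' => absurd h' h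
  filter_upwards [h1, h2, h3, h4] with ω e1 e2 e3 e4
  have g1 : ∀ᵐ b : ℝ, ∀ p : ℚ × ℚ × ℚ, (0 : ℝ) < p.1 ∧ (1 : ℝ) < p.2.1 ∧ (1 : ℝ) < p.2.2 ∧
      1 < (p.1 : ℝ) * f p.2.1 → 1 < b → GT (A ω) b p.1 p.2.1 p.2.2 := by
    rw [ae_all_iff]
    intro p
    by_cases h : (0 : ℝ) < p.1 ∧ (1 : ℝ) < p.2.1 ∧ (1 : ℝ) < p.2.2 ∧ 1 < (p.1 : ℝ) * f p.2.1
    · filter_upwards [e1 p h] with b hb _
      exact hb
    · exact Eventually.of_forall fun b h' => absurd h' h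
  have g2 : ∀ᵐ b : ℝ, ∀ p : ℚ × ℚ × ℚ, (0 : ℝ) < p.1 ∧ (0 : ℝ) < p.2.1 ∧ (p.2.1 : ℝ) < 1 ∧ (1 : ℝ) < p.2.2 ∧
      1 < (p.1 : ℝ) * f p.2.1 → 1 < b → GB (A ω) b p.1 p.2.1 p.2.2 := by
    rw [ae_all_iff]
    intro p
    by_cases h : (0 : ℝ) < p.1 ∧ (0 : ℝ) < p.2.1 ∧ (p.2.1 : ℝ) < 1 ∧ (1 : ℝ) < p.2.2 ∧ 1 < (p.1 : ℝ) * f p.2.1
    · filter_upwards [e2 p h] with b hb _
      exact hb
    · exact Eventually.of_forall fun b h' => absurd h' h
  have g3 : ∀ᵐ b : ℝ, ∀ p : ℚ × ℚ, (0 : ℝ) < p.1 ∧ (p.1 : ℝ) < p.2 ∧ rate p.1 p.2 < 1 → 1 < b →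
      FT (A ω) b p.1 p.2 := by
    rw [ae_all_iff]
    intro p
    by_cases h : (0 : ℝ) < p.1 ∧ (p.1 : ℝ) < p.2 ∧ rate p.1 p.2 < 1
    · filter_upwards [e3 p h] with b hb _
      exact hb
    · exact Eventually.of_forall fun b h' => absurd h' h
  have g4 : ∀ᵐ b : ℝ, ∀ p : ℚ × ℚ, (0 : ℝ) < p.2 ∧ (p.2 : ℝ) < p.1 ∧ rate p.1 p.2 < 1 → 1 < b →
      FB (A ω) b p.1 p.2 := by
    rw [ae_all_iff]
    intro p
    by_cases h : (0 : ℝ) < p.2 ∧ (p.2 : ℝ) < p.1 ∧ rate p.1 p.2 < 1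
    · filter_upwards [e4 p h] with b hb _
      exact hb
    · exact Eventually.of_forall fun b h' => absurd h' h
  filter_upwards [g1, g2, g3, g4] with b k1 k2 k3 k4 hb
  exact ⟨fun c u q h1 h2 h3 h4 => k1 (c, u, q) ⟨h1, h2, h3, h4⟩ hb,
    fun c w q h1 h2 h3 h4 h5 => k2 (c, w, q) ⟨h1, h2, h3, h4, h5⟩ hb,
    fun a g h1 h2 h3 => k3 (a, g) ⟨h1, h2, h3⟩ hb, fun a g h1 h2 h3 => k4 (a, g) ⟨h1, h2, h3⟩ hb⟩

end model

/-! ### Real parameters, all lengths -/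

/-- `R_H(x)`: the number of elements of `S` in `(x, x + H]` divided by `H / log x`. -/
noncomputable def R (S : Set ℕ) (H x : ℝ) : ℝ := (Cnt S x H : ℝ) / (H / Real.log x)

/-- rational parameters near `(c, u)` -/
theorem exists_cf {c u : ℝ} (hc : 0 < c) (hu : 0 < u) (h : 1 < c * f u) :
    ∃ r : ℝ, 0 < r ∧ ∀ c' u' : ℝ, |c' - c| < r → |u' - u| < r → 1 < c' * f u' := by
  have h1 : ContinuousAt (fun p : ℝ × ℝ => p.1 * f p.2) (c, u) := by
    unfold f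
    have h2 : (c, u).2 ≠ 0 := hu.ne'
    fun_prop (disch := assumption)
  have h2 := h1.eventually_const_lt h
  rw [Metric.eventually_nhds_iff] at h2
  obtain ⟨r, hr, h⟩ := h2
  refine ⟨r, hr, fun k' c' h3 h4 => ?_⟩
  exact h (y := (k', c')) (by
    rw [Prod.dist_eq, max_lt_iff, Real.dist_eq, Real.dist_eq]
    exact ⟨h3, h4⟩)

/-- the position of a length in the grid -/
theorem grid_pos {b q c : ℝ} (hb : 1 < b) (hq : 1 < q) (hc : 0 < c) : ∀ᶠ n : ℕ in atTop, ∀ H : ℝ,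
    c * LL (b ^ n) ≤ H → H ≤ b ^ n → ∃ j : ℕ, j + 1 ≤ n ^ 2 ∧ c * q ^ j * LL (b ^ n) ≤ H ∧
      H ≤ c * q ^ (j + 1) * LL (b ^ n) := by
  have hlq : 0 < Real.log q := Real.log_pos hq
  have hlb : 0 < Real.log b := Real.log_pos hb
  filter_upwards [(tLL hb).eventually_ge_atTop (1 / c), (tLL hb).eventually_gt_atTop 0,
    tn.eventually_ge_atTop (Real.log b / Real.log q + 1), tn.eventually_ge_atTop 1] with n h1 h2 h3 h4 H hH1 hH2
  have h5 : 1 ≤ c * LL (b ^ n) := by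
    rw [div_le_iff₀ hc] at h1
    linarith
  have h6 : 1 ≤ H / (c * LL (b ^ n)) := by
    rw [one_le_div (by linarith)]
    exact hH1
  obtain ⟨j, hj1, hj2⟩ := exists_nat_pow_near h6 hq
  rw [le_div_iff₀ (by linarith)] at hj1
  rw [div_lt_iff₀ (by linarith)] at hj2
  refine ⟨j, ?_, by linarith, by linarith⟩
  have h7 : q ^ j ≤ b ^ n := by
    have hqj : 0 < q ^ j := by positivity
    nlinarith
  have h8 := Real.log_le_log (by positivity) h7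
  rw [Real.log_pow, Real.log_pow] at h8
  have h9 : (j : ℝ) ≤ n * (Real.log b / Real.log q) := by
    rw [← mul_div_assoc, le_div_iff₀ hlq]
    exact h8
  have h10 : (j : ℝ) + 1 ≤ (n : ℝ) ^ 2 := by nlinarith
  have h11 : ((j + 1 : ℕ) : ℝ) ≤ ((n ^ 2 : ℕ) : ℝ) := by
    push_cast
    exact h10
  exact_mod_cast h11

variable {S : Set ℕ}


end Pool.Agent.Q166.GC
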