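import Pool.Agent.Q166.GC.J

/-!
# Cramér's model: all window lengths at once
-/

set_option autoImplicit false

namespace Pool.Agent.Q166.GC

open Finset MeasureTheory Filter Topology Pool.Agent.Q120.ET Pool.Agent.Q120.MF Pool.Agent.Q120.EX
  Pool.Agent.Q166.Sq Pool.Agent.Q166.EB

variable {S : Set ℕ} {b : ℝ}

theorem R_lt_iff {H x u : ℝ} (hH : 0 < H) (hx : 0 < Real.log x) : R S H x < u ↔ (Cnt S x H : ℝ) < u * (H / Real.log x) := by
  unfold R
  rw [div_lt_iff₀ (by positivity)]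

theorem lt_R_iff {H x w : ℝ} (hH : 0 < H) (hx : 0 < Real.log x) : w < R S H x ↔ w * (H / Real.log x) < (Cnt S x H : ℝ) := by
  unfold R
  rw [lt_div_iff₀ (by positivity)]

/-- **Not too many elements**, for all lengths at least `c log x log log x`. -/
theorem Base.evU (hS : Base S b) (hb : 1 < b) {c u : ℝ} (hc : 0 < c) (hu : 1 < u) (h : 1 < c * f u) :
    ∀ᶠ n : ℕ in atTop, ∀ H : ℝ, c * LL (b ^ n) ≤ H → H ≤ b ^ n → R S H (b ^ n) < u := by
  obtain ⟨r, hr, hcf⟩ := exists_cf hc (show 0 < u by linarith) h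
  obtain ⟨c1, hc1, hc2⟩ := exists_rat_btwn (show max (c - r) 0 < c from max_lt (by linarith) hc)
  obtain ⟨u1, hu1, hu2⟩ := exists_rat_btwn (show max (u - r) 1 < u from max_lt (by linarith) hu)
  rw [max_lt_iff] at hc1 hu1
  have hcu := hcf c1 u1 (by rw [abs_lt]; constructor <;> linarith [hc1.1]) (by rw [abs_lt]; constructor <;> linarith [hu1.1])
  have hu10 : (0 : ℝ) < u1 := by linarith [hu1.2]
  obtain ⟨q, hq1, hq2⟩ := exists_rat_btwn (show 1 < u / u1 by rw [lt_div_iff₀ hu10]; linarith)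
  rw [lt_div_iff₀ hu10] at hq2
  filter_upwards [hS.gt c1 u1 q hc1.2 hu1.2 hq1 hcu, grid_pos hb hq1 hc1.2, (tLL hb).eventually_gt_atTop 0,
    (tlog hb).eventually_gt_atTop 0, (tll hb).eventually_gt_atTop 0] with n e1 e2 e3 e4 e5 H hH1 hH2
  have hcL : (c1 : ℝ) * LL (b ^ n) ≤ c * LL (b ^ n) := mul_le_mul_of_nonneg_right hc2.le e3.le
  have hH0 : 0 < H := lt_of_lt_of_le (mul_pos hc e3) hH1
  obtain ⟨j, hj, hj1, hj2⟩ := e2 H (hcL.trans hH1) hH2
  rw [R_lt_iff hH0 e4]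
  have k1 := e1 (j + 1) hj
  have k2 : (Cnt S (b ^ n) H : ℝ) ≤ Cnt S (b ^ n) (c1 * q ^ (j + 1) * LL (b ^ n)) := by
    refine Nat.cast_le.2 (Cnt_mono (le_refl (b ^ n)) ?_)
    linarith
  have hc10 : (0 : ℝ) < c1 := hc1.2
  have hq0 : (0 : ℝ) < q := by linarith
  have k3 : (c1 : ℝ) * q ^ j * Real.log (Real.log (b ^ n)) ≤ H / Real.log (b ^ n) := by
    rw [le_div_iff₀ e4]
    refine le_trans (le_of_eq ?_) hj1
    unfold LL
    ring
  have k4 : 0 < (c1 : ℝ) * q ^ j * Real.log (Real.log (b ^ n)) := by positivity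
  calc (Cnt S (b ^ n) H : ℝ) < u1 * (c1 * q ^ (j + 1) * Real.log (Real.log (b ^ n))) := lt_of_le_of_lt k2 k1
    _ = (q * u1) * (c1 * q ^ j * Real.log (Real.log (b ^ n))) := by ring
    _ ≤ u * (c1 * q ^ j * Real.log (Real.log (b ^ n))) := mul_le_mul_of_nonneg_right hq2.le k4.le
    _ ≤ u * (H / Real.log (b ^ n)) := mul_le_mul_of_nonneg_left k3 (by linarith)

/-- **Not too few elements**, for all lengths at least `c log x log log x`. -/
theorem Base.evL (hS : Base S b) (hb : 1 < b) {c w : ℝ} (hc : 0 < c) (hw0 : 0 < w) (hw : w < 1) (h : 1 < c * f w) :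
    ∀ᶠ n : ℕ in atTop, ∀ H : ℝ, c * LL (b ^ n) ≤ H → H ≤ b ^ n → w < R S H (b ^ n) := by
  obtain ⟨r, hr, hcf⟩ := exists_cf hc hw0 h
  obtain ⟨c1, hc1, hc2⟩ := exists_rat_btwn (show max (c - r) 0 < c from max_lt (by linarith) hc)
  obtain ⟨w1, hw1, hw2⟩ := exists_rat_btwn (show w < min (w + r) 1 from lt_min (by linarith) hw)
  rw [max_lt_iff] at hc1
  rw [lt_min_iff] at hw2
  have hcu := hcf c1 w1 (by rw [abs_lt]; constructor <;> linarith [hc1.1]) (by rw [abs_lt]; constructor <;> linarith [hw2.1])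
  have hw10 : (0 : ℝ) < w1 := by linarith
  obtain ⟨q, hq1, hq2⟩ := exists_rat_btwn (show 1 < w1 / w by rw [lt_div_iff₀ hw0]; linarith)
  rw [lt_div_iff₀ hw0] at hq2
  filter_upwards [hS.gb c1 w1 q hc1.2 hw10 hw2.2 hq1 hcu, grid_pos hb hq1 hc1.2, (tLL hb).eventually_gt_atTop 0,
    (tlog hb).eventually_gt_atTop 0, (tll hb).eventually_gt_atTop 0] with n e1 e2 e3 e4 e5 H hH1 hH2
  have hcL : (c1 : ℝ) * LL (b ^ n) ≤ c * LL (b ^ n) := mul_le_mul_of_nonneg_right hc2.le e3.le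
  have hH0 : 0 < H := lt_of_lt_of_le (mul_pos hc e3) hH1
  obtain ⟨j, hj, hj1, hj2⟩ := e2 H (hcL.trans hH1) hH2
  rw [lt_R_iff hH0 e4]
  have k1 := e1 j (by omega) (hj1.trans hH2)
  have k2 : (Cnt S (b ^ n) (c1 * q ^ j * LL (b ^ n)) : ℝ) ≤ Cnt S (b ^ n) H := by
    refine Nat.cast_le.2 (Cnt_mono (le_refl (b ^ n)) ?_)
    linarith
  have hc10 : (0 : ℝ) < c1 := hc1.2
  have hq0 : (0 : ℝ) < q := by linarith
  have k3 : H / Real.log (b ^ n) ≤ (c1 : ℝ) * q ^ (j + 1) * Real.log (Real.log (b ^ n)) := by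
    rw [div_le_iff₀ e4]
    refine hj2.trans (le_of_eq ?_)
    unfold LL
    ring
  have k4 : 0 < (c1 : ℝ) * q ^ j * Real.log (Real.log (b ^ n)) := by positivity
  calc w * (H / Real.log (b ^ n)) ≤ w * (c1 * q ^ (j + 1) * Real.log (Real.log (b ^ n))) :=
        mul_le_mul_of_nonneg_left k3 hw0.le
    _ = (q * w) * (c1 * q ^ j * Real.log (Real.log (b ^ n))) := by ring
    _ ≤ w1 * (c1 * q ^ j * Real.log (Real.log (b ^ n))) := mul_le_mul_of_nonneg_right hq2.le k4.le
    _ < (Cnt S (b ^ n) (c1 * q ^ j * LL (b ^ n)) : ℝ) := k1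
    _ ≤ _ := k2

/-- **Many elements infinitely often.** -/
theorem Base.frU (hS : Base S b) (hb : 1 < b) {c u : ℝ} (hc : 0 < c) (hu : 1 < u) (h : c * f u < 1) :
    ∃ᶠ n : ℕ in atTop, u ≤ R S (c * LL (b ^ n)) (b ^ n) := by
  rw [← rate_eq hc (by linarith)] at h
  obtain ⟨a', g', e1, e2, e3, e4, e5, e6⟩ := exists_du hc (show 0 < u * c by positivity)
    (show 0 < 1 - rate c (u * c) by linarith) (show (0 : ℝ) < 1 by norm_num)
  have e7 := (abs_lt.1 e6).2
  have hkc : c < u * c := by nlinarith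
  have e3' : (0 : ℝ) < a' := by exact_mod_cast e3
  have h1 := hS.ft a' g' e3' (by linarith) (by linarith)
  unfold FT at h1
  refine (h1.and_eventually (((tLL hb).eventually_gt_atTop 0).and (((tlog hb).eventually_gt_atTop 0).and
    ((tll hb).eventually_gt_atTop 0)))).mono ?_
  rintro n ⟨h2, h3, h4, h5⟩
  have hH0 : 0 < c * LL (b ^ n) := mul_pos hc h3
  rw [← not_lt, R_lt_iff hH0 h4, not_lt, ratio_LL h4]
  have k2 : (Cnt S (b ^ n) (a' * LL (b ^ n)) : ℝ) ≤ Cnt S (b ^ n) (c * LL (b ^ n)) := by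
    refine Nat.cast_le.2 (Cnt_mono (le_refl (b ^ n)) ?_)
    have := mul_le_mul_of_nonneg_right e1.le h3.le
    linarith
  have k3 : u * c * Real.log (Real.log (b ^ n)) ≤ g' * Real.log (Real.log (b ^ n)) :=
    mul_le_mul_of_nonneg_right e4.le h5.le
  linarith

/-- **Few elements infinitely often.** -/
theorem Base.frL (hS : Base S b) (hb : 1 < b) {c w : ℝ} (hc : 0 < c) (hw0 : 0 < w) (hw : w < 1) (h : c * f w < 1) :
    ∃ᶠ n : ℕ in atTop, R S (c * LL (b ^ n)) (b ^ n) ≤ w := by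
  rw [← rate_eq hc hw0] at h
  obtain ⟨a', g', e1, e2, e3, e4, e5, e6⟩ := exists_ud hc (show 0 < w * c by positivity)
    (show 0 < 1 - rate c (w * c) by linarith) (show (0 : ℝ) < 1 by norm_num)
  have e7 := (abs_lt.1 e6).2
  have hkc : w * c < c := by nlinarith
  have e5' : (0 : ℝ) < g' := by exact_mod_cast e5
  have h1 := hS.fb a' g' e5' (by linarith) (by linarith)
  unfold FB at h1
  refine (h1.and_eventually (((tLL hb).eventually_gt_atTop 0).and (((tlog hb).eventually_gt_atTop 0).and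
    ((tll hb).eventually_gt_atTop 0)))).mono ?_
  rintro n ⟨h2, h3, h4, h5⟩
  have hH0 : 0 < c * LL (b ^ n) := mul_pos hc h3
  rw [← not_lt, lt_R_iff hH0 h4, not_lt, ratio_LL h4]
  have k2 : (Cnt S (b ^ n) (c * LL (b ^ n)) : ℝ) ≤ Cnt S (b ^ n) (a' * LL (b ^ n)) := by
    refine Nat.cast_le.2 (Cnt_mono (le_refl (b ^ n)) ?_)
    have := mul_le_mul_of_nonneg_right e1.le h3.le
    linarith
  have k3 : g' * Real.log (Real.log (b ^ n)) ≤ w * c * Real.log (Real.log (b ^ n)) :=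
    mul_le_mul_of_nonneg_right e3.le h5.le
  linarith

/-! ### All starting points -/

/-- not too many elements after any large integer -/
def GT1 (S : Set ℕ) (c u q : ℝ) : Prop := ∀ᶠ m : ℕ in atTop, ∀ j ≤ m,
  (Cnt S m (c * q ^ j * Real.log m ^ 2) : ℝ) < u * (c * q ^ j * Real.log m)

/-- not too few elements after any large integer -/
def GB1 (S : Set ℕ) (c w q : ℝ) : Prop := ∀ᶠ m : ℕ in atTop, ∀ j ≤ m, c * q ^ j * Real.log m ^ 2 ≤ m →
  w * (c * q ^ j * Real.log m) < (Cnt S m (c * q ^ j * Real.log m ^ 2) : ℝ)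

section model

variable {Ω : Type*} [MeasurableSpace Ω] {μ : Measure Ω} [IsProbabilityMeasure μ] {A : Ω → Set ℕ}

theorem summable_l {s C : ℝ} (hs : 1 < s) : Summable fun m : ℕ => C * Real.exp (-(s * Real.log (m : ℝ))) := by
  have h1 : Summable fun n : ℕ => C * (n : ℝ) ^ (-s) := (Real.summable_nat_rpow.2 (by linarith)).mul_left C
  refine h1.congr_atTop ?_
  filter_upwards [eventually_ge_atTop 1] with n hn
  have hn0 : (0 : ℝ) < n := by exact_mod_cast hn
  rw [Real.rpow_def_of_pos hn0]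
  congr 2
  ring

theorem tl : Tendsto (fun m : ℕ => Real.log (m : ℝ)) atTop atTop := Real.tendsto_log_atTop.comp tn

theorem ratio_sq {x y : ℝ} (hx : 0 < Real.log x) : y * Real.log x ^ 2 / Real.log x = y * Real.log x := by
  field_simp

theorem ae_GT1 (hA : IsCramer μ A) {c u q : ℝ} (hc : 0 < c) (hu : 1 < u) (hq : 1 < q)
    (h : 1 < c * f u) : ∀ᵐ ω ∂μ, GT1 (A ω) c u q := by
  have hf : 0 < f u := by
    by_contra hcon
    push Not at hcon
    have := mul_nonpos_of_nonneg_of_nonpos hc.le hcon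
    linarith
  have hbig : ∀ᶠ m : ℕ in atTop, Real.exp (-(f u * c * (q - 1) * Real.log (m : ℝ))) ≤ 1 / 2 := by
    have h1 : Tendsto (fun m : ℕ => Real.exp (-(f u * c * (q - 1) * Real.log (m : ℝ)))) atTop (𝓝 0) := by
      refine Real.tendsto_exp_neg_atTop_nhds_zero.comp (tl.const_mul_atTop ?_)
      exact mul_pos (by positivity) (by linarith)
    exact (h1.eventually_lt_const (by norm_num)).mono fun n hn => hn.le
  have h3 := ae_all_grid (μ := μ) (τ := ℕ) (fun m => range (m + 1))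
    (fun m j => {ω | u * (c * q ^ j * Real.log (m : ℝ)) ≤ (Cnt (A ω) m (c * q ^ j * Real.log (m : ℝ) ^ 2) : ℝ)})
    (fun m : ℕ => (u * Real.exp (u - 1) * 2) * Real.exp (-(c * f u * Real.log (m : ℝ))))
    (summable_l h) (by
      filter_upwards [hbig, tn.eventually_ge_atTop 3] with m h1 h2
      have hlog := log_three h2
      have hp : ∀ j ∈ range (m + 1), μ.real {ω | u * (c * q ^ j * Real.log (m : ℝ)) ≤
          (Cnt (A ω) m (c * q ^ j * Real.log (m : ℝ) ^ 2) : ℝ)} ≤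
          u * Real.exp (u - 1) * Real.exp (-(f u * (c * q ^ j * Real.log (m : ℝ)))) := by
        intro j _
        have e1 := real_up (μ := μ) hA (H := c * q ^ j * Real.log (m : ℝ) ^ 2) h2 (by positivity) hu
        rw [ratio_sq (by linarith)] at e1
        exact e1
      refine (sum_le_sum hp).trans ?_
      rw [← mul_sum]
      have e2 := grid_bound hf hc hq (show 0 < Real.log (m : ℝ) by linarith) h1 (m + 1)
      have e3 := mul_le_mul_of_nonneg_left e2 (show 0 ≤ u * Real.exp (u - 1) by positivity)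
      refine e3.trans (le_of_eq ?_)
      rw [mul_comm (f u) c]
      ring)
  filter_upwards [h3] with ω hω
  filter_upwards [hω] with n hn j hj
  exact not_le.1 (hn j (mem_range.2 (by omega)))

theorem ae_GB1 (hA : IsCramer μ A) {c w q : ℝ} (hc : 0 < c) (hw0 : 0 < w) (hw : w < 1) (hq : 1 < q)
    (h : 1 < c * f w) : ∀ᵐ ω ∂μ, GB1 (A ω) c w q := by
  have h0 : 1 / c < f w := by
    rw [div_lt_iff₀ hc]
    linarith
  obtain ⟨κ, hκ1, hκ2⟩ := exists_between h0
  have hκ0 : 0 < κ := lt_trans (by positivity) hκ1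
  have hκc : 1 < κ * c := by
    rw [div_lt_iff₀ hc] at hκ1
    exact hκ1
  have hbig : ∀ᶠ m : ℕ in atTop, Real.exp (-(κ * c * (q - 1) * Real.log (m : ℝ))) ≤ 1 / 2 := by
    have h1 : Tendsto (fun m : ℕ => Real.exp (-(κ * c * (q - 1) * Real.log (m : ℝ)))) atTop (𝓝 0) := by
      refine Real.tendsto_exp_neg_atTop_nhds_zero.comp (tl.const_mul_atTop ?_)
      exact mul_pos (by positivity) (by linarith)
    exact (h1.eventually_lt_const (by norm_num)).mono fun n hn => hn.le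
  have h3 := ae_all_grid (μ := μ) (τ := ℕ)
    (fun m => (range (m + 1)).filter fun j => c * q ^ j * Real.log (m : ℝ) ^ 2 ≤ m)
    (fun m j => {ω | (Cnt (A ω) m (c * q ^ j * Real.log (m : ℝ) ^ 2) : ℝ) ≤ w * (c * q ^ j * Real.log (m : ℝ))})
    (fun m : ℕ => (Real.exp 1 * 2) * Real.exp (-(κ * c * Real.log (m : ℝ))))
    (summable_l hκc) (by
      filter_upwards [hbig, tn.eventually_ge_atTop 3, tn.eventually (ev_low (μ := μ) hA hw0 hw hκ2)] with m h1 h2 h4
      have hlog := log_three h2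
      have hp : ∀ j ∈ (range (m + 1)).filter fun j => c * q ^ j * Real.log (m : ℝ) ^ 2 ≤ m,
          μ.real {ω | (Cnt (A ω) m (c * q ^ j * Real.log (m : ℝ) ^ 2) : ℝ) ≤ w * (c * q ^ j * Real.log (m : ℝ))} ≤
          Real.exp 1 * Real.exp (-(κ * (c * q ^ j * Real.log (m : ℝ)))) := by
        intro j hj
        rw [mem_filter] at hj
        have e1 := h4 (c * q ^ j * Real.log (m : ℝ) ^ 2) (by positivity) hj.2
        rw [ratio_sq (by linarith)] at e1
        exact e1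
      refine (sum_le_sum hp).trans ?_
      rw [← mul_sum]
      have e2 := grid_bound hκ0 hc hq (show 0 < Real.log (m : ℝ) by linarith) h1 (m + 1)
      have e4 : ∑ j ∈ (range (m + 1)).filter (fun j => c * q ^ j * Real.log (m : ℝ) ^ 2 ≤ m),
          Real.exp (-(κ * (c * q ^ j * Real.log (m : ℝ)))) ≤
          ∑ j ∈ range (m + 1), Real.exp (-(κ * (c * q ^ j * Real.log (m : ℝ)))) :=
        sum_le_sum_of_subset_of_nonneg (filter_subset _ _) (fun _ _ _ => (Real.exp_pos _).le)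
      have e3 := mul_le_mul_of_nonneg_left (e4.trans e2) (show 0 ≤ Real.exp 1 by positivity)
      refine e3.trans (le_of_eq ?_)
      ring)
  filter_upwards [h3] with ω hω
  filter_upwards [hω] with n hn j hj hj2
  exact not_le.1 (hn j (mem_filter.2 ⟨mem_range.2 (by omega), hj2⟩))

/-- the properties of almost every set -/
structure All (S : Set ℕ) : Prop where
  gt : ∀ c u q : ℚ, (0 : ℝ) < c → (1 : ℝ) < u → (1 : ℝ) < q → 1 < (c : ℝ) * f u → GT1 S c u q
  gb : ∀ c w q : ℚ, (0 : ℝ) < c → (0 : ℝ) < w → (w : ℝ) < 1 → (1 : ℝ) < q → 1 < (c : ℝ) * f w → GB1 S c w q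

theorem ae_all (hA : IsCramer μ A) : ∀ᵐ ω ∂μ, All (A ω) := by
  have h1 : ∀ᵐ ω ∂μ, ∀ c u q : ℚ, (0 : ℝ) < c → (1 : ℝ) < u → (1 : ℝ) < q → 1 < (c : ℝ) * f u →
      GT1 (A ω) c u q := by
    simp only [ae_all_iff]
    intro c u q hc hu hq h
    exact ae_GT1 hA hc hu hq h
  have h2 : ∀ᵐ ω ∂μ, ∀ c w q : ℚ, (0 : ℝ) < c → (0 : ℝ) < w → (w : ℝ) < 1 → (1 : ℝ) < q → 1 < (c : ℝ) * f w →
      GB1 (A ω) c w q := by
    simp only [ae_all_iff]
    intro c w q hc hw0 hw hq h
    exact ae_GB1 hA hc hw0 hw hq h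
  filter_upwards [h1, h2] with ω e1 e2
  exact ⟨e1, e2⟩

end model

/-- the position of a length in the grid -/
theorem grid_pos1 {q c : ℝ} (hq : 1 < q) (hc : 0 < c) : ∀ᶠ m : ℕ in atTop, ∀ H : ℝ,
    c * Real.log (m : ℝ) ^ 2 ≤ H → H ≤ 2 * m → ∃ j : ℕ, j + 1 ≤ m ∧ c * q ^ j * Real.log (m : ℝ) ^ 2 ≤ H ∧
      H ≤ c * q ^ (j + 1) * Real.log (m : ℝ) ^ 2 := by
  have hlq : 0 < Real.log q := Real.log_pos hq
  have hsq : Tendsto (fun m : ℕ => Real.log (m : ℝ) ^ 2) atTop atTop := (tendsto_pow_atTop two_ne_zero).comp tl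
  have hlin : ∀ᶠ m : ℕ in atTop, Real.log (2 * (m : ℝ)) / Real.log q + 1 ≤ m := by
    have h1 : Tendsto (fun m : ℕ => Real.log (m : ℝ) / m) atTop (𝓝 0) :=
      (Real.isLittleO_log_id_atTop.tendsto_div_nhds_zero).comp tn
    filter_upwards [h1.eventually_lt_const (show (0 : ℝ) < Real.log q / 2 by positivity),
      tn.eventually_ge_atTop (2 * (Real.log 2 / Real.log q + 1)), tn.eventually_ge_atTop 1] with m h2 h3 h4
    rw [div_lt_iff₀ (by linarith)] at h2
    rw [Real.log_mul (by norm_num) (by linarith), add_div]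
    have h5 : Real.log (m : ℝ) / Real.log q ≤ m / 2 := by
      rw [div_le_iff₀ hlq]
      linarith
    linarith
  filter_upwards [hsq.eventually_ge_atTop (1 / c), tl.eventually_gt_atTop 0, hlin, tn.eventually_ge_atTop 1] with
    m h1 h2 h3 h4 H hH1 hH2
  have h5 : 1 ≤ c * Real.log (m : ℝ) ^ 2 := by
    rw [div_le_iff₀ hc] at h1
    linarith
  have h6 : 1 ≤ H / (c * Real.log (m : ℝ) ^ 2) := by
    rw [one_le_div (by linarith)]
    exact hH1
  obtain ⟨j, hj1, hj2⟩ := exists_nat_pow_near h6 hq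
  rw [le_div_iff₀ (by linarith)] at hj1
  rw [div_lt_iff₀ (by linarith)] at hj2
  refine ⟨j, ?_, by linarith, by linarith⟩
  have h7 : q ^ j ≤ 2 * m := by
    have hqj : 0 < q ^ j := by positivity
    nlinarith
  have h8 := Real.log_le_log (by positivity) h7
  rw [Real.log_pow] at h8
  have h9 : (j : ℝ) ≤ Real.log (2 * (m : ℝ)) / Real.log q := by
    rw [le_div_iff₀ hlq]
    exact h8
  have h10 : ((j + 1 : ℕ) : ℝ) ≤ (m : ℝ) := by
    push_cast
    linarith
  exact_mod_cast h10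

/-- logarithms of neighbouring points -/
theorem ev_log_near {e : ℝ} (he : 0 < e) : ∀ᶠ x : ℝ in atTop, ∀ y : ℝ, |y - x| ≤ 1 →
    Real.log y ≤ (1 + e) * Real.log x ∧ Real.log x ≤ (1 + e) * Real.log y := by
  filter_upwards [eventually_ge_atTop 3, Real.tendsto_log_atTop.eventually_ge_atTop (2 * (1 + e) / e)] with x hx hl y hy
  rw [abs_le] at hy
  rw [div_le_iff₀ he] at hl
  have hx0 : 0 < x := by linarith
  have hy0 : 0 < y := by linarith
  have h1 : Real.log y ≤ Real.log x + 1 := by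
    have e1 : Real.log y ≤ Real.log (2 * x) := Real.log_le_log hy0 (by linarith)
    rw [Real.log_mul (by norm_num) hx0.ne'] at e1
    have := Real.log_two_lt_d9
    linarith
  have h2 : Real.log x ≤ Real.log y + 1 := by
    have e1 : Real.log x ≤ Real.log (2 * y) := Real.log_le_log hx0 (by linarith)
    rw [Real.log_mul (by norm_num) hy0.ne'] at e1
    have := Real.log_two_lt_d9
    linarith
  constructor <;> nlinarith

/-- **Not too many elements**, for all starting points and all lengths at least `k (log x) ^ 2`. -/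
theorem All.evU (hS : All S) {k u : ℝ} (hk : 0 < k) (hu : 1 < u) (h : 1 < k * f u) :
    ∀ᶠ x : ℝ in atTop, ∀ H : ℝ, k * Real.log x ^ 2 ≤ H → H ≤ x → R S H x < u := by
  obtain ⟨r, hr, hcf⟩ := exists_cf hk (show 0 < u by linarith) h
  obtain ⟨c1, hc1, hc2⟩ := exists_rat_btwn (show max (k - r) 0 < k from max_lt (by linarith) hk)
  obtain ⟨u1, hu1, hu2⟩ := exists_rat_btwn (show max (u - r) 1 < u from max_lt (by linarith) hu)
  rw [max_lt_iff] at hc1 hu1
  have hcu := hcf c1 u1 (by rw [abs_lt]; constructor <;> linarith [hc1.1]) (by rw [abs_lt]; constructor <;> linarith [hu1.1])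
  have hu10 : (0 : ℝ) < u1 := by linarith [hu1.2]
  obtain ⟨q, hq1, hq2⟩ := exists_rat_btwn (show 1 < u / u1 by rw [lt_div_iff₀ hu10]; linarith)
  rw [lt_div_iff₀ hu10] at hq2
  have hq0 : (0 : ℝ) < q := by linarith
  -- the room
  obtain ⟨e, he0, he⟩ : ∃ e : ℝ, 0 < e ∧ (1 + e) * (1 + e) * (q * u1) ≤ u := by
    have hcont : ContinuousAt (fun e : ℝ => (1 + e) * (1 + e) * (q * u1)) 0 := by fun_prop
    have hev := hcont.eventually_lt_const (show (1 + (0 : ℝ)) * (1 + 0) * (q * u1) < u by linarith)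
    rw [Metric.eventually_nhds_iff] at hev
    obtain ⟨d, hd, hev⟩ := hev
    refine ⟨d / 2, by linarith, (hev (y := d / 2) ?_).le⟩
    rw [Real.dist_eq, sub_zero, abs_of_pos (by linarith)]
    linarith
  have hfl := tendsto_nat_floor_atTop (α := ℝ)
  have hlx : Tendsto (fun x : ℝ => k * Real.log x ^ 2) atTop atTop :=
    ((tendsto_pow_atTop two_ne_zero).comp Real.tendsto_log_atTop).const_mul_atTop hk
  filter_upwards [hfl.eventually (hS.gt c1 u1 q hc1.2 hu1.2 hq1 hcu), hfl.eventually (grid_pos1 hq1 hc1.2),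
    hfl.eventually (tl.eventually_gt_atTop 0), eventually_ge_atTop 4, ev_log_near he0,
    hlx.eventually_ge_atTop (1 / e)] with x e1 e2 e3 e4 e5 e6 H hH1 hH2
  have hx0 : 0 ≤ x := by linarith
  obtain ⟨m, hm⟩ : ∃ m : ℕ, m = ⌊x⌋₊ := ⟨_, rfl⟩
  rw [← hm] at e1 e2 e3
  have hm1 : (m : ℝ) ≤ x := by rw [hm]; exact Nat.floor_le hx0
  have hm2 : x < m + 1 := by rw [hm]; exact Nat.lt_floor_add_one x
  have hlx1 : 0 < Real.log x := Real.log_pos (by linarith)
  have hH0 : 0 < H := lt_of_lt_of_le (by positivity) hH1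
  have hlmx : Real.log (m : ℝ) ≤ Real.log x := Real.log_le_log (by linarith) hm1
  have hsq : Real.log (m : ℝ) ^ 2 ≤ Real.log x ^ 2 := pow_le_pow_left₀ e3.le hlmx 2
  have hc10 : (0 : ℝ) < c1 := hc1.2
  have hge : (c1 : ℝ) * Real.log (m : ℝ) ^ 2 ≤ H + 1 := by
    have k1 : (c1 : ℝ) * Real.log (m : ℝ) ^ 2 ≤ k * Real.log x ^ 2 := mul_le_mul hc2.le hsq (by positivity) hk.le
    linarith
  obtain ⟨j, hj, hj1, hj2⟩ := e2 (H + 1) hge (by linarith)
  rw [R_lt_iff hH0 hlx1]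
  have k1 := e1 (j + 1) hj
  have k2 : (Cnt S x H : ℝ) ≤ Cnt S m (c1 * q ^ (j + 1) * Real.log (m : ℝ) ^ 2) := by
    refine Nat.cast_le.2 (Cnt_mono hm1 ?_)
    linarith
  have k3 : (c1 : ℝ) * q ^ j * Real.log (m : ℝ) ≤ (H + 1) / Real.log (m : ℝ) := by
    rw [le_div_iff₀ e3]
    refine le_trans (le_of_eq ?_) hj1
    ring
  have k4 : (H + 1) / Real.log (m : ℝ) ≤ (1 + e) * (1 + e) * (H / Real.log x) := by
    have e7 : H + 1 ≤ (1 + e) * H := by
      have : 1 / e ≤ H := e6.trans hH1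
      rw [div_le_iff₀ he0] at this
      linarith
    have e8 := (e5 m (by rw [abs_le]; constructor <;> linarith)).2
    rw [div_le_iff₀ e3]
    have e9 : (1 + e) * (1 + e) * (H / Real.log x) * Real.log (m : ℝ) =
        (1 + e) * H * ((1 + e) * Real.log (m : ℝ) / Real.log x) := by
      field_simp
    rw [e9]
    have e10 : 1 ≤ (1 + e) * Real.log (m : ℝ) / Real.log x := by
      rw [one_le_div hlx1]
      exact e8
    have e11 : 0 ≤ (1 + e) * H := by positivity
    nlinarith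
  have k5 : 0 < H / Real.log x := by positivity
  calc (Cnt S x H : ℝ) < u1 * (c1 * q ^ (j + 1) * Real.log (m : ℝ)) := lt_of_le_of_lt k2 k1
    _ = (q * u1) * (c1 * q ^ j * Real.log (m : ℝ)) := by ring
    _ ≤ (q * u1) * ((1 + e) * (1 + e) * (H / Real.log x)) :=
        mul_le_mul_of_nonneg_left (k3.trans k4) (by positivity)
    _ = ((1 + e) * (1 + e) * (q * u1)) * (H / Real.log x) := by ring
    _ ≤ u * (H / Real.log x) := mul_le_mul_of_nonneg_right he k5.le

/-- **Not too few elements**, for all starting points and all lengths at least `k (log x) ^ 2`. -/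
theorem All.evL (hS : All S) {k w : ℝ} (hk : 0 < k) (hw0 : 0 < w) (hw : w < 1) (h : 1 < k * f w) :
    ∀ᶠ x : ℝ in atTop, ∀ H : ℝ, k * Real.log x ^ 2 ≤ H → H ≤ x → w < R S H x := by
  obtain ⟨r, hr, hcf⟩ := exists_cf hk hw0 h
  obtain ⟨c1, hc1, hc2⟩ := exists_rat_btwn (show max (k - r) 0 < k from max_lt (by linarith) hk)
  obtain ⟨w1, hw1, hw2⟩ := exists_rat_btwn (show w < min (w + r) 1 from lt_min (by linarith) hw)
  rw [max_lt_iff] at hc1
  rw [lt_min_iff] at hw2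
  have hcu := hcf c1 w1 (by rw [abs_lt]; constructor <;> linarith [hc1.1]) (by rw [abs_lt]; constructor <;> linarith [hw2.1])
  have hw10 : (0 : ℝ) < w1 := by linarith
  obtain ⟨q, hq1, hq2⟩ := exists_rat_btwn (show 1 < w1 / w by rw [lt_div_iff₀ hw0]; linarith)
  rw [lt_div_iff₀ hw0] at hq2
  have hq0 : (0 : ℝ) < q := by linarith
  -- the room
  obtain ⟨e, he0, he⟩ : ∃ e : ℝ, 0 < e ∧ (1 + e) * (1 + e) * (q * w) ≤ w1 := by
    have hcont : ContinuousAt (fun e : ℝ => (1 + e) * (1 + e) * (q * w)) 0 := by fun_prop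
    have hev := hcont.eventually_lt_const (show (1 + (0 : ℝ)) * (1 + 0) * (q * w) < w1 by linarith)
    rw [Metric.eventually_nhds_iff] at hev
    obtain ⟨d, hd, hev⟩ := hev
    refine ⟨d / 2, by linarith, (hev (y := d / 2) ?_).le⟩
    rw [Real.dist_eq, sub_zero, abs_of_pos (by linarith)]
    linarith
  have hfl : Tendsto (fun x : ℝ => ⌊x⌋₊ + 1) atTop atTop :=
    (tendsto_add_atTop_nat 1).comp (tendsto_nat_floor_atTop (α := ℝ))
  have hlx : Tendsto (fun x : ℝ => k * Real.log x ^ 2) atTop atTop :=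
    ((tendsto_pow_atTop two_ne_zero).comp Real.tendsto_log_atTop).const_mul_atTop hk
  obtain ⟨X, hX2, hX⟩ := exists_sq (k := c1) (k' := k) hc1.2 hc2
  filter_upwards [hfl.eventually (hS.gb c1 w1 q hc1.2 hw10 hw2.2 hq1 hcu), hfl.eventually (grid_pos1 hq1 hc1.2),
    hfl.eventually (tl.eventually_gt_atTop 0), eventually_ge_atTop (max 4 X), ev_log_near he0,
    hlx.eventually_ge_atTop (1 / e + 1)] with x e1 e2 e3 e4 e5 e6 H hH1 hH2
  rw [max_le_iff] at e4
  have hx0 : 0 ≤ x := by linarith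
  obtain ⟨m, hm⟩ : ∃ m : ℕ, m = ⌊x⌋₊ + 1 := ⟨_, rfl⟩
  rw [← hm] at e1 e2 e3
  have hmr : (m : ℝ) = ⌊x⌋₊ + 1 := by rw [hm]; push_cast; ring
  have hm1 : (m : ℝ) ≤ x + 1 := by
    have := Nat.floor_le hx0
    linarith
  have hm2 : x < m := by
    have := Nat.lt_floor_add_one x
    linarith
  have hlx1 : 0 < Real.log x := Real.log_pos (by linarith)
  have hH0 : 0 < H := lt_of_lt_of_le (by positivity) hH1
  have hc10 : (0 : ℝ) < c1 := hc1.2
  have hge : (c1 : ℝ) * Real.log (m : ℝ) ^ 2 ≤ H - 1 := by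
    have := hX m x (by linarith) e4.2 hm1
    linarith
  obtain ⟨j, hj, hj1, hj2⟩ := e2 (H - 1) hge (by linarith)
  rw [lt_R_iff hH0 hlx1]
  have k1 := e1 j (by omega) (by linarith)
  have k2 : (Cnt S m (c1 * q ^ j * Real.log (m : ℝ) ^ 2) : ℝ) ≤ Cnt S x H := by
    refine Nat.cast_le.2 (Cnt_mono hm2.le ?_)
    linarith
  have k3 : (H - 1) / Real.log (m : ℝ) ≤ (c1 : ℝ) * q ^ (j + 1) * Real.log (m : ℝ) := by
    rw [div_le_iff₀ e3]
    refine hj2.trans (le_of_eq ?_)
    ring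
  have k4 : H / Real.log x ≤ (1 + e) * (1 + e) * ((H - 1) / Real.log (m : ℝ)) := by
    have e7 : H ≤ (1 + e) * (H - 1) := by
      have : 1 / e ≤ H - 1 := by linarith
      rw [div_le_iff₀ he0] at this
      linarith
    have e8 := (e5 m (by rw [abs_le]; constructor <;> linarith)).1
    rw [div_le_iff₀ hlx1]
    have e9 : (1 + e) * (1 + e) * ((H - 1) / Real.log (m : ℝ)) * Real.log x =
        (1 + e) * (H - 1) * ((1 + e) * Real.log x / Real.log (m : ℝ)) := by
      field_simp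
    rw [e9]
    have e10 : 1 ≤ (1 + e) * Real.log x / Real.log (m : ℝ) := by
      rw [one_le_div e3]
      exact e8
    have e11 : 0 ≤ (1 + e) * (H - 1) := le_trans hH0.le e7
    nlinarith
  have k5 : 0 < (c1 : ℝ) * q ^ j * Real.log (m : ℝ) := by positivity
  calc w * (H / Real.log x) ≤ w * ((1 + e) * (1 + e) * ((H - 1) / Real.log (m : ℝ))) :=
        mul_le_mul_of_nonneg_left k4 hw0.le
    _ ≤ w * ((1 + e) * (1 + e) * (c1 * q ^ (j + 1) * Real.log (m : ℝ))) := by
        apply mul_le_mul_of_nonneg_left _ hw0.le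
        exact mul_le_mul_of_nonneg_left k3 (by positivity)
    _ = ((1 + e) * (1 + e) * (q * w)) * (c1 * q ^ j * Real.log (m : ℝ)) := by ring
    _ ≤ w1 * (c1 * q ^ j * Real.log (m : ℝ)) := mul_le_mul_of_nonneg_right he k5.le
    _ < (Cnt S m (c1 * q ^ j * Real.log (m : ℝ) ^ 2) : ℝ) := k1
    _ ≤ _ := k2

end Pool.Agent.Q166.GC
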