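import Pool.Agent.Q166.GC.K
import Pool.Agent.Q166.EB.E

/-!
# Cramér's model: all levels `0 ≤ w < 1 < u`, the sets of exceptional bases
-/

set_option autoImplicit false

namespace Pool.Agent.Q166.GC

open Finset MeasureTheory Filter Topology Pool.Agent.Q120.ET Pool.Agent.Q120.MF Pool.Agent.Q120.EX
  Pool.Agent.Q166.EB
open scoped ENNReal NNReal

variable {S : Set ℕ} {b : ℝ}

/-- The bases `b > 1` such that `R_H(x) ≥ u`, `H = H(x)`, for infinitely many `x = b ^ n`. -/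
def Up (S : Set ℕ) (H : ℝ → ℝ) (u : ℝ) : Set ℝ := {b | 1 < b ∧ ∃ᶠ n : ℕ in atTop, u ≤ R S (H (b ^ n)) (b ^ n)}

/-- The bases `b > 1` such that `R_H(x) ≤ w`, `H = H(x)`, for infinitely many `x = b ^ n`. -/
def Dn (S : Set ℕ) (H : ℝ → ℝ) (w : ℝ) : Set ℝ := {b | 1 < b ∧ ∃ᶠ n : ℕ in atTop, R S (H (b ^ n)) (b ^ n) ≤ w}

theorem R_eq_ratio (k x : ℝ) : R S (k * Real.log x ^ 2) x = Ratio S k x := by
  unfold R Ratio
  by_cases h : Real.log x = 0
  · simp [h]
  · congr 1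
    field_simp

theorem Up_eq (k u : ℝ) : Up S (fun x => k * Real.log x ^ 2) u = Hi S k u := by
  unfold Up Hi
  simp only [R_eq_ratio]

theorem Dn_eq (k w : ℝ) : Dn S (fun x => k * Real.log x ^ 2) w = Lo S k w := by
  unfold Dn Lo
  simp only [R_eq_ratio]

theorem f_zero : f 0 = 1 := by simp [f]

/-- a positive level near the level zero -/
theorem exists_level {k : ℝ} (h : 1 < k * f 0) : ∃ w : ℝ, 0 < w ∧ w < 1 ∧ 1 < k * f w := by
  have h1 : Continuous fun u : ℝ => k * f u := by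
    unfold f
    exact continuous_const.mul ((continuous_const.sub continuous_id).add Real.continuous_mul_log)
  have h2 := (h1.tendsto 0).eventually_const_lt h
  rw [Metric.eventually_nhds_iff] at h2
  obtain ⟨r, hr, h2⟩ := h2
  refine ⟨min (r / 2) (1 / 2), by positivity, lt_of_le_of_lt (min_le_right _ _) (by norm_num), h2 ?_⟩
  rw [Real.dist_eq, sub_zero, abs_of_pos (by positivity)]
  exact lt_of_le_of_lt (min_le_left _ _) (by linarith)

/-- **Not too few elements**, all levels `0 ≤ w < 1`. -/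
theorem All.evL0 (hS : All S) {k w : ℝ} (hk : 0 < k) (hw0 : 0 ≤ w) (hw : w < 1) (h : 1 < k * f w) :
    ∀ᶠ x : ℝ in atTop, ∀ H : ℝ, k * Real.log x ^ 2 ≤ H → H ≤ x → w < R S H x := by
  rcases hw0.eq_or_lt with rfl | hw0
  · obtain ⟨w, h1, h2, h3⟩ := exists_level h
    filter_upwards [hS.evL hk h1 h2 h3] with x hx H hH1 hH2
    exact h1.trans (hx H hH1 hH2)
  · exact hS.evL hk hw0 hw h

/-- **Not too few elements** above the powers of a typical base, all levels `0 ≤ w < 1`. -/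
theorem Base.evL0 (hS : Base S b) (hb : 1 < b) {c w : ℝ} (hc : 0 < c) (hw0 : 0 ≤ w) (hw : w < 1) (h : 1 < c * f w) :
    ∀ᶠ n : ℕ in atTop, ∀ H : ℝ, c * LL (b ^ n) ≤ H → H ≤ b ^ n → w < R S H (b ^ n) := by
  rcases hw0.eq_or_lt with rfl | hw0
  · obtain ⟨w, h1, h2, h3⟩ := exists_level h
    filter_upwards [hS.evL hb hc h1 h2 h3] with x hx H hH1 hH2
    exact h1.trans (hx H hH1 hH2)
  · exact hS.evL hb hc hw0 hw h

/-! ### Empty windows -/

/-- the bases for which some window ends at an integer -/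
def Co (H : ℝ → ℝ) : Set ℝ := {b | 1 < b ∧ ∃ n m : ℕ, 3 ≤ b ^ n ∧ b ^ n + H (b ^ n) = m}

theorem co_countable {H : ℝ → ℝ} (h : ∀ x y : ℝ, 3 ≤ x → x < y → H x ≤ H y) : (Co H).Countable := by
  have h1 : Co H ⊆ ⋃ (n : ℕ) (m : ℕ), {b : ℝ | 1 < b ∧ 3 ≤ b ^ n ∧ b ^ n + H (b ^ n) = m} := by
    rintro b ⟨hb, n, m, h2, h3⟩
    simp only [Set.mem_iUnion]
    exact ⟨n, m, hb, h2, h3⟩
  refine Set.Countable.mono h1 (Set.countable_iUnion fun n => Set.countable_iUnion fun m => ?_)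
  apply Set.Subsingleton.countable
  have key : ∀ a b : ℝ, 1 < a → 3 ≤ a ^ n → a < b → a ^ n + H (a ^ n) = m → b ^ n + H (b ^ n) = m → False := by
    intro a b ha h3 hab e1 e2
    have hn : n ≠ 0 := by
      rintro rfl
      norm_num at h3
    have h4 : a ^ n < b ^ n := pow_lt_pow_left₀ hab (by linarith) hn
    have h5 := h _ _ h3 h4
    linarith
  rintro a ⟨ha1, ha2, ha3⟩ b ⟨hb1, hb2, hb3⟩
  rcases lt_trichotomy a b with hab | hab | hab
  · exact absurd (key a b ha1 ha2 hab ha3 hb3) id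
  · exact hab
  · exact absurd (key b a hb1 hb2 hab hb3 ha3) id

theorem meagre_of_countable {E : Set ℝ} (h : E.Countable) : ∀ᶠ b : ℝ in residual ℝ, b ∉ E := by
  have h1 : ∀ᶠ b : ℝ in residual ℝ, ∀ e ∈ E, b ≠ e := by
    rw [eventually_countable_ball h]
    intro e he
    exact residual_of_dense_open isOpen_compl_singleton (dense_compl_singleton e)
  filter_upwards [h1] with b hb hbE
  exact hb b hbE rfl

theorem R_nonpos_of_free {H x : ℝ} (h : ∀ m ∈ S, ¬ (x < (m : ℝ) ∧ (m : ℝ) ≤ x + H)) : R S H x ≤ 0 := by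
  have h1 : Cnt S x H = 0 := by
    unfold Cnt
    have : {m : ℕ | m ∈ S ∧ x < (m : ℝ) ∧ (m : ℝ) ≤ x + H} = ∅ := by
      ext m
      simp only [Set.mem_ofPred_eq, Set.mem_empty_iff_false, iff_false, not_and]
      intro hm h2 h3
      exact h m hm ⟨h2, h3⟩
    rw [this, Set.ncard_empty]
  unfold R
  rw [h1]
  simp

theorem free_of_R_nonpos {H x : ℝ} (hH : 0 < H) (hx : 0 < Real.log x) (h : R S H x ≤ 0) :
    ∀ m ∈ S, ¬ (x < (m : ℝ) ∧ (m : ℝ) ≤ x + H) := by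
  rintro m hm ⟨h2, h3⟩
  have h4 : ¬ (0 < R S H x) := not_lt.2 h
  rw [lt_R_iff hH hx, zero_mul] at h4
  have h5 : Cnt S x H = 0 := by
    by_contra h6
    exact h4 (by exact_mod_cast Nat.pos_of_ne_zero h6)
  unfold Cnt at h5
  have hfin : {m : ℕ | m ∈ S ∧ x < (m : ℝ) ∧ (m : ℝ) ≤ x + H}.Finite :=
    (Set.finite_Iic ⌊x + H⌋₊).subset fun m hm => Nat.le_floor hm.2.2
  rw [Set.ncard_eq_zero hfin] at h5
  have : m ∈ (∅ : Set ℕ) := by
    rw [← h5]
    exact ⟨hm, h2, h3⟩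
  exact this

theorem mem_Dn_of_exc {H : ℝ → ℝ} (h : b ∈ Exc S H) (hco : b ∉ Co H) : b ∈ Dn S H 0 := by
  refine ⟨h.1, (h.2.and_eventually ((tpow h.1).eventually_ge_atTop 3)).mono ?_⟩
  rintro n ⟨h1, h2⟩
  apply R_nonpos_of_free
  rintro m hm ⟨h3, h4⟩
  rcases h4.eq_or_lt with h5 | h5
  · exact hco ⟨h.1, n, m, h2, h5.symm⟩
  · exact h1 m hm ⟨h3, h5⟩

theorem mem_Dn_of_exc_lt {H H' : ℝ → ℝ} (h : b ∈ Exc S H') (hlt : ∀ᶠ x : ℝ in atTop, H x < H' x) : b ∈ Dn S H 0 := by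
  refine ⟨h.1, (h.2.and_eventually ((tpow h.1).eventually hlt)).mono ?_⟩
  rintro n ⟨h1, h2⟩
  apply R_nonpos_of_free
  rintro m hm ⟨h3, h4⟩
  exact h1 m hm ⟨h3, by linarith⟩

theorem exc_of_mem_Dn {H : ℝ → ℝ} (hH : ∀ᶠ x : ℝ in atTop, 0 < H x) (h : b ∈ Dn S H 0) : b ∈ Exc S H := by
  refine ⟨h.1, (h.2.and_eventually (((tpow h.1).eventually hH).and ((tlog h.1).eventually_gt_atTop 0))).mono ?_⟩
  rintro n ⟨h1, h2, h3⟩ m hm ⟨h4, h5⟩
  exact free_of_R_nonpos h2 h3 h1 m hm ⟨h4, h5.le⟩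

theorem ev_sq_pos {k : ℝ} (hk : 0 < k) : ∀ᶠ x : ℝ in atTop, 0 < k * Real.log x ^ 2 := by
  filter_upwards [Real.tendsto_log_atTop.eventually_gt_atTop 0] with x hx
  positivity

theorem sq_mono {k : ℝ} (hk : 0 ≤ k) (x y : ℝ) (hx : 3 ≤ x) (hxy : x < y) : k * Real.log x ^ 2 ≤ k * Real.log y ^ 2 := by
  apply mul_le_mul_of_nonneg_left _ hk
  exact pow_le_pow_left₀ (Real.log_nonneg (by linarith)) (Real.log_le_log (by linarith) hxy.le) 2

theorem LL_mono (x y : ℝ) (hx : 3 ≤ x) (hxy : x < y) : LL x ≤ LL y := by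
  unfold LL
  have h1 := log_three hx
  have h2 : Real.log x ≤ Real.log y := Real.log_le_log (by linarith) hxy.le
  exact mul_le_mul h2 (Real.log_le_log (by linarith) h2) (Real.log_nonneg h1) (by linarith)

/-- **The dimension of the set of the bases with infinitely many empty windows.** -/
theorem dim_zero (hS : EB.Good S) {k p q : ℝ} (hk : 0 < k) (hq : 1 < q) (hpq : p < q) :
    dimH (Dn S (fun x => k * Real.log x ^ 2) 0 ∩ Set.Ioo p q) = ENNReal.ofReal (1 - k * f 0) := by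
  rw [f_zero, mul_one]
  rcases le_or_gt k 1 with h | h
  · rw [← hS.dimE hk h hq hpq]
    apply le_antisymm
    · apply dimH_mono
      rintro b ⟨h1, h2⟩
      exact ⟨exc_of_mem_Dn (ev_sq_pos hk) h1, h2⟩
    · have h1 : Exc S (fun x => k * Real.log x ^ 2) ∩ Set.Ioo p q ⊆
          (Dn S (fun x => k * Real.log x ^ 2) 0 ∩ Set.Ioo p q) ∪ Co (fun x => k * Real.log x ^ 2) := by
        rintro b ⟨h1, h2⟩
        by_cases h3 : b ∈ Co (fun x => k * Real.log x ^ 2)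
        · exact Or.inr h3
        · exact Or.inl ⟨mem_Dn_of_exc h1 h3, h2⟩
      refine (dimH_mono h1).trans ?_
      rw [dimH_union, dimH_countable (co_countable (sq_mono hk.le))]
      simp
  · rw [ENNReal.ofReal_of_nonpos (by linarith)]
    have h1 := hS.dimE one_pos le_rfl hq hpq
    rw [sub_self, ENNReal.ofReal_zero] at h1
    rw [← le_zero_iff, ← h1]
    apply dimH_mono
    rintro b ⟨h2, h3⟩
    refine ⟨Exc_anti (Eventually.of_forall fun x => ?_) (exc_of_mem_Dn (ev_sq_pos hk) h2), h3⟩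
    exact mul_le_mul_of_nonneg_right h.le (sq_nonneg _)

/-- **Generic bases, empty windows.** -/
theorem generic_zero (hS : EB.Gaps S) : ∀ᶠ b : ℝ in residual ℝ, 1 < b →
    b ∈ Dn S (fun x => Real.log x ^ 2) 0 ∧ ∀ k : ℝ, k < 1 → b ∈ Dn S (fun x => k * Real.log x ^ 2) 0 := by
  filter_upwards [hS.generic_all, meagre_of_countable (co_countable (sq_mono (zero_le_one (α := ℝ))))] with b h1 h2 hb
  have h3 := h1 hb 1 le_rfl
  constructor
  · have h4 := mem_Dn_of_exc h3 h2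
    simpa only [one_mul] using h4
  · intro k hk
    refine mem_Dn_of_exc_lt h3 ?_
    filter_upwards [Real.tendsto_log_atTop.eventually_gt_atTop 0] with x hx
    exact mul_lt_mul_of_pos_right hk (by positivity)

theorem ev_LL_pos : ∀ᶠ x : ℝ in atTop, 0 < LL x := by
  filter_upwards [Real.tendsto_log_atTop.eventually_gt_atTop 1] with x hx
  exact mul_pos (by linarith) (Real.log_pos hx)

/-- **Almost every base, empty windows.** -/
theorem base_zero {S : Set ℕ} (hS : ∀ᵐ b : ℝ, 1 < b → ∀ c : ℝ, (b ∈ Exc S (EB.LL c) ↔ c ≤ 1)) :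
    ∀ᵐ b : ℝ, 1 < b → b ∈ Dn S LL 0 ∧ ∀ c : ℝ, c < 1 → b ∈ Dn S (fun x => c * LL x) 0 := by
  have h0 : ∀ᵐ b : ℝ, b ∉ Co LL := by
    rw [ae_iff]
    simp only [not_not]
    exact (co_countable LL_mono).measure_zero _
  filter_upwards [hS, h0] with b h1 h2 hb
  have h3 := (h1 hb 1).2 le_rfl
  have h4 : EB.LL 1 = LL := by
    ext x
    unfold EB.LL LL
    rw [one_mul]
  rw [h4] at h3
  refine ⟨mem_Dn_of_exc h3 h2, fun c hc => mem_Dn_of_exc_lt h3 ?_⟩
  filter_upwards [ev_LL_pos] with x hx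
  nlinarith

end Pool.Agent.Q166.GC
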